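import Mathlib

/-! Sums over pairs `a < b < n`. -/

namespace Pool.Agent.Lib.MP_0bb0c3_co

open Finset

/-- Sum over pairs `a < b < n`. -/
def pS (n : ℕ) (φ : ℕ → ℕ → ℤ) : ℤ := ∑ b ∈ range n, ∑ a ∈ range b, φ a b

theorem pS_succ (n : ℕ) (φ : ℕ → ℕ → ℤ) : pS (n + 1) φ = pS n φ + ∑ a ∈ range n, φ a n :=
  sum_range_succ _ _

theorem pS_succ' (n : ℕ) (φ : ℕ → ℕ → ℤ) :
    pS (n + 1) φ = pS n (fun a b => φ (a + 1) (b + 1)) + ∑ b ∈ range n, φ 0 (b + 1) := by
  rw [pS, pS, sum_range_succ', sum_range_zero, add_zero, ← sum_add_distrib]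
  exact sum_congr rfl fun b _ => sum_range_succ' _ _

theorem pS_congr {n : ℕ} {φ ψ : ℕ → ℕ → ℤ} (h : ∀ a b, a < b → b < n → φ a b = ψ a b) :
    pS n φ = pS n ψ :=
  sum_congr rfl fun b hb => sum_congr rfl fun a ha => h a b (mem_range.mp ha) (mem_range.mp hb)

theorem pS_add (n : ℕ) (φ ψ : ℕ → ℕ → ℤ) :
    pS n (fun a b => φ a b + ψ a b) = pS n φ + pS n ψ := by
  simp only [pS, sum_add_distrib]

theorem pS_sub (n : ℕ) (φ ψ : ℕ → ℕ → ℤ) :
    pS n (fun a b => φ a b - ψ a b) = pS n φ - pS n ψ := by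
  simp only [pS, sum_sub_distrib]

theorem pS_nonneg {n : ℕ} {φ : ℕ → ℕ → ℤ} (h : ∀ a b, 0 ≤ φ a b) : 0 ≤ pS n φ :=
  sum_nonneg fun b _ => sum_nonneg fun a _ => h a b

theorem swap_lt {i a : ℕ} (h : a < i) : Equiv.swap i (i + 1) a = a :=
  Equiv.swap_apply_of_ne_of_ne (by omega) (by omega)

theorem swap_gt {i a : ℕ} (h : i + 1 < a) : Equiv.swap i (i + 1) a = a :=
  Equiv.swap_apply_of_ne_of_ne (by omega) (by omega)

theorem swap_lt_iff {i n a : ℕ} (h : i + 1 < n) : Equiv.swap i (i + 1) a < n ↔ a < n := by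
  rw [Equiv.swap_apply_def]
  split_ifs <;> omega

theorem sum_range_swap {M : Type*} [AddCommMonoid M] {i n : ℕ} (h : i + 1 < n) (g : ℕ → M) :
    ∑ a ∈ range n, g (Equiv.swap i (i + 1) a) = ∑ a ∈ range n, g a :=
  sum_equiv (Equiv.swap i (i + 1)) (fun a => by rw [mem_range, mem_range, swap_lt_iff h])
    fun _ _ => rfl

theorem pS_swap_right {i n : ℕ} (h : i + 1 < n) (φ : ℕ → ℕ → ℤ) :
    pS n (fun a b => φ a (Equiv.swap i (i + 1) b)) = pS n φ + φ i i - φ i (i + 1) := by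
  induction n, h using Nat.le_induction with
  | base =>
    rw [pS_succ, pS_succ, pS_succ, pS_succ, Equiv.swap_apply_left, Equiv.swap_apply_right,
      sum_range_succ, sum_range_succ, pS_congr (ψ := φ) fun a b _ hb => by rw [swap_lt hb]]
    ring
  | succ n hn ih =>
    rw [pS_succ, pS_succ, ih, swap_gt hn]
    ring

theorem pS_swap_left {i n : ℕ} (h : i + 1 < n) (φ : ℕ → ℕ → ℤ) :
    pS n (fun a b => φ (Equiv.swap i (i + 1) a) b) =
      pS n φ + φ (i + 1) (i + 1) - φ i (i + 1) := by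
  induction n, h using Nat.le_induction with
  | base =>
    have h1 : ∀ b, ∑ a ∈ range i, φ (Equiv.swap i (i + 1) a) b = ∑ a ∈ range i, φ a b :=
      fun b => sum_congr rfl fun a ha => by rw [swap_lt (mem_range.mp ha)]
    rw [pS_succ, pS_succ, pS_succ, pS_succ, sum_range_succ, sum_range_succ,
      Equiv.swap_apply_left, h1, h1,
      pS_congr (ψ := φ) fun a b hab hb => by rw [swap_lt (hab.trans hb)]]
    ring
  | succ n hn ih =>
    rw [pS_succ, pS_succ, ih, sum_range_swap hn fun a => φ a n]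
    ring

theorem pS_swap_both {i n : ℕ} (h : i + 1 < n) (φ : ℕ → ℕ → ℤ) :
    pS n (fun a b => φ (Equiv.swap i (i + 1) a) (Equiv.swap i (i + 1) b)) =
      pS n φ + φ (i + 1) i - φ i (i + 1) := by
  rw [pS_swap_right h fun a b => φ (Equiv.swap i (i + 1) a) b, pS_swap_left h,
    Equiv.swap_apply_left]
  ring

end Pool.Agent.Lib.MP_0bb0c3_co
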