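import Pool.Agent.Lib.MP_0bb0c3_co.Hecke
import Pool.Agent.Lib.MP_0bb0c3_co.PairSum

/-! Nonsymmetric Hall-Littlewood polynomials. -/

open AddMonoidAlgebra Finset

namespace Pool.Agent.Lib.MP_0bb0c3_co

variable {R : Type} [Field R]

/-- Laurent polynomials with exponents in `S`. -/
def Supp (R : Type) [Field R] (S : Set Lat) : Submodule R (LP R) where
  carrier := {f | ∀ b, b ∉ S → f.coeff b = 0}
  add_mem' {f g} hf hg b hb := by
    rw [coeff_add, Finsupp.add_apply, hf b hb, hg b hb, add_zero]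
  zero_mem' _ _ := rfl
  smul_mem' a f hf b hb := by rw [coeff_smul_apply, hf b hb, smul_zero]

theorem mon_mem_Supp {S : Set Lat} {b : Lat} (hb : b ∈ S) : (mon b : LP R) ∈ Supp R S := by
  intro c hc
  rw [mon, coeff_single, Finsupp.single_eq_of_ne]
  rintro rfl
  exact hc hb

theorem Supp_mono {S S' : Set Lat} (h : S ⊆ S') : Supp R S ≤ Supp R S' :=
  fun _ hf b hb => hf b fun hb' => hb (h hb')

theorem eq_sum_mon (f : LP R) : f = ∑ b ∈ f.coeff.support, f.coeff b • mon b := by
  conv_lhs => rw [← sum_coeff_single f]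
  exact sum_congr rfl fun b _ => single_eq_smul _ _

theorem map_mem_of_Supp {M : Type*} [AddCommGroup M] [Module R M] (φ : LP R →ₗ[R] M)
    (W : Submodule R M) {S : Set Lat} (h : ∀ b ∈ S, φ (mon b) ∈ W) {f : LP R}
    (hf : f ∈ Supp R S) : φ f ∈ W := by
  rw [eq_sum_mon f, map_sum]
  refine W.sum_mem fun b hb => ?_
  rw [map_smul]
  refine W.smul_mem _ (h b ?_)
  by_contra hb'
  exact Finsupp.mem_support_iff.mp hb (hf b hb')

theorem C_mul_mem {W : Submodule R (LP R)} (a : R) {f : LP R} (hf : f ∈ W) : C a * f ∈ W := by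
  rw [C_mul]
  exact W.smul_mem a hf

theorem one_sub_C (q : R) : (1 - C q : LP R) = C (1 - q) := by rw [C, C, map_sub, map_one]

theorem C_sub_one (q : R) : (C q - 1 : LP R) = C (q - 1) := by rw [C, C, map_sub, map_one]

/-- Exponents between `γ` and its reflection. -/
def Btw (i : ℕ) (γ : Lat) : Set Lat :=
  {δ | (∀ j, j ≠ i → j ≠ i + 1 → δ j = γ j) ∧ δ i + δ (i + 1) = γ i + γ (i + 1) ∧
    min (γ i) (γ (i + 1)) ≤ δ i ∧ δ i ≤ max (γ i) (γ (i + 1))}

/-- Exponents strictly between `γ` and its reflection. -/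
def SBtw (i : ℕ) (γ : Lat) : Set Lat :=
  {δ | (∀ j, j ≠ i → j ≠ i + 1 → δ j = γ j) ∧ δ i + δ (i + 1) = γ i + γ (i + 1) ∧
    γ (i + 1) < δ i ∧ δ i < γ i}

theorem swp_mem_Btw (i : ℕ) (γ : Lat) : swp i γ ∈ Btw i γ := by
  refine ⟨fun j h h' => swp_of_ne γ h h', ?_, ?_, ?_⟩
  · rw [swp_left, swp_right, add_comm]
  · rw [swp_left]
    exact min_le_right _ _
  · rw [swp_left]
    exact le_max_right _ _

theorem mon_mul_pow (c : Lat) (i j k : ℕ) : (mon c * (X i ^ j * X (i + 1) ^ k) : LP R) =
    mon (c + j • ev i + k • ev (i + 1)) := by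
  rw [mon_add, mon_add, mon_nsmul, mon_nsmul, mul_assoc, X, X]

theorem T_mon_desc (q : R) {i : ℕ} {γ : Lat} (h : γ (i + 1) < γ i) :
    T q i (mon γ) - mon (swp i γ) ∈ Supp R (SBtw i γ) := by
  obtain ⟨k, hk⟩ : ∃ k : ℕ, γ i = γ (i + 1) + ((k + 1 : ℕ) : ℤ) :=
    ⟨(γ i - γ (i + 1) - 1).toNat, by omega⟩
  obtain ⟨c, hc, h1, h2⟩ := mon_split_left hk
  have hs : sw i (mon c : LP R) = mon c := by rw [sw_mon, swp_of_eq hc]
  have e1 : (mon γ : LP R) = mon c * X i ^ (k + 1) := by rw [h1, mon_add, mon_nsmul, X]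
  have e2 : (mon (swp i γ) : LP R) = mon c * X (i + 1) ^ (k + 1) := by
    rw [h2, mon_add, mon_nsmul, X]
  rw [e1, e2, T_mul_symm q hs, T_pow_left, mul_add, add_sub_cancel_left, mul_left_comm,
    one_sub_C, Finset.mul_sum]
  refine C_mul_mem _ (Submodule.sum_mem _ fun j hj => ?_)
  have hj' := mem_range.mp hj
  rw [mon_mul_pow, h1]
  refine mon_mem_Supp ⟨fun l h3 h4 => ?_, ?_, ?_, ?_⟩
  · simp [ev_apply, h3, h4]
  all_goals
    simp [ev_apply]
    omega

theorem T_mon_mem (q : R) (i : ℕ) (γ : Lat) : T q i (mon γ) ∈ Supp R (Btw i γ) := by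
  rcases lt_or_ge (γ (i + 1)) (γ i) with h | h
  · have h1 := T_mon_desc q h
    have h2 : SBtw i γ ⊆ Btw i γ := fun δ hδ =>
      ⟨hδ.1, hδ.2.1, (min_le_right _ _).trans hδ.2.2.1.le, hδ.2.2.2.le.trans (le_max_left _ _)⟩
    have h3 := (Supp R (Btw i γ)).add_mem (Supp_mono h2 h1) (mon_mem_Supp (swp_mem_Btw i γ))
    rwa [sub_add_cancel] at h3
  · obtain ⟨k, hk⟩ : ∃ k : ℕ, swp i γ i = swp i γ (i + 1) + k :=
      ⟨(γ (i + 1) - γ i).toNat, by rw [swp_left, swp_right]; omega⟩
    obtain ⟨c, hc, h1, h2⟩ := mon_split_left hk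
    rw [swp_swp] at h2
    have hs : sw i (mon c : LP R) = mon c := by rw [sw_mon, swp_of_eq hc]
    have e1 : (mon γ : LP R) = mon c * X (i + 1) ^ k := by rw [h2, mon_add, mon_nsmul, X]
    have e2 : (mon (swp i γ) : LP R) = mon c * X i ^ k := by rw [h1, mon_add, mon_nsmul, X]
    rw [e1, T_mul_symm q hs, T_pow_right, mul_add, mul_left_comm, ← e2, mul_left_comm,
      C_sub_one, Finset.mul_sum]
    refine Submodule.add_mem _ (C_mul_mem _ (mon_mem_Supp (swp_mem_Btw i γ)))
      (C_mul_mem _ (Submodule.sum_mem _ fun j hj => ?_))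
    have hj' := mem_range.mp hj
    rw [mon_mul_pow, h2]
    refine mon_mem_Supp ⟨fun l h3 h4 => ?_, ?_, ?_, ?_⟩
    · simp [ev_apply, h3, h4]
    all_goals
      simp [ev_apply]
      try omega

theorem T_mem_Supp (q : R) {i : ℕ} {S : Set Lat} (hS : ∀ γ ∈ S, Btw i γ ⊆ S) {f : LP R}
    (hf : f ∈ Supp R S) : T q i f ∈ Supp R S :=
  map_mem_of_Supp (T q i) _ (fun γ hγ => Supp_mono (hS γ hγ) (T_mon_mem q i γ)) hf

/-- Weakly decreasing on the first `n` coordinates. -/
def Dom (n : ℕ) (b : Lat) : Prop := ∀ i, i + 1 < n → b (i + 1) ≤ b i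

/-- Number of inversions. -/
def nu (n : ℕ) (b : Lat) : ℕ := (pS n fun i j => if b i < b j then 1 else 0).toNat

theorem nu_swp {n i : ℕ} (hi : i + 1 < n) {b : Lat} (h : b i < b (i + 1)) :
    nu n (swp i b) < nu n b := by
  have h1 := pS_swap_both hi fun i j => if b i < b j then 1 else 0
  have h2 : 0 ≤ pS n fun a c => if swp i b a < swp i b c then 1 else 0 :=
    pS_nonneg fun a c => by split_ifs <;> omega
  simp only [if_pos h, if_neg h.not_gt] at h1
  have h3 : (pS n fun a c => if swp i b a < swp i b c then 1 else 0) =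
      pS n (fun i j => if b i < b j then 1 else 0) + 0 - 1 := h1
  rw [nu, nu]
  omega

theorem exists_asc {n : ℕ} {b : Lat} (h : ¬ Dom n b) : ∃ i, i + 1 < n ∧ b i < b (i + 1) := by
  by_contra h'
  exact h fun i hi => not_lt.mp fun h1 => h' ⟨i, hi, h1⟩

/-- The recursive description of the polynomials `E`. -/
inductive IsE (q : R) (n : ℕ) : Lat → LP R → Prop
  | base (b : Lat) : Dom n b → IsE q n b (mon b)
  | step (b : Lat) (f : LP R) (i : ℕ) : i + 1 < n → b (i + 1) < b i → IsE q n b f →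
      IsE q n (swp i b) (T q i f)

theorem IsE.step' {q : R} {n i : ℕ} {b : Lat} {f : LP R} (hi : i + 1 < n) (h : b i < b (i + 1))
    (hf : IsE q n (swp i b) f) : IsE q n b (T q i f) := by
  have := IsE.step (swp i b) f i hi (by rwa [swp_left, swp_right]) hf
  rwa [swp_swp] at this

theorem exists_isE (q : R) (n : ℕ) (b : Lat) : ∃ f, IsE q n b f := by
  induction hb : nu n b using Nat.strong_induction_on generalizing b with
  | _ N ih =>
    by_cases h : Dom n b
    · exact ⟨_, IsE.base b h⟩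
    · obtain ⟨i, hi, h1⟩ := exists_asc h
      obtain ⟨f, hf⟩ := ih _ (hb ▸ nu_swp hi h1) (swp i b) rfl
      exact ⟨_, hf.step' hi h1⟩

theorem IsE.inv {q : R} {n : ℕ} {b : Lat} {f : LP R} (h : IsE q n b f) :
    (Dom n b ∧ f = mon b) ∨
      ∃ i g, i + 1 < n ∧ b i < b (i + 1) ∧ IsE q n (swp i b) g ∧ f = T q i g := by
  cases h with
  | base _ hb => exact Or.inl ⟨hb, rfl⟩
  | step c g i hi hc hg =>
    refine Or.inr ⟨i, g, hi, by rwa [swp_left, swp_right], by rwa [swp_swp], rfl⟩

theorem IsE.unique {q : R} {n : ℕ} {b : Lat} {f g : LP R} (hf : IsE q n b f)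
    (hg : IsE q n b g) : f = g := by
  induction hb : nu n b using Nat.strong_induction_on generalizing b f g with
  | _ N ih =>
    have key : ∀ (i j : ℕ) (f g : LP R), i < j → j + 1 < n → b i < b (i + 1) → b j < b (j + 1) →
        IsE q n (swp i b) f → IsE q n (swp j b) g → T q i f = T q j g := by
      intro i j f g hij hj h1 h2 hf hg
      have hi : i + 1 < n := by omega
      rcases (Nat.succ_le_of_lt hij).eq_or_lt with h3 | h3
      · have h4 : j = i + 1 := h3.symm
        subst h4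
        obtain ⟨e, he⟩ := exists_isE q n (swp i (swp (i + 1) (swp i b)))
        have f1 : IsE q n (swp i b) (T q (i + 1) (T q i e)) := by
          refine IsE.step' hj ?_ (IsE.step' hi ?_ he)
          all_goals
            simp [swp_apply]
            omega
        rw [swp_braid] at he
        have g1 : IsE q n (swp (i + 1) b) (T q i (T q (i + 1) e)) := by
          refine IsE.step' hi ?_ (IsE.step' hj ?_ he)
          all_goals
            simp [swp_apply]
            omega
        rw [ih _ (hb ▸ nu_swp hi h1) hf f1 rfl, ih _ (hb ▸ nu_swp hj h2) hg g1 rfl, T_braid]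
      · have h4 : i + 1 < j := h3
        obtain ⟨e, he⟩ := exists_isE q n (swp j (swp i b))
        have f1 : IsE q n (swp i b) (T q j e) := by
          refine IsE.step' hj ?_ he
          rwa [swp_of_ne b (by omega) (by omega), swp_of_ne b (by omega) (by omega)]
        rw [← swp_comm h4] at he
        have g1 : IsE q n (swp j b) (T q i e) := by
          refine IsE.step' hi ?_ he
          rwa [swp_of_ne b (by omega) (by omega), swp_of_ne b (by omega) (by omega)]
        rw [ih _ (hb ▸ nu_swp hi h1) hf f1 rfl, ih _ (hb ▸ nu_swp hj h2) hg g1 rfl, T_comm q h4]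
    rcases hf.inv with ⟨h1, rfl⟩ | ⟨i, f', hi, h1, hf', rfl⟩
    · rcases hg.inv with ⟨-, rfl⟩ | ⟨j, g', hj, h2, -, -⟩
      · rfl
      · exact absurd (h1 j hj) h2.not_ge
    · rcases hg.inv with ⟨h2, -⟩ | ⟨j, g', hj, h2, hg', rfl⟩
      · exact absurd (h2 i hi) h1.not_ge
      · rcases lt_trichotomy i j with h3 | h3 | h3
        · exact key i j f' g' h3 hj h1 h2 hf' hg'
        · subst h3
          rw [ih _ (hb ▸ nu_swp hi h1) hf' hg' rfl]
        · exact (key j i g' f' h3 hi h2 h1 hg' hf').symm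

/-- The nonsymmetric Hall-Littlewood polynomial in the first `n` variables. -/
noncomputable def E (q : R) (n : ℕ) (b : Lat) : LP R := Classical.choose (exists_isE q n b)

theorem isE_E (q : R) (n : ℕ) (b : Lat) : IsE q n b (E q n b) :=
  Classical.choose_spec (exists_isE q n b)

theorem E_dom (q : R) {n : ℕ} {b : Lat} (h : Dom n b) : E q n b = mon b :=
  (isE_E q n b).unique (IsE.base b h)

theorem T_E_desc (q : R) {n i : ℕ} (hi : i + 1 < n) {b : Lat} (h : b (i + 1) < b i) :
    T q i (E q n b) = E q n (swp i b) :=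
  (IsE.step b _ i hi h (isE_E q n b)).unique (isE_E q n _)

theorem E_asc (q : R) {n i : ℕ} (hi : i + 1 < n) {b : Lat} (h : b i < b (i + 1)) :
    E q n b = T q i (E q n (swp i b)) := by
  rw [T_E_desc q hi (by rwa [swp_left, swp_right]), swp_swp]

theorem T_E_asc (q : R) {n i : ℕ} (hi : i + 1 < n) {b : Lat} (h : b i < b (i + 1)) :
    T q i (E q n b) = C q * E q n (swp i b) + (C q - 1) * E q n b := by
  rw [E_asc q hi h, T_quad]

theorem asc_induction {n : ℕ} {P : Lat → Prop} (h0 : ∀ b, Dom n b → P b)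
    (h1 : ∀ b i, i + 1 < n → b i < b (i + 1) → P (swp i b) → P b) (b : Lat) : P b := by
  induction hb : nu n b using Nat.strong_induction_on generalizing b with
  | _ N ih =>
    by_cases h : Dom n b
    · exact h0 b h
    · obtain ⟨i, hi, h2⟩ := exists_asc h
      exact h1 b i hi h2 (ih _ (hb ▸ nu_swp hi h2) _ rfl)

theorem T_E_eq (q : R) {n i : ℕ} (hi : i + 1 < n) {b : Lat} (h : b i = b (i + 1)) :
    T q i (E q n b) = C q * E q n b := by
  induction hb : nu n b using Nat.strong_induction_on generalizing b i with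
  | _ N ih =>
    by_cases hd : Dom n b
    · rw [E_dom q hd]
      exact T_of_symm q (by rw [sw_mon, swp_of_eq h])
    · obtain ⟨j, hj, h1⟩ := exists_asc hd
      have n1 := nu_swp hj h1
      rcases (show j + 1 < i ∨ j + 1 = i ∨ j = i ∨ j = i + 1 ∨ i + 1 < j by omega) with
        h2 | h2 | h2 | h2 | h2
      · rw [E_asc q hj h1, ← T_comm q h2, ih _ (hb ▸ n1) hi (by
          rwa [swp_of_ne b (by omega) (by omega), swp_of_ne b (by omega) (by omega)]) rfl, T_C_mul]
      · subst h2
        have h3 : swp j b (j + 1) < swp j b (j + 1 + 1) := by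
          simp [swp_apply]
          omega
        have n2 := nu_swp hi h3
        rw [E_asc q hj h1, E_asc q hi h3, ← T_braid, ih _ (hb ▸ n2.trans n1) hj (by
          simp [swp_apply]
          omega) rfl, T_C_mul, T_C_mul]
      · subst h2
        exact absurd h h1.ne
      · subst h2
        have h3 : swp (i + 1) b i < swp (i + 1) b (i + 1) := by
          simp [swp_apply]
          omega
        have n2 := nu_swp hi h3
        rw [E_asc q hj h1, E_asc q hi h3, T_braid, ih _ (hb ▸ n2.trans n1) hj (by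
          simp [swp_apply]
          omega) rfl, T_C_mul, T_C_mul]
      · rw [E_asc q hj h1, T_comm q h2, ih _ (hb ▸ n1) hi (by
          rwa [swp_of_ne b (by omega) (by omega), swp_of_ne b (by omega) (by omega)]) rfl, T_C_mul]

theorem E_add_symm (q : R) {n : ℕ} {c : Lat} (hc : ∀ i, i + 1 < n → c i = c (i + 1)) (b : Lat) :
    E q n (b + c) = mon c * E q n b := by
  induction b using asc_induction (n := n) with
  | h0 b hb =>
    rw [E_dom q hb, E_dom q, mon_add, mul_comm]
    intro i hi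
    rw [Pi.add_apply, Pi.add_apply, hc i hi]
    exact Int.add_le_add_right (hb i hi) _
  | h1 b i hi h ih =>
    have h2 : (b + c) i < (b + c) (i + 1) := by
      rw [Pi.add_apply, Pi.add_apply, hc i hi]
      exact Int.add_lt_add_right h _
    rw [E_asc q hi h2, map_add, swp_of_eq (hc i hi), ih, E_asc q hi h,
      T_mul_symm q (by rw [sw_mon, swp_of_eq (hc i hi)])]

theorem E_minuscule (q : R) {n : ℕ} (b : Lat) (hb : ∀ j < n, b j = 0 ∨ b j = -1) :
    E q n b = mon b := by
  induction b using asc_induction (n := n) with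
  | h0 b h => exact E_dom q h
  | h1 b i hi h ih =>
    rw [E_asc q hi h, ih (fun j hj => hb _ ((swap_lt_iff hi).mpr hj))]
    have h1 := T_mon_desc q (i := i) (γ := swp i b) (by rwa [swp_left, swp_right])
    rw [swp_swp] at h1
    refine sub_eq_zero.mp (lp_ext fun δ => h1 δ fun hδ => ?_)
    have h2 := hδ.2.2
    rw [swp_left, swp_right] at h2
    have := hb i (by omega)
    have := hb (i + 1) hi
    omega

theorem E_mem_Supp (q : R) {n : ℕ} {S : Set Lat} (hS : ∀ i, i + 1 < n → ∀ γ ∈ S, Btw i γ ⊆ S)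
    (b : Lat) (hb : b ∈ S) : E q n b ∈ Supp R S := by
  induction b using asc_induction (n := n) with
  | h0 b h =>
    rw [E_dom q h]
    exact mon_mem_Supp hb
  | h1 b i hi h ih =>
    rw [E_asc q hi h]
    exact T_mem_Supp q (hS i hi) (ih (hS i hi b hb (swp_mem_Btw i b)))

theorem E_succ (q : R) {n : ℕ} (b : Lat) (hb : ∀ j < n, b n ≤ b j) :
    E q (n + 1) b = E q n b := by
  induction b using asc_induction (n := n) with
  | h0 b h =>
    rw [E_dom q h, E_dom q]
    intro i hi
    rcases (show i + 1 < n ∨ i + 1 = n by omega) with h1 | h1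
    · exact h i h1
    · rw [h1]
      exact hb i (by omega)
  | h1 b i hi h ih =>
    rw [E_asc q hi h, E_asc q (n := n + 1) (by omega) h, ih]
    intro j hj
    rw [swp_of_ne b (by omega) (by omega)]
    exact hb _ ((swap_lt_iff hi).mpr hj)

end Pool.Agent.Lib.MP_0bb0c3_co
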