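import Pool.Agent.Lib.MP_0bb0c3_co.Ineq

/-! Sharper degree estimates for the weights of standard tableaux. -/

open Finset

namespace Pool.Agent.Lib.MP_0bb0c3_co

theorem two_sum_lt2 (n : ℕ) (l : ℕ → ℤ) {a b : ℕ} (ha : a < n) (hb : b < n) (hab : a ≠ b)
    (e : l a = l b) :
    2 * ∑ k ∈ range n, ∑ i ∈ range n, (if l i < l k then 1 else 0 : ℤ) + 2 ≤ n * (n - 1) := by
  obtain ⟨l', hl⟩ : ∃ l' : ℕ → ℤ, l' = fun i => 2 * l i + if i = a then 1 else 0 := ⟨_, rfl⟩
  have h0 := two_sum_lt n l'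
  have h1 : ∀ k i, (if l i < l k then 1 else 0 : ℤ) ≤ if l' i < l' k then 1 else 0 := by
    intro k i
    simp only [hl]
    split_ifs <;> omega
  have h2 : ∑ k ∈ range n, ∑ i ∈ range n, (if l i < l k then 1 else 0 : ℤ) <
      ∑ k ∈ range n, ∑ i ∈ range n, (if l' i < l' k then 1 else 0 : ℤ) := by
    refine sum_lt_sum (fun k _ => sum_le_sum fun i _ => h1 k i) ⟨a, mem_range.mpr ha, ?_⟩
    refine sum_lt_sum (fun i _ => h1 a i) ⟨b, mem_range.mpr hb, ?_⟩
    simp only [hl, e, if_neg hab.symm]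
    split_ifs <;> omega
  omega

theorem Tab.row_bound2 {m : ℕ} {z : ℕ → G} (h : Tab (m + 1) z) {r : ℤ}
    (hr : In (m + 1) z (r, 0)) (hc : In (m + 1) z (0, 1)) (hn : 2 * (m + 1 : ℕ) ≤ 3 * r) :
    2 * (UB 1 2 m (fun i => (z i).1 + 2 * (z i).2) + m) ≤ (m + 1) * m + 4 := by
  obtain ⟨l, hl⟩ : ∃ l : ℕ → ℤ, l = fun i => (z i).1 + 2 * (z i).2 := ⟨_, rfl⟩
  have hl' : ∀ i, l i = (z i).1 + 2 * (z i).2 := fun i => by rw [hl]
  have hoff : ∀ k < m + 1, (z k).2 = 0 ∨ l k ≤ r - 2 := by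
    intro k hk
    have p := h.pos k hk
    refine p.2.eq_or_lt.imp Eq.symm fun h1 => ?_
    have := h.off_row (x := (z k).1) hr ⟨k, hk, rfl⟩ h1
    rw [hl']
    omega
  have hrow : ∀ k < m + 1, ∀ a : ℤ, 0 ≤ a → a ≤ l k → In (m + 1) z (a, 0) := by
    intro k hk a h0 ha
    rcases hoff k hk with h2 | h2
    · refine h.in_row (x := (z k).1) ⟨k, hk, Prod.ext rfl h2⟩ h0 ?_
      rw [hl', h2] at ha
      omega
    · exact h.in_row hr h0 (by omega)
  have r4 := h.off_row hr hc one_pos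
  have h1 : ∀ k ∈ range (m + 1), l k + ∑ i ∈ range k, dl 1 2 (l k - l i) ≤
      ∑ i ∈ range (m + 1), (if l i < l k then 1 else 0 : ℤ) +
        (min (l k) 2 - if 5 ≤ l k then 1 else 0) := by
    intro k hk
    have hk' := mem_range.mp hk
    have e1 := Tab.le_card (z := z) (L := (l k - 2).toNat + if 5 ≤ l k then 1 else 0)
      (s := (range (m + 1)).filter fun i => l i < l k - 2)
      (fun u => if (u : ℤ) < l k - 2 then (u, 0) else (0, 1))
      (fun a ha b hb e => by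
        split_ifs at e ha hb <;> simp only [Prod.mk.injEq] at e <;> omega) fun a ha => by
        by_cases h2 : (a : ℤ) < l k - 2
        · obtain ⟨i, hi, e⟩ := hrow k hk' a (by omega) (by omega)
          exact ⟨i, mem_filter.mpr ⟨mem_range.mpr hi, by rw [hl', e]; simp only; omega⟩,
            by rw [if_pos h2, e]⟩
        · obtain ⟨i, hi, e⟩ := hc
          refine ⟨i, mem_filter.mpr ⟨mem_range.mpr hi, ?_⟩, by rw [if_neg h2, e]⟩
          rw [hl', e]
          split_ifs at ha <;> simp only <;> omega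
    have e2 : ∑ i ∈ range k, dl 1 2 (l k - l i) ≤ ∑ i ∈ range (m + 1), dl 1 2 (l k - l i) :=
      sum_le_sum_of_subset_of_nonneg (range_subset_range.mpr hk'.le) fun i _ _ => by
        rw [dl]
        omega
    have e3 : ∑ i ∈ range (m + 1), (dl 1 2 (l k - l i) + if l i < l k - 2 then 1 else 0) ≤
        ∑ i ∈ range (m + 1), (if l i < l k then 1 else 0 : ℤ) := sum_le_sum fun i _ => by
      rw [dl]
      split_ifs <;> omega
    rw [sum_add_distrib, sum_boole] at e3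
    split_ifs at e1 ⊢ <;> omega
  have h2 := sum_le_sum h1
  obtain ⟨a, ha, ea⟩ := h.in_row hr zero_le_two (by omega)
  obtain ⟨b, hb, eb⟩ := id hc
  have h3 := two_sum_lt2 (m + 1) l ha hb (by
    rintro rfl
    rw [ea] at eb
    simp at eb) (by rw [hl', hl', ea, eb]; rfl)
  have z0 := h.zero (Nat.succ_pos m)
  have l0 : l 0 = 0 := by rw [hl', z0]; rfl
  obtain ⟨j, hj, e⟩ := h.in_row hr zero_le_one (by omega)
  have l1 : l j = 1 := by rw [hl', e]; rfl
  have h4 : ∑ k ∈ {0, j}, (2 - min (l k) 2) ≤ ∑ k ∈ range (m + 1), (2 - min (l k) 2) :=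
    sum_le_sum_of_subset_of_nonneg (by simp [insert_subset_iff]; omega) fun i _ _ => by omega
  rw [sum_pair (by rintro rfl; omega), l0, l1, sum_sub_distrib] at h4
  simp only [sum_const, card_range, nsmul_eq_mul] at h4
  have h5 := Tab.le_card (z := z) (L := (l m - 4).toNat)
    (s := (range (m + 1)).filter fun i => 5 ≤ l i) (fun u => (u + 5, 0))
    (fun a _ b _ e => by simpa using e) fun a ha => by
      obtain ⟨i, hi, e⟩ := hrow m (Nat.lt_succ_self m) (a + 5) (by omega) (by omega)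
      exact ⟨i, mem_filter.mpr ⟨mem_range.mpr hi, by rw [hl', e]; simp only; omega⟩, e⟩
  have h8 : l m - 4 ≤ ((range (m + 1)).filter fun i => 5 ≤ l i).card := by omega
  rw [sum_add_distrib (f := fun k => ∑ i ∈ range (m + 1), (if l i < l k then 1 else 0 : ℤ)),
    sum_sub_distrib, sum_boole (p := fun i => 5 ≤ l i)] at h2
  rw [← hl, UB, l0]
  push_cast at h3 h4
  have h6 : min (0 : ℤ) 2 = 0 := rfl
  have h7 : min (1 : ℤ) 2 = 1 := rfl
  linarith

theorem Tab.closed2 {n : ℕ} {z z' : ℕ → G} (h' : Tab n z') {α β : ℤ} (ha : 0 < α) (h1 : α < β)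
    (h2 : β < 2 * α) (hl : ∀ i < n, α * (z i).1 + β * (z i).2 = α * (z' i).1 + β * (z' i).2)
    (hc : In n z (0, 1)) : In n z' (0, 1) := by
  obtain ⟨i, hi, e⟩ := hc
  have e1 := hl i hi
  simp only [e, mul_zero, zero_add, mul_one] at e1
  have p := h'.pos i hi
  rcases p.2.eq_or_lt with h3 | h3
  · rw [← h3, mul_zero, add_zero] at e1
    have h5 : α * 1 < α * (z' i).1 := by linarith
    have h6 : α * (z' i).1 < α * 2 := by linarith
    have := lt_of_mul_lt_mul_left h5 ha.le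
    have := lt_of_mul_lt_mul_left h6 ha.le
    omega
  · exact h'.in_rect (x := (z' i).1) (y := (z' i).2) ⟨i, hi, rfl⟩ le_rfl p.1 zero_le_one h3

theorem Tab.eq_row {n : ℕ} {z : ℕ → G} (h : Tab n z) (hc : ¬In n z (0, 1)) :
    ∀ i < n, z i = ((i : ℤ), 0) := by
  intro i
  induction i using Nat.strong_induction_on with
  | _ i ih =>
    intro hi
    have p := h.pos i hi
    have h1 : (z i).2 = 0 := by
      by_contra h1
      exact hc (h.in_rect (x := (z i).1) (y := (z i).2) ⟨i, hi, rfl⟩ le_rfl p.1 zero_le_one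
        (by omega))
    have h2 := h.sum_le hi
    refine Prod.ext ?_ h1
    by_contra h3
    obtain ⟨j, hj⟩ : ∃ j : ℕ, (z i).1 = j := ⟨(z i).1.toNat, by omega⟩
    have h4 : j < i := by
      simp only at h3
      omega
    have := h.inj i hi j (by omega) (by rw [ih j h4 (by omega)]; exact Prod.ext hj h1)
    omega

/-- The sharper invariant. -/
def Inv2 (j a e S : ℤ) : Prop :=
  Inv j a e S ∧ (a = 1 → 6 ≤ e → (j - e ≤ 1 → S ≤ -1) ∧ (-1 ≤ j - e → j - e ≤ 0 → S ≤ -2))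

theorem Inv2.step {j a e S b : ℤ} (h : Inv2 j a e S) (hj : 0 ≤ j) (h1 : 1 ≤ b) (h2 : b ≤ a + 1)
    (h3 : a = 1 → 1 ≤ j → b ≤ 1) :
    Inv2 (j + 1) b (e + 2 * (b - 1)) (S + (b * (j - 4 + 3 * a - e - b) + 3)) := by
  refine ⟨h.1.step hj h1 h2 h3, ?_⟩
  rintro rfl he
  obtain ⟨⟨a1, a2, a3, a4⟩, a5⟩ := h
  rcases a1.eq_or_lt with rfl | a1
  · have := a5 rfl (by omega)
    omega
  · obtain ⟨a6, a7, -, a8⟩ := a3 a1
    rcases (show a = 2 ∨ a = 3 ∨ 4 ≤ a by omega) with rfl | rfl | a9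
    · omega
    · omega
    · have : 3 * a ≤ e := by nlinarith
      omega

theorem seq_bound2 (h : ℤ → ℤ) (d : ℕ) (h0 : h 0 = 1) (h0' : h (-1) = 0)
    (h1 : ∀ j : ℕ, j < d → 1 ≤ h (j + 1)) (h2 : ∀ j : ℕ, h (j + 1) ≤ h j + 1)
    (h3 : ∀ j : ℕ, h j = 1 → 1 ≤ j → h (j + 1) ≤ 1) {n : ℤ}
    (hn : ∑ j ∈ range (d + 1), h j = n) (hd : 3 * d < 2 * n) (h9 : 9 ≤ n) :
    3 * (∑ j ∈ range (d + 1), h j * (j + h (j - 1)) - 2 * (n - 1) + d + 1) ≤ n * (n - 1) + 2 := by
  have key : ∀ k ≤ d, Inv2 k (h k) (2 * (∑ j ∈ range (k + 1), h j - (k + 1)))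
      (3 * (∑ j ∈ range (k + 1), h j * (j + h (j - 1)) - 2 * (∑ j ∈ range (k + 1), h j - 1) +
        k + 1) - (∑ j ∈ range (k + 1), h j) * (∑ j ∈ range (k + 1), h j - 1) - 3) := by
    intro k hk
    induction k with
    | zero => simp [Inv2, Inv, h0, h0']
    | succ k ih =>
      have := (ih (by omega)).step (by omega) (h1 k hk) (h2 k) fun e1 e2 => h3 k e1 (by omega)
      rw [sum_range_succ _ (k + 1), sum_range_succ _ (k + 1)]
      push_cast
      rw [add_sub_cancel_right]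
      exact (congrArg₂ (Inv2 (k + 1) (h (k + 1))) (by ring) (by ring)).mp this
  obtain ⟨⟨a1, a2, a3, -⟩, a4⟩ := key d le_rfl
  rw [hn] at a3 a4
  rcases a1.eq_or_lt with e | e
  · have := (a4 e.symm (by omega)).1 (by omega)
    linarith
  · have := (a3 e).2.1
    have : (1 : ℤ) ≤ d := by omega
    linarith

theorem Tab.mid_bound2 {m : ℕ} {z : ℕ → G} (h : Tab (m + 1) z) {r : ℤ} (h1 : ¬In (m + 1) z (r, 0))
    (h2 : ¬In (m + 1) z (0, r)) (hr : 3 * r < 2 * (m + 1 : ℕ) + 3) (hr0 : 0 ≤ r) (hm : 8 ≤ m) :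
    3 * (UB 1 1 m (fun i => (z i).1 + (z i).2) + 1) ≤ (m + 1) * m + 2 := by
  obtain ⟨Λ, hΛ⟩ : ∃ Λ : Finset G, Λ = (range (m + 1)).image z := ⟨_, rfl⟩
  have mΛ : ∀ x y, (x, y) ∈ Λ ↔ In (m + 1) z (x, y) := fun x y => by
    simp only [hΛ, mem_image, mem_range, In]
  have sΛ : ∀ g : G → ℤ, ∑ k ∈ range (m + 1), g (z k) = ∑ c ∈ Λ, g c := fun g => by
    rw [hΛ, sum_image fun a ha b hb => h.inj a (by simpa using ha) b (by simpa using hb)]
  obtain ⟨F, hF⟩ : ∃ F : ℤ → Finset G, F = fun j => Λ.filter fun c => c.1 + c.2 = j := ⟨_, rfl⟩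
  have mF : ∀ j x y, (x, y) ∈ F j ↔ In (m + 1) z (x, y) ∧ x + y = j := fun j x y => by
    simp only [hF, mem_filter, mΛ]
  have z0 := h.zero (Nat.succ_pos m)
  obtain ⟨⟨x, y⟩, hc, hmax⟩ := exists_max_image Λ (fun c => c.1 + c.2)
    ⟨(0, 0), (mΛ _ _).mpr ⟨0, Nat.succ_pos m, z0⟩⟩
  rw [mΛ] at hc
  have p := h.in_pos hc
  obtain ⟨d, hd⟩ : ∃ d : ℕ, x + y = d := ⟨(x + y).toNat, by omega⟩
  have fib : ∀ g : ℤ → ℤ, ∑ c ∈ Λ, g (c.1 + c.2) = ∑ j ∈ range (d + 1), (F j).card * g j := by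
    intro g
    rw [← sum_fiberwise_of_maps_to (t := range (d + 1)) (g := fun c : G => (c.1 + c.2).toNat)
      fun c hc' => mem_range.mpr (by have := hmax c hc'; simp only at this; omega)]
    refine sum_congr rfl fun j _ => ?_
    have e : Λ.filter (fun c : G => (c.1 + c.2).toNat = j) = F j := by
      rw [hF]
      refine filter_congr fun c hc' => ?_
      have := h.in_pos ((mΛ c.1 c.2).mp hc')
      omega
    rw [e, sum_congr rfl fun c hc' => by rw [((mF j c.1 c.2).mp hc').2], sum_const, nsmul_eq_mul]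
  have e1 := seq_bound2 (fun j => (F j).card) d ?_ ?_ ?_ ?_ ?_ (n := m + 1) ?_ ?_ (by omega)
  · have e2 : ∀ k ∈ range (m + 1), (z k).1 + (z k).2 +
        ∑ i ∈ range k, dl 1 1 ((z k).1 + (z k).2 - ((z i).1 + (z i).2)) ≤
          (z k).1 + (z k).2 + (F ((z k).1 + (z k).2 - 1)).card := by
      intro k hk
      refine Int.add_le_add_left ((sum_le_sum_of_subset_of_nonneg
        (range_subset_range.mpr (mem_range.mp hk).le) fun i _ _ => by rw [dl]; omega).trans ?_) _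
      rw [sΛ fun c => dl 1 1 ((z k).1 + (z k).2 - (c.1 + c.2)), hF, ← sum_boole]
      refine sum_le_sum fun c _ => ?_
      rw [dl]
      split_ifs <;> omega
    have e3 := sum_le_sum e2
    rw [sΛ fun c => c.1 + c.2 + (F (c.1 + c.2 - 1)).card, fib fun j => j + (F (j - 1)).card] at e3
    have e4 := hmax (z m) ((mΛ _ _).mpr ⟨m, Nat.lt_succ_self m, rfl⟩)
    simp only [UB, z0, Prod.fst_zero, Prod.snd_zero] at e4 ⊢
    linarith
  · have : F 0 = {(0, 0)} := by
      ext ⟨u, v⟩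
      rw [mF, mem_singleton, Prod.mk.injEq]
      refine ⟨fun h3 => ?_, ?_⟩
      · have := h.in_pos h3.1
        omega
      · rintro ⟨rfl, rfl⟩
        exact ⟨⟨0, Nat.succ_pos m, z0⟩, rfl⟩
    simp only [this, card_singleton, Nat.cast_one]
  · rw [Nat.cast_eq_zero, card_eq_zero]
    refine eq_empty_of_forall_notMem fun ⟨u, v⟩ h3 => ?_
    rw [mF] at h3
    have := h.in_pos h3.1
    omega
  · intro j hj
    exact Nat.one_le_cast.mpr (card_pos.mpr ⟨(min x (j + 1), j + 1 - min x (j + 1)), (mF _ _ _).mpr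
      ⟨h.in_rect hc (by omega) (by omega) (by omega) (by omega), by omega⟩⟩)
  · intro j
    have e2 : F (j + 1) ⊆ insert (0, (j : ℤ) + 1) ((F j).image (· + (1, 0))) := by
      rintro ⟨u, v⟩ h3
      rw [mF] at h3
      rcases (h.in_pos h3.1).1.eq_or_lt with h4 | h4
      · exact mem_insert.mpr (Or.inl (Prod.ext h4.symm (by simp only; omega)))
      · exact mem_insert_of_mem (mem_image.mpr ⟨(u - 1, v),
          (mF _ _ _).mpr ⟨h.in_left h3.1 h4, by omega⟩, by simp⟩)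
    have e3 := (card_le_card e2).trans (card_insert_le _ _)
    have e4 := card_image_le (s := F j) (f := (· + (1, 0)))
    omega
  · intro j hj hj1
    obtain ⟨⟨a, b⟩, e⟩ := card_eq_one.mp (Nat.cast_eq_one.mp hj)
    have e2 : ∀ u v, In (m + 1) z (u, v) → u + v = j → u = a ∧ v = b := fun u v h3 h4 => by
      have := (mF j u v).mpr ⟨h3, h4⟩
      rwa [e, mem_singleton, Prod.mk.injEq] at this
    refine Nat.cast_le_one.mpr (card_le_one.mpr ?_)
    rintro ⟨u, v⟩ h3 ⟨u', v'⟩ h4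
    rw [mF] at h3 h4
    have p1 := h.in_pos h3.1
    have p2 := h.in_pos h4.1
    have q1 := fun h0 => e2 _ _ (h.in_left h3.1 h0)
    have q2 := fun h0 => e2 _ _ (h.in_down h3.1 h0)
    have q3 := fun h0 => e2 _ _ (h.in_left h4.1 h0)
    have q4 := fun h0 => e2 _ _ (h.in_down h4.1 h0)
    rw [Prod.mk.injEq]
    omega
  · have := fib fun _ => 1
    rw [← sΛ fun _ => 1] at this
    simpa using this.symm
  · rcases p.2.eq_or_lt with h3 | h3
    · subst h3
      have : x < r := not_le.mp fun h4 => h1 (h.in_row hc hr0 h4)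
      omega
    · rcases p.1.eq_or_lt with h4 | h4
      · subst h4
        have : y < r := not_le.mp fun h4 => h2 (h.in_rect hc le_rfl le_rfl hr0 h4)
        omega
      · have e2 := h.off_row (h.in_rect hc p.1 le_rfl le_rfl p.2) hc h3
        have e3 := h.swap.off_row (in_swap.mpr (h.in_row hc le_rfl p.1)) (in_swap.mpr hc) h4
        omega

end Pool.Agent.Lib.MP_0bb0c3_co
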