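import Pool.Agent.Lib.MP_0bb0c3_co.EdgeRow

/-! Coefficients of `(q - t) C(q, t)` in a strip outside the cone of vanishing. -/

open AddMonoidAlgebra Finset

namespace Pool.Agent.Lib.MP_0bb0c3_co

variable {K : Type} [Field K] {ι : BB →+* K}

section

variable (hι : Function.Injective ι) {m : ℕ} {κ : Type} {t : Finset κ} {z : κ → ℕ → G}
  (hv : ∀ T ∈ t, Val (m + 1) (z T))
  (hS : ∀ b : ℕ → ℕ, ∃ N, ∑ T ∈ t, (wt (chi ι) (m + 1) (z T) *
    ∏ i ∈ range (m + 1), chi ι (z T i)) * ∏ i ∈ range (m + 1), chi ι (z T i) ^ b i = ι N)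
  {r : ℤ} (hr : 2 * (m + 1 : ℕ) ≤ 3 * r)

include hι hv hS hr

theorem chain2 {p : G} (hp : (m + 1) * m + 10 ≤ 2 * (p.1 + 2 * p.2) + 2 * m) :
    Van ι (-lv (2 * (m + 1).factorial) (2 * ((m + 1).factorial + 0) + 1)) p
      (∑ T ∈ t, (wt (chi ι) (m + 1) (z T) * ∏ i ∈ range (m + 1), chi ι (z T i)) *
        ind (In (m + 1) (z T) (r, 0) ∧ In (m + 1) (z T) (0, 1)) (ι qt)) := by
  have hN : (0 : ℤ) < (m + 1).factorial := Nat.cast_pos.mpr (m + 1).factorial_pos
  have key : ∀ k : ℤ, k ≤ (m + 1).factorial - 1 → 0 ≤ k →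
      Van ι (-lv (2 * (m + 1).factorial) (2 * ((m + 1).factorial + k) + 1)) p
      (∑ T ∈ t, (wt (chi ι) (m + 1) (z T) * ∏ i ∈ range (m + 1), chi ι (z T i)) *
        ind (In (m + 1) (z T) (r, 0) ∧ In (m + 1) (z T) (0, 1)) (ι qt)) := by
    intro k hk
    induction k, hk using Int.leInductionDown with
    | base =>
      intro _
      refine Van.sum fun T hT => ?_
      by_cases h : In (m + 1) (z T) (r, 0) ∧ In (m + 1) (z T) (0, 1)
      · have h1 := (adj_grid (m + 1) (m + 1).factorial (Or.inr rfl)).scale (ψ' := -lv 1 2) hN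
          fun c => by
            simp only [AddMonoidHom.neg_apply, lv_apply]
            ring
        rw [show 2 * (((m + 1).factorial : ℤ) + (m + 1).factorial) + -1 =
          2 * ((m + 1).factorial + ((m + 1).factorial - 1)) + 1 by ring] at h1
        rw [ind_pos h]
        refine ((nice_wt hι h1 (hv T hT)).mul (Nice.poly _ (bdd_qt (c := 2) ?_ ?_))).van ?_
        · simp [lv_apply]
        · simp [lv_apply]
        · have h2 := Dg_le (lv 1 2) m (z T)
          have h3 := (hv T hT).tab.row_bound2 h.1 h.2 hr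
          simp only [lv_apply, one_mul, mul_one, mul_zero, add_zero, zero_add] at h2
          simp only [AddMonoidHom.neg_apply, lv_apply]
          omega
      · rw [ind_neg h, mul_zero]
        exact Van.zero _ _
    | pred k hk ih =>
      intro h0
      have h1 := adj_grid (m + 1) k (Or.inr rfl)
      rw [show 2 * (((m + 1).factorial : ℤ) + k) + -1 =
        2 * ((m + 1).factorial + (k - 1)) + 1 by ring] at h1
      refine wall hι (fun T hT => (hv T hT).tab) hS (adj_grid (m + 1) k (Or.inl rfl)) h1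
        (fun T hT => ?_) (ih (by omega))
      have h2 : ∀ T' ∈ t, (∀ i < m + 1, (-lv (m + 1).factorial ((m + 1).factorial + k))
          (z T i) = (-lv (m + 1).factorial ((m + 1).factorial + k)) (z T' i)) →
          (In (m + 1) (z T) (r, 0) ∧ In (m + 1) (z T) (0, 1) ↔
            In (m + 1) (z T') (r, 0) ∧ In (m + 1) (z T') (0, 1)) := by
        intro T' hT' e
        simp only [AddMonoidHom.neg_apply, lv_apply, neg_inj] at e
        have e1 := (hv T hT).tab
        have e2 := (hv T' hT').tab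
        exact ⟨fun h => ⟨e1.closed e2 hN (by omega) (by omega) e h.1 hr,
            e2.closed2 hN (by omega) (by omega) e h.2⟩,
          fun h => ⟨e2.closed e1 hN (by omega) (by omega) (fun i hi => (e i hi).symm) h.1 hr,
            e1.closed2 hN (by omega) (by omega) (fun i hi => (e i hi).symm) h.2⟩⟩
      by_cases h : In (m + 1) (z T) (r, 0) ∧ In (m + 1) (z T) (0, 1)
      · exact ⟨0, by omega, 0, by omega, 0, 0, qt, fun T' hT' e => by
          rw [ind_pos ((h2 T' hT' e).mp h), map_zero, zero_mul, add_zero, zero_add]⟩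
      · exact ⟨0, by omega, 0, by omega, 0, 0, 0, fun T' hT' e => by
          rw [ind_neg fun h' => h ((h2 T' hT' e).mpr h'), map_zero, zero_mul, add_zero, zero_add]⟩
  exact key 0 (by omega) le_rfl

open Classical in
theorem van_edge (hr' : 3 * r < 2 * (m + 1 : ℕ) + 3) (hm : 8 ≤ m) {M : ℤ}
    (hM : (m + 1) * m = 2 * M) {p : G} (h1 : M + 5 ≤ p.1 + 2 * p.2 + m)
    (h2 : M + 2 ≤ p.2 + 2 * p.1) (h3 : 2 * M + 3 ≤ 3 * (p.1 + p.2)) :
    ∃ φ, Van ι φ p (∑ T ∈ t, (wt (chi ι) (m + 1) (z T) *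
      ∏ i ∈ range (m + 1), chi ι (z T i)) * ι qt -
        ι (∑ T ∈ t, if In (m + 1) (z T) (r, 0) ∧ ¬In (m + 1) (z T) (0, 1) then
          single p (FR (M + 1) (m - 1) p) else 0)) := by
  have hN : (0 : ℤ) < (m + 1).factorial := Nat.cast_pos.mpr (m + 1).factorial_pos
  have hN' : (m + 1 : ℕ) ≤ (m + 1).factorial := Nat.self_le_factorial _
  have s1 : Sy (AddMonoidHom.id G) := Or.inl fun _ => rfl
  have s2 : Sy (AddEquiv.prodComm : G ≃+ G).toAddMonoidHom := Or.inr fun _ => rfl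
  have a1 := (adj_grid (m + 1) 0 (Or.inl rfl)).scale (ψ' := -lv 1 1) hN fun c => by
    simp only [AddMonoidHom.neg_apply, lv_apply]
    ring
  have a2 := (a1.comp s2).scale (ψ' := -lv 1 1) one_pos fun c => by
    show -(1 * c.2 + 1 * c.1) = 1 * -(1 * c.1 + 1 * c.2)
    ring
  have v1 := chain2 hι hv hS hr (p := p) (by omega)
  have v2 := chain hι hv hS hr s2 (p := p) (by
    show _ ≤ 2 * (p.2 + 2 * p.1)
    omega)
  have e2 : ∀ T, In (m + 1) (fun i => (AddEquiv.prodComm : G ≃+ G).toAddMonoidHom (z T i)) (r, 0) =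
      In (m + 1) (z T) (0, r) := fun T => propext in_swap
  simp only [e2] at v2
  have v3 := cross_one hι hv hS hr a2 a1 v2
  have v4 : Van ι _ p (∑ T ∈ t, (wt (chi ι) (m + 1) (z T) * ∏ i ∈ range (m + 1), chi ι (z T i)) *
      ind (¬In (m + 1) (z T) (r, 0) ∧ ¬In (m + 1) (z T) (0, r)) (ι qt)) := Van.sum fun T hT => by
    by_cases h : ¬In (m + 1) (z T) (r, 0) ∧ ¬In (m + 1) (z T) (0, r)
    · rw [ind_pos h]
      refine ((nice_wt hι a1 (hv T hT)).mul (Nice.poly _ (bdd_qt (c := 1) ?_ ?_))).van ?_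
      · simp [lv_apply]
      · simp [lv_apply]
      · have h4 := s1.Dg_le 1 1 m (z T)
        have h5 := (hv T hT).tab.mid_bound2 h.1 h.2 hr' (by omega) hm
        simp only [one_mul, AddMonoidHom.id_apply, AddMonoidHom.comp_id] at h4
        simp only [AddMonoidHom.neg_apply, lv_apply]
        omega
    · rw [ind_neg h, mul_zero]
      exact Van.zero _ _
  have v5 : Van ι (-lv (2 * (m + 1).factorial) (2 * ((m + 1).factorial + 0) + 1)) p
      (∑ T ∈ t, if In (m + 1) (z T) (r, 0) ∧ ¬In (m + 1) (z T) (0, 1) then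
        (wt (chi ι) (m + 1) (z T) * ∏ i ∈ range (m + 1), chi ι (z T i)) * ι qt -
          ι (single p (FR (M + 1) (m - 1) p)) else 0) := Van.sum fun T hT => by
    split_ifs with h
    · obtain ⟨k, rfl⟩ : ∃ k, m = k + 1 := ⟨m - 1, by omega⟩
      refine row_van (by omega) (by omega) (row_term hι ((hv T hT).tab.eq_row h.2) ?_) p
      push_cast at hM
      linarith
    · exact Van.zero _ _
  refine ⟨_, (congrArg (Van ι _ p) ?_).mp (((v1.add v3).add v4).add v5)⟩
  rw [← sum_add_distrib, ← sum_add_distrib, ← sum_add_distrib, map_sum, ← sum_sub_distrib]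
  refine sum_congr rfl fun T hT => ?_
  by_cases c1 : In (m + 1) (z T) (r, 0) <;> by_cases c2 : In (m + 1) (z T) (0, r)
  · exact ((hv T hT).tab.disj c1 c2 hr (by omega)).elim
  · rw [ind_neg c2, ind_neg fun h : ¬_ ∧ _ => h.1 c1]
    by_cases c3 : In (m + 1) (z T) (0, 1)
    · rw [ind_pos ⟨c1, c3⟩, if_neg fun h => h.2 c3, if_neg fun h => h.2 c3, map_zero]
      ring
    · rw [ind_neg fun h => c3 h.2, if_pos ⟨c1, c3⟩, if_pos ⟨c1, c3⟩]
      ring
  · rw [ind_neg fun h => c1 h.1, ind_pos c2, ind_neg fun h => h.2 c2, if_neg fun h => c1 h.1,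
      if_neg fun h => c1 h.1, map_zero]
    ring
  · rw [ind_neg fun h => c1 h.1, ind_neg c2, ind_pos ⟨c1, c2⟩, if_neg fun h => c1 h.1,
      if_neg fun h => c1 h.1, map_zero]
    ring

end

theorem Cat_edge {m : ℕ} (hm : 8 ≤ m) {M : ℤ} (hM : (m + 1) * m = 2 * M) : ∃ c : ℤ, ∀ a b : ℤ,
    M + 5 ≤ a + 2 * b + m → M + 2 ≤ b + 2 * a → 2 * M + 3 ≤ 3 * (a + b) →
      (Cat (m + 1)).coeff (a - 1, b) - (Cat (m + 1)).coeff (a, b - 1) =
        c * (PS (m - 1) (M + 1 - a - b) b).ncard := by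
  classical
  have hι := IsFractionRing.injective BB (FractionRing BB)
  obtain ⟨κ, t, z, hv, hs⟩ := syt (chr_chi hι) (m + 1)
  have hS : ∀ b : ℕ → ℕ, ∑ T ∈ t, (wt (chi (algebraMap BB (FractionRing BB))) (m + 1) (z T) *
      ∏ i ∈ range (m + 1), chi (algebraMap BB (FractionRing BB)) (z T i)) *
      ∏ i ∈ range (m + 1), chi (algebraMap BB (FractionRing BB)) (z T i) ^ b i =
      algebraMap BB (FractionRing BB) (SK (single (1, 0) 1) (single (0, 1) 1) (m + 1)
        fun i => if i < m + 1 then b i + 1 else 0) := by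
    intro b
    rw [SK_map, ← chi, ← chi, hs (fun i => if i < m + 1 then b i + 1 else 0)
      ⟨fun i hi => by simp only [if_pos hi]; omega, fun i hi => if_neg (by omega)⟩
      (if_neg (lt_irrefl _))]
    refine sum_congr rfl fun T _ => ?_
    rw [mul_assoc, ← prod_mul_distrib, zpw]
    congr 1
    refine prod_congr rfl fun i hi => ?_
    rw [if_pos (mem_range.mp hi), ← pow_succ']
    rfl
  refine ⟨∑ T ∈ t, if In (m + 1) (z T) ((2 * (m + 1 : ℕ) + 2) / 3, 0) ∧ ¬In (m + 1) (z T) (0, 1)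
    then 1 else 0, fun a b h1 h2 h3 => ?_⟩
  obtain ⟨φ, h4⟩ := van_edge hι hv (fun b => ⟨_, hS b⟩) (r := (2 * (m + 1 : ℕ) + 2) / 3)
    (by omega) (by omega) hm hM (p := (a, b)) h1 h2 h3
  have h5 := hS 0
  simp only [Pi.zero_apply, pow_zero, prod_const_one, mul_one, Nat.cast_zero, zero_add] at h5
  rw [← sum_mul, h5, ← map_mul, mul_comm, ← map_sub] at h4
  have h6 := h4.poly hι
  rw [coeff_sub, Finsupp.sub_apply, ← act_coeff, qt, act_sub, Pi.sub_apply, act_single, act_single,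
    one_mul, one_mul, Prod.mk_sub_mk, Prod.mk_sub_mk, sub_zero, sub_zero, sub_eq_zero,
    coeff_sum, Finsupp.finsetSum_apply] at h6
  refine h6.trans ?_
  rw [sum_mul]
  refine sum_congr rfl fun T _ => ?_
  split_ifs
  · rw [coeff_single, Finsupp.single_eq_same, one_mul, FR]
  · rw [zero_mul]
    rfl

theorem Cat_neg (m : ℕ) (a : ℤ) : (Cat (m + 1)).coeff (a, -1) = 0 := by
  rw [Cat_eq, coeff_sum, Finsupp.finsetSum_apply]
  refine sum_eq_zero fun c hc => ?_
  rw [coeff_single, Finsupp.single_eq_of_ne]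
  intro e
  have h1 : 0 ≤ ∑ j ∈ range m, c j := sum_nonneg fun j _ => (mem_Dy.mp hc).1 j
  have h2 := (Prod.ext_iff.mp e).2
  simp only [dg_apply] at h2
  omega

end Pool.Agent.Lib.MP_0bb0c3_co
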