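import Pool.Agent.Lib.MP_0bb0c3_co.Main
import Pool.Agent.Lib.MP_0bb0c3_co.Edge

/-! The contribution of the one-row tableau: a generating function of partitions. -/

open AddMonoidAlgebra Finset

namespace Pool.Agent.Lib.MP_0bb0c3_co

/-- Multisets of `y` positive integers at most `K` with sum `d`. -/
def PS (K : ℕ) (d y : ℤ) : Set (Multiset ℕ) :=
  {s | (∀ i ∈ s, 0 < i ∧ i ≤ K) ∧ (s.sum : ℤ) = d ∧ (s.card : ℤ) = y}

theorem PS_finite (K : ℕ) (d y : ℤ) : (PS K d y).Finite :=
  (Set.finite_range fun π : Nat.Partition d.toNat => π.parts).subset fun s hs =>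
    ⟨⟨s, fun hi => (hs.1 _ hi).1, by have := hs.2.1; omega⟩, rfl⟩

theorem PS_le {K : ℕ} {d y : ℤ} {s : Multiset ℕ} (hs : s ∈ PS K d y) : 0 ≤ y ∧ y ≤ d := by
  have h1 := Multiset.card_nsmul_le_sum (s := s) (a := 1) fun i hi => (hs.1 i hi).1
  have h2 := hs.2.1
  have h3 := hs.2.2
  rw [smul_eq_mul, mul_one] at h1
  omega

theorem PS_zero (d y : ℤ) : ((PS 0 d y).ncard : ℤ) = if d = 0 ∧ y = 0 then 1 else 0 := by
  have h : ∀ s ∈ PS 0 d y, s = 0 := fun s hs =>
    Multiset.eq_zero_of_forall_notMem fun i hi => by have := hs.1 i hi; omega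
  split_ifs with h1
  · obtain ⟨rfl, rfl⟩ := h1
    rw [show PS 0 0 0 = {0} from Set.eq_singleton_iff_unique_mem.mpr ⟨by simp [PS], h⟩]
    simp
  · rw [show PS 0 d y = ∅ from Set.eq_empty_of_forall_notMem fun s hs => h1 (by
      have e := h s hs
      subst e
      exact ⟨hs.2.1.symm, hs.2.2.symm⟩)]
    simp

theorem PS_succ (K : ℕ) (d y : ℤ) :
    (PS (K + 1) d y).ncard = (PS K d y).ncard + (PS (K + 1) (d - (K + 1)) (y - 1)).ncard := by
  have h1 : PS (K + 1) d y =
      PS K d y ∪ Multiset.cons (K + 1) '' PS (K + 1) (d - (K + 1)) (y - 1) := by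
    ext s
    constructor
    · rintro ⟨h1, h2, h3⟩
      by_cases h : K + 1 ∈ s
      · obtain ⟨s', rfl⟩ := Multiset.exists_cons_of_mem h
        rw [Multiset.sum_cons] at h2
        rw [Multiset.card_cons] at h3
        exact Or.inr ⟨s', ⟨fun i hi => h1 i (Multiset.mem_cons_of_mem hi), by omega, by omega⟩, rfl⟩
      · refine Or.inl ⟨fun i hi => ?_, h2, h3⟩
        have := h1 i hi
        have : i ≠ K + 1 := fun e => h (e ▸ hi)
        omega
    · rintro (⟨h1, h2, h3⟩ | ⟨s', ⟨h1, h2, h3⟩, rfl⟩)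
      · exact ⟨fun i hi => by have := h1 i hi; omega, h2, h3⟩
      · refine ⟨fun i hi => ?_, by rw [Multiset.sum_cons]; omega,
          by rw [Multiset.card_cons]; omega⟩
        rcases Multiset.mem_cons.mp hi with rfl | hi
        exacts [by omega, h1 i hi]
  rw [h1, Set.ncard_union_eq (Set.disjoint_left.mpr ?_) (PS_finite _ _ _)
    ((PS_finite _ _ _).image _),
    Set.ncard_image_of_injective _ fun a b e => (Multiset.cons_inj_right _).mp e]
  rintro s hs ⟨s', -, rfl⟩
  have := hs.1 _ (Multiset.mem_cons_self _ _)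
  omega

theorem PS_part {K d y : ℕ} (h : d < K + y) :
    (PS K d y).ncard = Fintype.card {π : Nat.Partition d // π.parts.card = y} := by
  have h1 : PS K d y = (fun π : Nat.Partition d => π.parts) '' {π | π.parts.card = y} := by
    ext s
    constructor
    · rintro ⟨h1, h2, h3⟩
      exact ⟨⟨s, fun hi => (h1 _ hi).1, Nat.cast_injective h2⟩, Nat.cast_injective h3, rfl⟩
    · rintro ⟨π, h1, rfl⟩
      refine ⟨fun i hi => ⟨π.parts_pos hi, ?_⟩, congrArg _ π.parts_sum, congrArg _ h1⟩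
      obtain ⟨s, e⟩ : ∃ s, π.parts = i ::ₘ s := Multiset.exists_cons_of_mem hi
      have h2 := π.parts_sum
      have h3 := Multiset.card_nsmul_le_sum (s := s) (a := 1) fun j hj =>
        π.parts_pos (e ▸ Multiset.mem_cons_of_mem hj)
      rw [Set.mem_ofPred_eq, e, Multiset.card_cons] at h1
      rw [e, Multiset.sum_cons] at h2
      rw [smul_eq_mul, mul_one] at h3
      omega
  rw [h1, Set.ncard_image_of_injective _ fun a b e => Nat.Partition.ext e, ← Nat.card_coe_set_eq,
    Nat.card_eq_fintype_card]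
  rfl

/-- The denominator of the row term. -/
noncomputable def DR (K : ℕ) : BB := ∏ k ∈ range K, binom 1 ((-(k + 2 : ℤ), 1) : G)

/-- The expansion of the row term. -/
noncomputable def FR (L : ℤ) (K : ℕ) (p : G) : ℤ := (PS K (L - p.1 - p.2) p.2).ncard

theorem act_DR (L : ℤ) (K : ℕ) : act (DR K) (FR L K) = ⇑(single (L, 0) 1 : BB).coeff := by
  induction K with
  | zero =>
    funext p
    rw [DR, prod_range_zero, act_one, FR, PS_zero, coeff_single, Finsupp.single_apply]
    refine if_congr ?_ rfl rfl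
    rw [Prod.ext_iff]
    simp only
    omega
  | succ K ih =>
    rw [DR, prod_range_succ, act_mul, ← DR, ← ih]
    congr 1
    funext p
    rw [act_binom, one_mul, FR, FR, FR, PS_succ, Prod.fst_sub, Prod.snd_sub,
      show L - (p.1 - (-(K + 2 : ℤ), (1 : ℤ)).1) - (p.2 - (-(K + 2 : ℤ), (1 : ℤ)).2) =
        L - p.1 - p.2 - (K + 1) by simp only; ring]
    push_cast
    ring

variable {K : Type} [Field K] {ι : BB →+* K}

theorem rc_row {χ : G → K} {n k : ℕ} {z : ℕ → G} (hz : ∀ i < n, z i = ((i : ℤ), 0))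
    (hk : k + 1 < n) :
    rc χ (k + 1) z (z (k + 1)) = (1 - χ (-(k + 1 : ℤ), 1))⁻¹ := by
  have h1 : ∀ i < k + 1, z i = ((i : ℤ), 0) := fun i hi => hz i (by omega)
  have h2 : Dm (k + 1) z = Nm (k + 1) z + {(((k + 1 : ℕ) : ℤ), 0), (0, 1)} := by
    rw [Dm_congr h1, Nm_congr h1, Dm, Nm, Nat.add_sub_cancel]
    clear hk h1
    induction k with
    | zero => decide
    | succ k ih =>
      simp only [range_val, Multiset.range_succ, Multiset.insert_eq_cons,
        ← Multiset.singleton_add, Multiset.map_add, Multiset.map_singleton, Prod.mk_add_mk,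
        add_zero, zero_add, Nat.cast_add, Nat.cast_one] at ih ⊢
      have := congrArg (· + ({((k : ℤ) + 1 + 1, (0 : ℤ))} + {((k : ℤ) + 1, (1 : ℤ))})) ih
      refine Eq.trans (by abel) (this.trans ?_)
      abel
  have h3 : Nm (k + 1) z - Dm (k + 1) z = 0 := by
    rw [h2]
    exact tsub_eq_zero_iff_le.mpr (Multiset.le_add_right _ _)
  have h4 : (pol (k + 1) z).erase (z (k + 1)) = {(0, 1)} := by
    rw [pol, h2, add_tsub_cancel_left, hz _ hk, Multiset.insert_eq_cons, Multiset.toFinset_cons,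
      Multiset.toFinset_singleton, erase_insert (by simp)]
  rw [rc, h3, h4, prod_singleton, hz _ hk, Multiset.map_zero, Multiset.prod_zero, one_div,
    Prod.mk_sub_mk, zero_sub, sub_zero, Nat.cast_succ]

theorem row_term (hι : Function.Injective ι) {m : ℕ} {z : ℕ → G}
    (hz : ∀ i < m + 2, z i = ((i : ℤ), 0)) {M : ℤ} (hM : (m + 2) * (m + 1) = 2 * M) :
    (wt (chi ι) (m + 2) z * ∏ i ∈ range (m + 2), chi ι (z i)) * ι qt * ι (DR m) =
      ι (single (M + 1, 0) 1) := by
  have hχ := chr_chi hι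
  have h0 : rc (chi ι) 0 z (z 0) = 1 := by
    have : pol 0 z = {0} := by simp [pol, Dm, Nm]
    rw [rc, this, show z 0 = 0 from hz 0 (by omega)]
    simp [Nm]
  have h1 : ∀ n : ℕ, ∀ M : ℤ, (n + 1) * n = 2 * M →
      ∏ i ∈ range (n + 1), chi ι ((i : ℤ), 0) = chi ι (M, 0) := by
    intro n
    induction n with
    | zero =>
      intro M hM
      rw [prod_range_one, show M = 0 by omega]
      rfl
    | succ n ih =>
      intro M hM
      rw [prod_range_succ, ih (M - (n + 1)) (by push_cast at hM; linarith), ← hχ.add]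
      simp
  have h2 : ι qt = chi ι (1, 0) * ι (binom 1 (-1, 1)) := by
    rw [qt, map_sub, iota_binom, mul_sub, mul_one, ← hχ.add]
    rfl
  have h3 : ∀ k : ℤ, (1 - chi ι (k, 1))⁻¹ * ι (binom 1 (k, 1)) = 1 := fun k =>
    (inv_binom hι (by simp)).1.trans (map_one ι)
  have h4 : wt (chi ι) (m + 2) z =
      (∏ k ∈ range m, (1 - chi ι (-(k + 2 : ℤ), 1))⁻¹) * (1 - chi ι (-1, 1))⁻¹ := by
    rw [wt, prod_range_succ', h0, mul_one,
      prod_congr rfl fun k hk => rc_row hz (by have := mem_range.mp hk; omega), prod_range_succ']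
    refine congrArg₂ (· * ·) (prod_congr rfl fun k _ => ?_) rfl
    rw [Nat.cast_succ, add_assoc]
    rfl
  have h5 : (∏ k ∈ range m, (1 - chi ι (-(k + 2 : ℤ), 1))⁻¹) * ι (DR m) = 1 := by
    rw [DR, map_prod, ← prod_mul_distrib]
    exact prod_eq_one fun k _ => h3 _
  have h6 : chi ι (M + 1, 0) = chi ι (M, 0) * chi ι (1, 0) := by
    rw [← hχ.add]
    rfl
  rw [h4, prod_congr rfl fun i hi => congrArg (chi ι) (hz i (mem_range.mp hi)),
    h1 (m + 1) M (by push_cast; linarith), h2, ← chi, h6]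
  linear_combination (chi ι (M, 0) * chi ι (1, 0) *
    ((∏ k ∈ range m, (1 - chi ι (-(k + 2 : ℤ), 1))⁻¹) * ι (DR m))) * h3 (-1) +
      chi ι (M, 0) * chi ι (1, 0) * h5

theorem row_van {α β : ℤ} (ha : 0 < α) (hb : β < 2 * α) {L : ℤ} {m : ℕ} {R : K}
    (hR : R * ι (DR m) = ι (single (L, 0) 1)) (p : G) :
    Van ι (-lv α β) p (R - ι (single p (FR L m p))) := by
  obtain ⟨c, hc⟩ := exists_bdd (-lv α β) (single p (FR L m p) : BB)
  have hb : Bdd (-lv α β) (-(α * L)) (FR L m) := by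
    intro u hu
    rw [FR, Nat.cast_eq_zero, Set.ncard_eq_zero (PS_finite _ _ _)]
    refine Set.eq_empty_of_forall_notMem fun s hs => ?_
    have h1 := PS_le hs
    rw [AddMonoidHom.neg_apply, lv_apply] at hu
    nlinarith [mul_nonneg ha.le (sub_nonneg.mpr h1.2), mul_nonneg h1.1 (sub_nonneg.mpr hb.le)]
  refine ⟨DR m, prod_mem fun k _ => binom_mem _ ?_, single (L, 0) 1 - DR m * single p (FR L m p),
    FR L m - (single p (FR L m p) : BB).coeff, ?_,
    ⟨⟨_, (hb.mono (min_le_left _ c)).sub (hc.mono (min_le_right _ c))⟩, ?_⟩, ?_⟩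
  · simp only [Set.mem_ofPred_eq, AddMonoidHom.neg_apply, lv_apply]
    nlinarith [mul_nonneg ha.le (Nat.cast_nonneg (α := ℤ) k)]
  · rw [sub_mul, hR, map_sub, map_mul, mul_comm]
  · rw [map_sub, act_DR, act_coeff, coeff_sub, Finsupp.coe_sub]
  · rw [Pi.sub_apply, coeff_single, Finsupp.single_eq_same, sub_self]

end Pool.Agent.Lib.MP_0bb0c3_co
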