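import Pool.Agent.Lib.MP_0bb0c3_co.Series

/-! Demazure-Lusztig operators on Laurent polynomials. -/

open AddMonoidAlgebra

namespace Pool.Agent.Lib.MP_0bb0c3_co

/-- Exponent vectors. -/
abbrev Lat : Type := ℕ → ℤ

/-- Laurent polynomials. -/
abbrev LP (R : Type) [Field R] : Type := AddMonoidAlgebra R Lat

/-- Unit vectors. -/
def ev (j : ℕ) : Lat := Pi.single j 1

theorem ev_apply (j k : ℕ) : ev j k = if k = j then 1 else 0 := by
  rw [ev, Pi.single_apply]

/-- Exchange of the coordinates `i` and `i + 1`. -/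
def swp (i : ℕ) : Lat ≃+ Lat where
  toFun b := b ∘ Equiv.swap i (i + 1)
  invFun b := b ∘ Equiv.swap i (i + 1)
  left_inv b := by
    funext j
    simp
  right_inv b := by
    funext j
    simp
  map_add' _ _ := rfl

theorem swp_apply (i : ℕ) (b : Lat) (j : ℕ) :
    swp i b j = if j = i then b (i + 1) else if j = i + 1 then b i else b j := by
  show b (Equiv.swap i (i + 1) j) = _
  rw [Equiv.swap_apply_def]
  split_ifs <;> rfl

theorem swp_left (i : ℕ) (b : Lat) : swp i b i = b (i + 1) := by simp [swp_apply]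

theorem swp_right (i : ℕ) (b : Lat) : swp i b (i + 1) = b i := by simp [swp_apply]

theorem swp_of_ne {i j : ℕ} (b : Lat) (h : j ≠ i) (h' : j ≠ i + 1) : swp i b j = b j := by
  simp [swp_apply, h, h']

theorem swp_swp (i : ℕ) (b : Lat) : swp i (swp i b) = b := (swp i).left_inv b

theorem swp_symm (i : ℕ) : (swp i).symm = swp i := rfl

theorem swp_of_eq {i : ℕ} {b : Lat} (h : b i = b (i + 1)) : swp i b = b := by
  funext j
  rw [swp_apply]
  split_ifs with h1 h2
  · rw [h1, h]
  · rw [h2, h]
  · rfl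

theorem swp_comm {i j : ℕ} (h : i + 1 < j) (b : Lat) : swp i (swp j b) = swp j (swp i b) := by
  funext k
  simp only [swp_apply]
  split_ifs <;> first | rfl | omega

theorem swp_braid (i : ℕ) (b : Lat) :
    swp i (swp (i + 1) (swp i b)) = swp (i + 1) (swp i (swp (i + 1) b)) := by
  funext k
  simp only [swp_apply]
  split_ifs <;> first | rfl | omega

theorem swp_ev_left (i : ℕ) : swp i (ev i) = ev (i + 1) := by
  funext k
  simp only [swp_apply, ev_apply]
  split_ifs <;> first | rfl | omega

theorem swp_ev_right (i : ℕ) : swp i (ev (i + 1)) = ev i := by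
  rw [← swp_ev_left, swp_swp]

theorem swp_ev_of_ne {i j : ℕ} (h : j ≠ i) (h' : j ≠ i + 1) : swp i (ev j) = ev j := by
  apply swp_of_eq
  rw [ev_apply, ev_apply, if_neg h.symm, if_neg h'.symm]

variable {R : Type} [Field R]

/-- Monomials. -/
noncomputable def mon (b : Lat) : LP R := single b 1

/-- Variables. -/
noncomputable def X (j : ℕ) : LP R := mon (ev j)

/-- Constants. -/
noncomputable def C (a : R) : LP R := algebraMap R (LP R) a

/-- Exchange of two consecutive variables. -/
noncomputable def sw (i : ℕ) : LP R ≃ₐ[R] LP R := domCongr R R (swp i)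

theorem mon_add (b c : Lat) : (mon (b + c) : LP R) = mon b * mon c := by
  rw [mon, mon, mon, single_mul_single, mul_one]

theorem mon_zero : (mon 0 : LP R) = 1 := rfl

theorem mon_nsmul (k : ℕ) (b : Lat) : (mon (k • b) : LP R) = mon b ^ k := by
  rw [mon, mon, single_pow, one_pow]

theorem mon_ne_zero (b : Lat) : (mon b : LP R) ≠ 0 := single_ne_zero.mpr one_ne_zero

theorem C_mul (a : R) (f : LP R) : C a * f = a • f := (Algebra.smul_def a f).symm

theorem C_ne_zero {a : R} (ha : a ≠ 0) : (C a : LP R) ≠ 0 := by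
  intro h
  have := C_mul a (1 : LP R)
  rw [h, zero_mul] at this
  exact one_ne_zero ((smul_eq_zero.mp this.symm).resolve_left ha)

theorem single_eq_smul (b : Lat) (r : R) : (single b r : LP R) = r • mon b := by
  rw [mon, smul_single, smul_eq_mul, mul_one]

theorem sw_mon (i : ℕ) (b : Lat) : sw i (mon b : LP R) = mon (swp i b) := domCongr_single _ _ _

theorem sw_C (i : ℕ) (a : R) : sw i (C a) = C a := (sw i).commutes a

theorem coeff_sw (i : ℕ) (f : LP R) (b : Lat) : (sw i f).coeff b = f.coeff (swp i b) :=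
  coeff_domCongr _ _ _

theorem lp_ext {f g : LP R} (h : ∀ b, f.coeff b = g.coeff b) : f = g :=
  coeff_injective (Finsupp.ext h)

theorem sw_sw (i : ℕ) (f : LP R) : sw i (sw i f) = f :=
  lp_ext fun b => by rw [coeff_sw, coeff_sw, swp_swp]

theorem sw_comm {i j : ℕ} (h : i + 1 < j) (f : LP R) : sw i (sw j f) = sw j (sw i f) :=
  lp_ext fun b => by rw [coeff_sw, coeff_sw, coeff_sw, coeff_sw, swp_comm h]

theorem sw_braid (i : ℕ) (f : LP R) :
    sw i (sw (i + 1) (sw i f)) = sw (i + 1) (sw i (sw (i + 1) f)) :=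
  lp_ext fun b => by simp only [coeff_sw, swp_braid]

theorem sw_X_left (i : ℕ) : sw i (X i : LP R) = X (i + 1) := by
  rw [X, sw_mon, swp_ev_left, X]

theorem sw_X_right (i : ℕ) : sw i (X (i + 1) : LP R) = X i := by
  rw [X, sw_mon, swp_ev_right, X]

theorem sw_X_of_ne {i j : ℕ} (h : j ≠ i) (h' : j ≠ i + 1) : sw i (X j : LP R) = X j := by
  rw [X, sw_mon, swp_ev_of_ne h h']

theorem ev_ne {i j : ℕ} (h : i ≠ j) : ev i ≠ ev j := by
  intro he
  have := congrFun he i
  rw [ev_apply, ev_apply, if_pos rfl, if_neg h] at this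
  exact one_ne_zero this

theorem CX_sub_X_ne (a : R) {i j : ℕ} (h : i ≠ j) : (C a * X i - X j : LP R) ≠ 0 := by
  intro h0
  have := congrArg (fun f : LP R => f.coeff (ev j)) h0
  simp only [C_mul, coeff_sub, coeff_smul, X, mon, coeff_single, Finsupp.coe_sub, Pi.sub_apply,
    Finsupp.smul_apply, Finsupp.single_eq_same, Finsupp.single_eq_of_ne (ev_ne h).symm,
    coeff_zero, Finsupp.coe_zero, Pi.zero_apply] at this
  simp at this

theorem X_sub_X_ne {i j : ℕ} (h : i ≠ j) : (X i - X j : LP R) ≠ 0 := by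
  have := CX_sub_X_ne (1 : R) h
  rwa [C, map_one, one_mul] at this

theorem mon_split_left {i : ℕ} {b : Lat} {k : ℕ} (h : b i = b (i + 1) + k) :
    ∃ c : Lat, c i = c (i + 1) ∧ b = c + k • ev i ∧ swp i b = c + k • ev (i + 1) := by
  have h1 : (b - k • ev i) i = (b - k • ev i) (i + 1) := by
    simp [ev_apply, h]
  refine ⟨b - k • ev i, h1, by abel, ?_⟩
  have h2 : b = b - k • ev i + k • ev i := by abel
  rw [h2, map_add, swp_of_eq h1, map_nsmul, swp_ev_left]
  abel

theorem exists_dd (i : ℕ) (f : LP R) : ∃ g, f - sw i f = (X i - X (i + 1)) * g := by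
  have key : ∀ b : Lat, b (i + 1) ≤ b i →
      (X i - X (i + 1) : LP R) ∣ mon b - mon (swp i b) := by
    intro b hb
    obtain ⟨k, hk⟩ : ∃ k : ℕ, b i = b (i + 1) + k := ⟨(b i - b (i + 1)).toNat, by omega⟩
    obtain ⟨c, -, h1, h2⟩ := mon_split_left hk
    rw [h2, h1, mon_add, mon_add, mon_nsmul, mon_nsmul, ← mul_sub]
    exact Dvd.dvd.mul_left (sub_dvd_pow_sub_pow _ _ _) _
  show (X i - X (i + 1) : LP R) ∣ f - sw i f
  induction f using AddMonoidAlgebra.induction_linear with
  | zero => simp
  | add x y hx hy =>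
    have : x + y - sw i (x + y) = (x - sw i x) + (y - sw i y) := by
      rw [map_add]
      ring
    rw [this]
    exact dvd_add hx hy
  | single b r =>
    rw [single_eq_smul, map_smul, ← smul_sub, ← C_mul, sw_mon]
    refine Dvd.dvd.mul_left ?_ _
    rcases le_total (b (i + 1)) (b i) with hb | hb
    · exact key b hb
    · have := key (swp i b) (by rwa [swp_left, swp_right])
      rw [swp_swp] at this
      exact dvd_sub_comm.mp this

/-- Divided difference. -/
noncomputable def dd (i : ℕ) (f : LP R) : LP R := Classical.choose (exists_dd i f)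

theorem dd_spec (i : ℕ) (f : LP R) : (X i - X (i + 1)) * dd i f = f - sw i f :=
  (Classical.choose_spec (exists_dd i f)).symm

theorem XX_ne (i : ℕ) : (X i - X (i + 1) : LP R) ≠ 0 := X_sub_X_ne (by omega)

/-- The Demazure-Lusztig operator. -/
noncomputable def T (q : R) (i : ℕ) : LP R →ₗ[R] LP R where
  toFun f := C q * f + (X (i + 1) - C q * X i) * dd i f
  map_add' f g := by
    apply mul_left_cancel₀ (XX_ne i)
    have h1 := dd_spec i f
    have h2 := dd_spec i g
    have h3 := dd_spec i (f + g)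
    rw [map_add] at h3
    linear_combination (X (i + 1) - C q * X i) * (h3 - h1 - h2)
  map_smul' a f := by
    apply mul_left_cancel₀ (XX_ne i)
    have h1 := dd_spec i f
    have h3 := dd_spec i (a • f)
    rw [map_smul, ← C_mul, ← C_mul] at h3
    rw [RingHom.id_apply, ← C_mul, ← C_mul]
    linear_combination (X (i + 1) - C q * X i) * (h3 - C a * h1)

theorem T_apply (q : R) (i : ℕ) (f : LP R) :
    T q i f = C q * f + (X (i + 1) - C q * X i) * dd i f := rfl

theorem T_spec (q : R) (i : ℕ) (f : LP R) :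
    (X i - X (i + 1)) * T q i f =
      (1 - C q) * X (i + 1) * f + (C q * X i - X (i + 1)) * sw i f := by
  rw [T_apply]
  linear_combination (X (i + 1) - C q * X i) * dd_spec i f

theorem T_eq_of {q : R} {i : ℕ} {f g : LP R} (h : (X i - X (i + 1)) * g =
    (1 - C q) * X (i + 1) * f + (C q * X i - X (i + 1)) * sw i f) : T q i f = g :=
  mul_left_cancel₀ (XX_ne i) ((T_spec q i f).trans h.symm)

theorem T_mul_symm (q : R) {i : ℕ} {g : LP R} (hg : sw i g = g) (f : LP R) :
    T q i (g * f) = g * T q i f := by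
  apply T_eq_of
  rw [map_mul, hg]
  linear_combination g * T_spec q i f

theorem T_C_mul (q : R) (i : ℕ) (a : R) (f : LP R) : T q i (C a * f) = C a * T q i f :=
  T_mul_symm q (sw_C i a) f

theorem T_of_symm (q : R) {i : ℕ} {f : LP R} (hf : sw i f = f) : T q i f = C q * f := by
  apply T_eq_of
  rw [hf]
  ring

theorem symm_of_T {q : R} {i : ℕ} {f : LP R} (hf : T q i f = C q * f) : sw i f = f := by
  have h := T_spec q i f
  rw [hf] at h
  apply mul_left_cancel₀ (CX_sub_X_ne q (show i ≠ i + 1 by omega))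
  linear_combination -h

theorem T_quad (q : R) (i : ℕ) (f : LP R) :
    T q i (T q i f) = C q * f + (C q - 1) * T q i f := by
  apply T_eq_of
  have h1 := T_spec q i f
  have h2 := congrArg (sw i) h1
  simp only [map_mul, map_add, map_sub, map_one, sw_C, sw_X_left, sw_X_right, sw_sw] at h2
  apply mul_left_cancel₀ (XX_ne i)
  linear_combination (C q - 1) * X i * h1 + (C q * X i - X (i + 1)) * h2

theorem T_injective {q : R} (hq : q ≠ 0) (i : ℕ) : Function.Injective (T q i) := by
  refine (injective_iff_map_eq_zero (T q i)).mpr fun f hf => ?_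
  have := T_quad q i f
  rw [hf, map_zero, mul_zero, add_zero] at this
  exact (mul_eq_zero.mp this.symm).resolve_left (C_ne_zero hq)

theorem T_X_T (q : R) (i : ℕ) (f : LP R) : T q i (X i * T q i f) = C q * X (i + 1) * f := by
  apply T_eq_of
  have h1 := T_spec q i f
  have h2 := congrArg (sw i) h1
  simp only [map_mul, map_add, map_sub, map_one, sw_C, sw_X_left, sw_X_right, sw_sw] at h2
  rw [map_mul, sw_X_left]
  apply mul_left_cancel₀ (XX_ne i)
  linear_combination (C q - 1) * X i * X (i + 1) * h1 +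
    (C q * X i - X (i + 1)) * X (i + 1) * h2

theorem T_comm (q : R) {i j : ℕ} (h : i + 1 < j) (f : LP R) :
    T q i (T q j f) = T q j (T q i f) := by
  have h1 := T_spec q j f
  have h2 := congrArg (sw i) h1
  have h3 := T_spec q i f
  have h4 := congrArg (sw j) h3
  simp only [map_mul, map_add, map_sub, map_one, sw_C,
    sw_X_of_ne (R := R) (i := i) (j := j) (by omega) (by omega),
    sw_X_of_ne (R := R) (i := i) (j := j + 1) (by omega) (by omega)] at h2
  simp only [map_mul, map_add, map_sub, map_one, sw_C,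
    sw_X_of_ne (R := R) (i := j) (j := i) (by omega) (by omega),
    sw_X_of_ne (R := R) (i := j) (j := i + 1) (by omega) (by omega), ← sw_comm h] at h4
  have h5 := T_spec q j (T q i f)
  apply T_eq_of
  apply mul_left_cancel₀ (XX_ne j)
  linear_combination (X i - X (i + 1)) * h5 + (1 - C q) * X (j + 1) * h3 +
    (C q * X j - X (j + 1)) * h4 - (1 - C q) * X (i + 1) * h1 - (C q * X i - X (i + 1)) * h2

theorem braid_aux {K : Type} [CommRing K] [IsDomain K] {q a b c f fs fu fus fsu fw g1 sg1 ug1 sug1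
    g2 sg2 g3 h1 uh1 sh1 ush1 h2 uh2 h3 : K} (hab : a - b ≠ 0) (hbc : b - c ≠ 0)
    (hac : a - c ≠ 0)
    (e1 : (a - b) * g1 = (1 - q) * b * f + (q * a - b) * fs)
    (e2 : (b - a) * sg1 = (1 - q) * a * fs + (q * b - a) * f)
    (e3 : (a - c) * ug1 = (1 - q) * c * fu + (q * a - c) * fus)
    (e4 : (b - c) * sug1 = (1 - q) * c * fsu + (q * b - c) * fw)
    (e5 : (b - c) * g2 = (1 - q) * c * g1 + (q * b - c) * ug1)
    (e6 : (a - c) * sg2 = (1 - q) * c * sg1 + (q * a - c) * sug1)
    (e7 : (a - b) * g3 = (1 - q) * b * g2 + (q * a - b) * sg2)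
    (d1 : (b - c) * h1 = (1 - q) * c * f + (q * b - c) * fu)
    (d2 : (c - b) * uh1 = (1 - q) * b * fu + (q * c - b) * f)
    (d3 : (a - c) * sh1 = (1 - q) * c * fs + (q * a - c) * fsu)
    (d4 : (a - b) * ush1 = (1 - q) * b * fus + (q * a - b) * fw)
    (d5 : (a - b) * h2 = (1 - q) * b * h1 + (q * a - b) * sh1)
    (d6 : (a - c) * uh2 = (1 - q) * c * uh1 + (q * a - c) * ush1)
    (d7 : (b - c) * h3 = (1 - q) * c * h2 + (q * b - c) * uh2) : g3 = h3 := by
  have hD : (a - b) * (b - c) * (a - c) ≠ 0 := mul_ne_zero (mul_ne_zero hab hbc) hac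
  have eg : (a - b) * (b - c) * (a - c) * g3 =
      (1 - q) * b * (a - c) * ((1 - q) * c * g1 + (q * b - c) * ug1) +
        (q * a - b) * (b - c) * ((1 - q) * c * sg1 + (q * a - c) * sug1) := by
    linear_combination (b - c) * (a - c) * e7 + (1 - q) * b * (a - c) * e5 +
      (q * a - b) * (b - c) * e6
  have eh : (a - b) * (b - c) * (a - c) * h3 =
      (1 - q) * c * (a - c) * ((1 - q) * b * h1 + (q * a - b) * sh1) +
        (q * b - c) * (a - b) * ((1 - q) * c * uh1 + (q * a - c) * ush1) := by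
    linear_combination (a - b) * (a - c) * d7 + (1 - q) * c * (a - c) * d5 +
      (q * b - c) * (a - b) * d6
  apply mul_left_cancel₀ hD
  apply mul_left_cancel₀ (mul_ne_zero hab hbc)
  rw [eg, eh]
  linear_combination (1 - q) ^ 2 * b * c * (a - c) * (b - c) * e1 +
    (1 - q) * b * (q * b - c) * (a - b) * (b - c) * e3 -
    (q * a - b) * (1 - q) * c * (b - c) ^ 2 * e2 +
    (q * a - b) * (q * a - c) * (a - b) * (b - c) * e4 -
    (1 - q) ^ 2 * b * c * (a - c) * (a - b) * d1 -
    (1 - q) * c * (q * a - b) * (a - b) * (b - c) * d3 +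
    (q * b - c) * (1 - q) * c * (a - b) ^ 2 * d2 -
    (q * b - c) * (q * a - c) * (a - b) * (b - c) * d4

theorem T_braid (q : R) (i : ℕ) (f : LP R) :
    T q i (T q (i + 1) (T q i f)) = T q (i + 1) (T q i (T q (i + 1) f)) := by
  have sc : sw i (X (i + 1 + 1) : LP R) = X (i + 1 + 1) := sw_X_of_ne (by omega) (by omega)
  have ua : sw (i + 1) (X i : LP R) = X i := sw_X_of_ne (by omega) (by omega)
  have e1 := T_spec q i f
  have e2 := congrArg (sw i) e1
  have e3 := congrArg (sw (i + 1)) e1
  simp only [map_mul, map_add, map_sub, map_one, sw_C, sw_X_left, sw_X_right, sw_sw] at e2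
  simp only [map_mul, map_add, map_sub, map_one, sw_C, sw_X_left, ua] at e3
  have e4 := congrArg (sw i) e3
  simp only [map_mul, map_add, map_sub, map_one, sw_C, sw_X_left, sc] at e4
  have e5 := T_spec q (i + 1) (T q i f)
  have e6 := congrArg (sw i) e5
  simp only [map_mul, map_add, map_sub, map_one, sw_C, sw_X_right, sc] at e6
  have e7 := T_spec q i (T q (i + 1) (T q i f))
  have d1 := T_spec q (i + 1) f
  have d2 := congrArg (sw (i + 1)) d1
  have d3 := congrArg (sw i) d1
  simp only [map_mul, map_add, map_sub, map_one, sw_C, sw_X_left, sw_X_right, sw_sw] at d2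
  simp only [map_mul, map_add, map_sub, map_one, sw_C, sw_X_right, sc] at d3
  have d4 := congrArg (sw (i + 1)) d3
  simp only [map_mul, map_add, map_sub, map_one, sw_C, sw_X_right, ua, ← sw_braid] at d4
  have d5 := T_spec q i (T q (i + 1) f)
  have d6 := congrArg (sw (i + 1)) d5
  simp only [map_mul, map_add, map_sub, map_one, sw_C, sw_X_left, ua] at d6
  have d7 := T_spec q (i + 1) (T q i (T q (i + 1) f))
  exact braid_aux (XX_ne i) (XX_ne (i + 1)) (X_sub_X_ne (by omega)) e1 e2 e3 e4 e5 e6 e7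
    d1 d2 d3 d4 d5 d6 d7

theorem T_pow_left (q : R) (i k : ℕ) : T q i (X i ^ (k + 1)) = X (i + 1) ^ (k + 1) +
    (1 - C q) * ∑ j ∈ Finset.range k, X i ^ (j + 1) * X (i + 1) ^ (k - j) := by
  apply T_eq_of
  have h := geom_sum₂_mul (X i : LP R) (X (i + 1)) k
  have h2 : ∑ j ∈ Finset.range k, (X i : LP R) ^ (j + 1) * X (i + 1) ^ (k - j) =
      X i * X (i + 1) * ∑ j ∈ Finset.range k, X i ^ j * X (i + 1) ^ (k - 1 - j) := by
    rw [Finset.mul_sum]
    refine Finset.sum_congr rfl fun j hj => ?_
    have : k - j = k - 1 - j + 1 := by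
      have := Finset.mem_range.mp hj
      omega
    rw [this]
    ring
  rw [map_pow, sw_X_left, h2]
  linear_combination (1 - C q) * X i * X (i + 1) * h

theorem T_pow_right (q : R) (i k : ℕ) : T q i (X (i + 1) ^ k) = C q * X i ^ k +
    (C q - 1) * ∑ j ∈ Finset.range k, X i ^ j * X (i + 1) ^ (k - j) := by
  apply T_eq_of
  have h := geom_sum₂_mul (X i : LP R) (X (i + 1)) k
  have h2 : ∑ j ∈ Finset.range k, (X i : LP R) ^ j * X (i + 1) ^ (k - j) =
      X (i + 1) * ∑ j ∈ Finset.range k, X i ^ j * X (i + 1) ^ (k - 1 - j) := by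
    rw [Finset.mul_sum]
    refine Finset.sum_congr rfl fun j hj => ?_
    have : k - j = k - 1 - j + 1 := by
      have := Finset.mem_range.mp hj
      omega
    rw [this]
    ring
  rw [map_pow, sw_X_right, h2]
  linear_combination (C q - 1) * X (i + 1) * h

end Pool.Agent.Lib.MP_0bb0c3_co
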