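import Pool.Agent.Lib.MP_0bb0c3_co.Syt

/-! Degree estimates for the weights of standard tableaux. -/

open Finset

namespace Pool.Agent.Lib.MP_0bb0c3_co

theorem In.mono {k l : ℕ} {z : ℕ → G} {c : G} (h : In k z c) (hl : k ≤ l) : In l z c := by
  obtain ⟨i, hi, h1⟩ := h
  exact ⟨i, by omega, h1⟩

theorem Tab.swap {n : ℕ} {z : ℕ → G} (h : Tab n z) : Tab n fun i => (z i).swap := by
  refine ⟨fun i hi => (h.pos i hi).symm, fun i hi j hj e => h.inj i hi j hj (Prod.swap_injective e),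
    fun i hi => (h.down i hi).imp id ?_, fun i hi => (h.left i hi).imp id ?_⟩
  all_goals
    rintro ⟨j, hj, e⟩
    exact ⟨j, hj, by simp only [e]; rfl⟩

theorem in_swap {n : ℕ} {z : ℕ → G} {x y : ℤ} :
    In n (fun i => (z i).swap) (x, y) ↔ In n z (y, x) :=
  exists_congr fun _ => and_congr_right fun _ => Prod.swap_eq_iff_eq_swap

namespace Tab

variable {n : ℕ} {z : ℕ → G} (h : Tab n z)

include h

theorem in_pos {x y : ℤ} (hc : In n z (x, y)) : 0 ≤ x ∧ 0 ≤ y := by
  obtain ⟨i, hi, e⟩ := hc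
  have := h.pos i hi
  rwa [e] at this

theorem in_left {x y : ℤ} (hc : In n z (x, y)) (hx : 0 < x) : In n z (x - 1, y) := by
  obtain ⟨i, hi, e⟩ := hc
  rcases h.left i hi with h1 | h1
  · rw [e] at h1
    exact absurd h1 hx.ne'
  · rw [e, Prod.mk_sub_mk, sub_zero] at h1
    exact h1.mono hi.le

theorem in_down {x y : ℤ} (hc : In n z (x, y)) (hy : 0 < y) : In n z (x, y - 1) :=
  in_swap.mp (h.swap.in_left (in_swap.mpr hc) hy)

theorem in_row {x y u : ℤ} (hc : In n z (x, y)) (h0 : 0 ≤ u) (hu : u ≤ x) : In n z (u, y) := by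
  induction u, hu using Int.leInductionDown with
  | base => exact hc
  | pred u _ ih => exact h.in_left (ih (by omega)) (by omega)

theorem in_rect {x y u v : ℤ} (hc : In n z (x, y)) (h0 : 0 ≤ u) (hu : u ≤ x) (h1 : 0 ≤ v)
    (hv : v ≤ y) : In n z (u, v) :=
  in_swap.mp (h.swap.in_row (in_swap.mpr (h.in_row hc h0 hu)) h1 hv)

theorem sum_le {i : ℕ} (hi : i < n) : (z i).1 + (z i).2 ≤ i := by
  induction i using Nat.strong_induction_on with
  | _ i ih =>
    rcases h.left i hi with h1 | ⟨j, hj, e⟩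
    · rcases h.down i hi with h2 | ⟨j, hj, e⟩
      · omega
      · have := ih j hj (by omega)
        simp only [e, Prod.fst_sub, Prod.snd_sub] at this
        omega
    · have := ih j hj (by omega)
      simp only [e, Prod.fst_sub, Prod.snd_sub] at this
      omega

theorem zero (hn : 0 < n) : z 0 = 0 := by
  have h1 := h.sum_le hn
  have h2 := h.pos 0 hn
  exact Prod.ext (by simp only [Prod.fst_zero]; omega) (by simp only [Prod.snd_zero]; omega)

omit h in
theorem le_card {L : ℕ} {s : Finset ℕ} (f : ℕ → G) (hf : ∀ a < L, ∀ b < L, f a = f b → a = b)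
    (hs : ∀ a < L, ∃ i ∈ s, z i = f a) : L ≤ s.card := by
  refine le_trans ?_ (card_image_le (f := z))
  rw [← card_range L]
  exact card_le_card_of_injOn f (fun a ha => mem_coe.mpr (mem_image.mpr (hs a (by simpa using ha))))
    fun a ha b hb => hf a (by simpa using ha) b (by simpa using hb)

theorem off_row {r x y : ℤ} (hr : In n z (r, 0)) (hc : In n z (x, y)) (hy : 0 < y) :
    r + 1 + x + y ≤ n := by
  have h1 := h.in_pos hr
  have h2 := h.in_pos hc
  have := le_card (z := z) (L := (r + 1 + x + y).toNat) (s := range n)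
    (fun j => if (j : ℤ) ≤ r then (j, 0) else if (j : ℤ) ≤ r + y then (0, j - r)
      else (j - r - y, y)) (fun a _ b _ e => by
        split_ifs at e <;> simp only [Prod.mk.injEq] at e <;> omega) fun a ha => by
      simp only [mem_range]
      split_ifs
      · exact h.in_row hr (by omega) (by omega)
      · exact h.in_rect hc (by omega) (by omega) (by omega) (by omega)
      · exact h.in_row hc (by omega) (by omega)
  rw [card_range] at this
  omega

theorem disj {r : ℤ} (h1 : In n z (r, 0)) (h2 : In n z (0, r)) (hr : 2 * n ≤ 3 * r)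
    (h0 : 0 < r) : False := by
  have := h.off_row h1 h2 h0
  omega

theorem closed {z' : ℕ → G} (h' : Tab n z') {α β r : ℤ} (ha : 0 < α) (h1 : α < β) (h2 : β < 2 * α)
    (hl : ∀ i < n, α * (z i).1 + β * (z i).2 = α * (z' i).1 + β * (z' i).2)
    (hr : In n z (r, 0)) (hn : 2 * n ≤ 3 * r) : In n z' (r, 0) := by
  obtain ⟨i, hi, e⟩ := id hr
  have e1 := hl i hi
  simp only [e, mul_zero, add_zero] at e1
  rcases (h'.pos i hi).2.eq_or_lt with h3 | h3
  · refine ⟨i, hi, Prod.ext ?_ h3.symm⟩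
    rw [← h3, mul_zero, add_zero] at e1
    exact (mul_left_cancel₀ ha.ne' e1).symm
  · obtain ⟨j, hj, e2⟩ := h'.in_down (x := (z' i).1) ⟨i, hi, rfl⟩ h3
    have e3 := hl j hj
    simp only [e2] at e3
    have p := h.pos j hj
    exfalso
    rcases p.2.eq_or_lt with h4 | h4
    · rw [← h4] at e3
      have h5 : α * (z j).1 < α * (r - 1) := by nlinarith
      have h6 : α * (r - 2) < α * (z j).1 := by nlinarith
      have := lt_of_mul_lt_mul_left h5 ha.le
      have := lt_of_mul_lt_mul_left h6 ha.le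
      omega
    · have h5 := h.off_row (x := (z j).1) hr ⟨j, hj, rfl⟩ h4
      have h6 : α * (2 * ((z j).1 + (z j).2)) ≤ α * (r - 2) :=
        mul_le_mul_of_nonneg_left (by omega) ha.le
      nlinarith [mul_nonneg ha.le p.1, mul_nonneg (sub_nonneg.mpr h2.le) p.2]

theorem slope {z' : ℕ → G} (h' : Tab n z') {r : ℤ} {i j : ℕ} (hi : i < n) (hj : j < n)
    (hl : ∀ i < n, (z i).1 + (z i).2 = (z' i).1 + (z' i).2) (e1 : z i = (r, 0))
    (e2 : z j = (r - 1, 0)) (hn : 2 * n ≤ 3 * r) :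
    (z' i = (r, 0) ∧ z' j = (r - 1, 0)) ∨ (z' i = (0, r) ∧ z' j = (0, r - 1)) := by
  have key : ∀ x y, In n z' (x, y) → x + y = r - 1 → (z' j).1 = x ∧ (z' j).2 = y := by
    rintro x y ⟨k, hk, e⟩ h1
    have h2 := hl k hk
    simp only [e] at h2
    have p := h.pos k hk
    have : k = j := by
      refine h.inj k hk j hj ?_
      rcases p.2.eq_or_lt with h4 | h4
      · rw [e2]
        exact Prod.ext (by simp only; omega) h4.symm
      · have := h.off_row (x := (z k).1) ⟨i, hi, e1⟩ ⟨k, hk, rfl⟩ h4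
        omega
    rw [← this, e]
    exact ⟨rfl, rfl⟩
  have h1 := hl i hi
  have p := h'.pos i hi
  have h2 := fun h0 => key _ _ (h'.in_left (y := (z' i).2) ⟨i, hi, rfl⟩ h0)
  have h3 := fun h0 => key _ _ (h'.in_down (x := (z' i).1) ⟨i, hi, rfl⟩ h0)
  simp only [e1] at h1
  simp only [Prod.ext_iff]
  omega

end Tab

/-- The contribution of a pair of cells to the degree. -/
def dl (α β u : ℤ) : ℤ := max (-u) 0 + max (α + β - u) 0 - max (α - u) 0 - max (β - u) 0

/-- An upper bound for the degree. -/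
def UB (α β : ℤ) (m : ℕ) (l : ℕ → ℤ) : ℤ :=
  ∑ k ∈ range (m + 1), (l k + ∑ i ∈ range k, dl α β (l k - l i)) - m * (α + β) + l m - l 0

theorem UB_comm (α β : ℤ) (m : ℕ) (l : ℕ → ℤ) : UB α β m l = UB β α m l := by
  have : dl α β = dl β α := funext fun u => by
    rw [dl, dl, add_comm α β]
    ring
  rw [UB, UB, this, add_comm α β]

/-- The degree of the weight of a tableau. -/
def Dg (ℓ : G →+ ℤ) (n : ℕ) (z : ℕ → G) : ℤ :=
  ∑ k ∈ range n, (ℓ (z k) + ((Nm k z).map fun m => max (ℓ (m - z k)) 0).sum -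
    ((Dm k z).map fun m => max (ℓ (m - z k)) 0).sum)

theorem Dg_le (ℓ : G →+ ℤ) (m : ℕ) (z : ℕ → G) :
    Dg ℓ (m + 1) z ≤ UB (ℓ (1, 0)) (ℓ (0, 1)) m fun i => ℓ (z i) := by
  induction m with
  | zero =>
    simp only [Dg, UB, Nm, Dm]
    simp
  | succ m ih =>
    have h1 : ℓ (1, 1) = ℓ (1, 0) + ℓ (0, 1) := by
      rw [← map_add]
      rfl
    rw [Dg, sum_range_succ, ← Dg]
    rw [UB] at ih ⊢
    rw [sum_range_succ _ (m + 1), Nm, Dm, Multiset.map_cons, Multiset.sum_cons, Multiset.map_add,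
      Multiset.map_add, Multiset.sum_add, Multiset.sum_add, Multiset.map_map, Multiset.map_map,
      Multiset.map_map, Multiset.map_map, ← sum_eq_multiset_sum, ← sum_eq_multiset_sum,
      ← sum_eq_multiset_sum, ← sum_eq_multiset_sum, Nat.add_sub_cancel]
    have h2 : ∑ i ∈ range (m + 1), dl (ℓ (1, 0)) (ℓ (0, 1)) (ℓ (z (m + 1)) - ℓ (z i)) =
        ∑ i ∈ range (m + 1), max (ℓ (z i - z (m + 1))) 0 +
        ∑ i ∈ range (m + 1), max (ℓ (z i + (1, 1) - z (m + 1))) 0 -
        ∑ i ∈ range (m + 1), max (ℓ (z i + (1, 0) - z (m + 1))) 0 -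
        ∑ i ∈ range (m + 1), max (ℓ (z i + (0, 1) - z (m + 1))) 0 := by
      rw [← sum_add_distrib, ← sum_sub_distrib, ← sum_sub_distrib]
      refine sum_congr rfl fun i _ => ?_
      simp only [dl, map_sub, map_add, h1]
      omega
    rw [sum_range_succ fun i => max (ℓ (z i + (1, 1) - z (m + 1))) 0] at h2
    have h3 : ℓ (z m) + (ℓ (1, 0) + ℓ (0, 1)) - ℓ (z (m + 1)) ≤
        max (ℓ (z m + (1, 1) - z (m + 1))) 0 := by
      rw [map_sub, map_add, h1]
      exact le_max_left _ _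
    have h4 : 0 ≤ max (ℓ (0 - z (m + 1))) 0 := le_max_right _ _
    simp only [Function.comp_apply]
    push_cast
    linarith

theorem two_sum_lt (n : ℕ) (l : ℕ → ℤ) :
    2 * ∑ k ∈ range n, ∑ i ∈ range n, (if l i < l k then 1 else 0 : ℤ) ≤ n * (n - 1) := by
  have h1 : ∑ k ∈ range n, ∑ i ∈ range n,
      ((if l i < l k then 1 else 0 : ℤ) + if l k < l i then 1 else 0) ≤
        ∑ k ∈ range n, ∑ i ∈ range n, (1 - if i = k then 1 else 0 : ℤ) := by
    refine sum_le_sum fun k _ => sum_le_sum fun i _ => ?_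
    by_cases h : i = k
    · simp [h]
    · split_ifs <;> omega
  simp only [sum_add_distrib, sum_sub_distrib, sum_ite_eq'] at h1
  rw [sum_comm (f := fun k i => if l k < l i then (1 : ℤ) else 0),
    sum_congr rfl fun k hk => if_pos hk] at h1
  simp only [sum_const, card_range, nsmul_eq_mul, mul_one] at h1
  linarith

theorem Tab.row_bound {m : ℕ} {z : ℕ → G} (h : Tab (m + 1) z) {r : ℤ} (hr : In (m + 1) z (r, 0))
    (hn : 2 * (m + 1 : ℕ) ≤ 3 * r) :
    2 * (UB 1 2 m (fun i => (z i).1 + 2 * (z i).2) + 1) ≤ (m + 1) * m := by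
  obtain ⟨l, hl⟩ : ∃ l : ℕ → ℤ, l = fun i => (z i).1 + 2 * (z i).2 := ⟨_, rfl⟩
  have hl' : ∀ i, l i = (z i).1 + 2 * (z i).2 := fun i => by rw [hl]
  have hoff : ∀ k < m + 1, (z k).2 = 0 ∨ l k ≤ r - 2 := by
    intro k hk
    have p := h.pos k hk
    refine p.2.eq_or_lt.imp Eq.symm fun h1 => ?_
    have := h.off_row (x := (z k).1) hr ⟨k, hk, rfl⟩ h1
    rw [hl']
    omega
  have h1 : ∀ k ∈ range (m + 1), l k + ∑ i ∈ range k, dl 1 2 (l k - l i) ≤
      ∑ i ∈ range (m + 1), (if l i < l k then 1 else 0 : ℤ) + min (l k) 2 := by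
    intro k hk
    have hk' := mem_range.mp hk
    have e1 := Tab.le_card (z := z) (L := (l k - 2).toNat)
      (s := (range (m + 1)).filter fun i => l i < l k - 2) (fun u => (u, 0))
      (fun a _ b _ e => by simpa using e) fun a ha => by
        have e2 : In (m + 1) z (a, 0) := by
          rcases hoff k hk' with h2 | h2
          · refine h.in_row (x := (z k).1) ⟨k, hk', Prod.ext rfl h2⟩ (by omega) ?_
            rw [hl', h2] at ha
            omega
          · exact h.in_row hr (by omega) (by omega)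
        obtain ⟨i, hi, e⟩ := e2
        exact ⟨i, mem_filter.mpr ⟨mem_range.mpr hi, by rw [hl', e]; simp only; omega⟩, e⟩
    have e2 : ∑ i ∈ range k, dl 1 2 (l k - l i) ≤ ∑ i ∈ range (m + 1), dl 1 2 (l k - l i) :=
      sum_le_sum_of_subset_of_nonneg (range_subset_range.mpr hk'.le) fun i _ _ => by
        rw [dl]
        omega
    have e3 : ∑ i ∈ range (m + 1), (dl 1 2 (l k - l i) + if l i < l k - 2 then 1 else 0) ≤
        ∑ i ∈ range (m + 1), (if l i < l k then 1 else 0 : ℤ) := sum_le_sum fun i _ => by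
      rw [dl]
      split_ifs <;> omega
    rw [sum_add_distrib, sum_boole] at e3
    omega
  have h2 := sum_le_sum h1
  have h3 := two_sum_lt (m + 1) l
  have z0 := h.zero (Nat.succ_pos m)
  have l0 : l 0 = 0 := by rw [hl', z0]; rfl
  obtain ⟨j, hj, e⟩ := h.in_row hr zero_le_one (by omega)
  have l1 : l j = 1 := by rw [hl', e]; rfl
  have h4 : ∑ k ∈ {0, j}, (2 - min (l k) 2) ≤ ∑ k ∈ range (m + 1), (2 - min (l k) 2) :=
    sum_le_sum_of_subset_of_nonneg (by simp [insert_subset_iff]; omega) fun i _ _ => by omega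
  rw [sum_pair (by rintro rfl; omega), l0, l1, sum_sub_distrib] at h4
  simp only [sum_const, card_range, nsmul_eq_mul] at h4
  have h5 : l m ≤ m := by
    obtain ⟨i, hi, e1⟩ := hr
    have e2 := h.sum_le hi
    have e3 := h.sum_le (Nat.lt_succ_self m)
    have e4 := hl' m
    simp only [e1] at e2
    rcases hoff m (Nat.lt_succ_self m) with h6 | h6 <;> omega
  rw [sum_add_distrib (f := fun k => ∑ i ∈ range (m + 1), (if l i < l k then 1 else 0 : ℤ))] at h2
  rw [← hl, UB, l0]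
  push_cast at h3 h4
  have h6 : min (0 : ℤ) 2 = 0 := rfl
  have h7 : min (1 : ℤ) 2 = 1 := rfl
  linarith

/-- The invariant in the estimate for the total degree. -/
def Inv (j a e S : ℤ) : Prop :=
  1 ≤ a ∧ a ≤ j + 1 ∧ (2 ≤ a → 2 * j + (a - 1) * (a - 2) ≤ e ∧ S ≤ -j ∧ (j = 1 → S ≤ -3) ∧
    (j = 2 → a = 3 → S ≤ -6)) ∧ (a = 1 → (j - e ≤ 1 → S ≤ max 0 (j - e)) ∧ (j = 0 → e = 0))

theorem Inv.step {j a e S b : ℤ} (h : Inv j a e S) (hj : 0 ≤ j) (h1 : 1 ≤ b) (h2 : b ≤ a + 1)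
    (h3 : a = 1 → 1 ≤ j → b ≤ 1) :
    Inv (j + 1) b (e + 2 * (b - 1)) (S + (b * (j - 4 + 3 * a - e - b) + 3)) := by
  obtain ⟨a1, a2, a3, a4⟩ := h
  rcases a1.eq_or_lt with rfl | a1
  · obtain ⟨a5, a6⟩ := a4 rfl
    have : b = 1 ∨ b = 2 := by omega
    rcases this with rfl | rfl <;> simp only [Inv] <;> omega
  · obtain ⟨a5, a6, a7, a8⟩ := a3 a1
    have b1 : 2 ≤ b → 2 * (j + 1) + (b - 1) * (b - 2) ≤ e + 2 * (b - 1) := fun hb => by
      nlinarith [mul_nonneg (sub_nonneg.mpr h2) (show 0 ≤ a + b - 4 by omega)]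
    rcases (show j = 1 ∨ j = 2 ∨ 3 ≤ j by omega) with rfl | rfl | hj3
    · obtain rfl : a = 2 := by omega
      have : b = 1 ∨ b = 2 ∨ b = 3 := by omega
      rcases this with rfl | rfl | rfl <;> simp only [Inv] <;> omega
    · have c1 : a = 2 ∨ a = 3 := by omega
      have c2 : b = 1 ∨ b = 2 ∨ b = 3 ∨ b = 4 := by omega
      rcases c1 with rfl | rfl <;> rcases c2 with rfl | rfl | rfl | rfl <;>
        simp only [Inv] <;> omega
    · have b2 : j - 4 + 3 * a - e ≤ 3 - j := by nlinarith [sq_nonneg (a - 3)]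
      refine ⟨h1, by omega, fun hb => ⟨b1 hb, ?_, by omega, by omega⟩, fun hb => ?_⟩
      · nlinarith [mul_nonneg (sub_nonneg.mpr hb) (show 0 ≤ -(j - 4 + 3 * a - e - b) by omega)]
      · subst hb
        omega

theorem seq_bound (h : ℤ → ℤ) (d : ℕ) (h0 : h 0 = 1) (h0' : h (-1) = 0)
    (h1 : ∀ j : ℕ, j < d → 1 ≤ h (j + 1)) (h2 : ∀ j : ℕ, h (j + 1) ≤ h j + 1)
    (h3 : ∀ j : ℕ, h j = 1 → 1 ≤ j → h (j + 1) ≤ 1) {n : ℤ}
    (hn : ∑ j ∈ range (d + 1), h j = n) (hd : 3 * d < 2 * n) :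
    3 * (∑ j ∈ range (d + 1), h j * (j + h (j - 1)) - 2 * (n - 1) + d + 1) ≤ n * (n - 1) + 4 := by
  have key : ∀ k ≤ d, Inv k (h k) (2 * (∑ j ∈ range (k + 1), h j - (k + 1)))
      (3 * (∑ j ∈ range (k + 1), h j * (j + h (j - 1)) - 2 * (∑ j ∈ range (k + 1), h j - 1) +
        k + 1) - (∑ j ∈ range (k + 1), h j) * (∑ j ∈ range (k + 1), h j - 1) - 3) := by
    intro k hk
    induction k with
    | zero => simp [Inv, h0, h0']
    | succ k ih =>
      have := (ih (by omega)).step (by omega) (h1 k hk) (h2 k) fun e1 e2 => h3 k e1 (by omega)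
      rw [sum_range_succ _ (k + 1), sum_range_succ _ (k + 1)]
      push_cast
      rw [add_sub_cancel_right]
      exact (congrArg₂ (Inv (k + 1) (h (k + 1))) (by ring) (by ring)).mp this
  obtain ⟨a1, -, a3, a4⟩ := key d le_rfl
  rw [hn] at a3 a4
  rcases a1.eq_or_lt with e | e
  · have := (a4 e.symm).1 (by omega)
    have : max 0 (d - 2 * (n - (d + 1))) ≤ 1 := by omega
    linarith
  · have := (a3 e).2.1
    have : (0 : ℤ) ≤ d := by omega
    linarith

theorem Tab.mid_bound {m : ℕ} {z : ℕ → G} (h : Tab (m + 1) z) {r : ℤ} (h1 : ¬In (m + 1) z (r, 0))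
    (h2 : ¬In (m + 1) z (0, r)) (hr : 3 * r < 2 * (m + 1 : ℕ) + 3) (hr0 : 0 ≤ r) :
    3 * (UB 1 1 m (fun i => (z i).1 + (z i).2) + 1) ≤ (m + 1) * m + 4 := by
  obtain ⟨Λ, hΛ⟩ : ∃ Λ : Finset G, Λ = (range (m + 1)).image z := ⟨_, rfl⟩
  have mΛ : ∀ x y, (x, y) ∈ Λ ↔ In (m + 1) z (x, y) := fun x y => by
    simp only [hΛ, mem_image, mem_range, In]
  have sΛ : ∀ g : G → ℤ, ∑ k ∈ range (m + 1), g (z k) = ∑ c ∈ Λ, g c := fun g => by
    rw [hΛ, sum_image fun a ha b hb => h.inj a (by simpa using ha) b (by simpa using hb)]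
  obtain ⟨F, hF⟩ : ∃ F : ℤ → Finset G, F = fun j => Λ.filter fun c => c.1 + c.2 = j := ⟨_, rfl⟩
  have mF : ∀ j x y, (x, y) ∈ F j ↔ In (m + 1) z (x, y) ∧ x + y = j := fun j x y => by
    simp only [hF, mem_filter, mΛ]
  have z0 := h.zero (Nat.succ_pos m)
  obtain ⟨⟨x, y⟩, hc, hmax⟩ := exists_max_image Λ (fun c => c.1 + c.2)
    ⟨(0, 0), (mΛ _ _).mpr ⟨0, Nat.succ_pos m, z0⟩⟩
  rw [mΛ] at hc
  have p := h.in_pos hc
  obtain ⟨d, hd⟩ : ∃ d : ℕ, x + y = d := ⟨(x + y).toNat, by omega⟩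
  have fib : ∀ g : ℤ → ℤ, ∑ c ∈ Λ, g (c.1 + c.2) = ∑ j ∈ range (d + 1), (F j).card * g j := by
    intro g
    rw [← sum_fiberwise_of_maps_to (t := range (d + 1)) (g := fun c : G => (c.1 + c.2).toNat)
      fun c hc' => mem_range.mpr (by have := hmax c hc'; simp only at this; omega)]
    refine sum_congr rfl fun j _ => ?_
    have e : Λ.filter (fun c : G => (c.1 + c.2).toNat = j) = F j := by
      rw [hF]
      refine filter_congr fun c hc' => ?_
      have := h.in_pos ((mΛ c.1 c.2).mp hc')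
      omega
    rw [e, sum_congr rfl fun c hc' => by rw [((mF j c.1 c.2).mp hc').2], sum_const, nsmul_eq_mul]
  have e1 := seq_bound (fun j => (F j).card) d ?_ ?_ ?_ ?_ ?_ (n := m + 1) ?_ ?_
  · have e2 : ∀ k ∈ range (m + 1), (z k).1 + (z k).2 +
        ∑ i ∈ range k, dl 1 1 ((z k).1 + (z k).2 - ((z i).1 + (z i).2)) ≤
          (z k).1 + (z k).2 + (F ((z k).1 + (z k).2 - 1)).card := by
      intro k hk
      refine Int.add_le_add_left ((sum_le_sum_of_subset_of_nonneg
        (range_subset_range.mpr (mem_range.mp hk).le) fun i _ _ => by rw [dl]; omega).trans ?_) _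
      rw [sΛ fun c => dl 1 1 ((z k).1 + (z k).2 - (c.1 + c.2)), hF, ← sum_boole]
      refine sum_le_sum fun c _ => ?_
      rw [dl]
      split_ifs <;> omega
    have e3 := sum_le_sum e2
    rw [sΛ fun c => c.1 + c.2 + (F (c.1 + c.2 - 1)).card, fib fun j => j + (F (j - 1)).card] at e3
    have e4 := hmax (z m) ((mΛ _ _).mpr ⟨m, Nat.lt_succ_self m, rfl⟩)
    simp only [UB, z0, Prod.fst_zero, Prod.snd_zero] at e4 ⊢
    linarith
  · have : F 0 = {(0, 0)} := by
      ext ⟨u, v⟩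
      rw [mF, mem_singleton, Prod.mk.injEq]
      refine ⟨fun h3 => ?_, ?_⟩
      · have := h.in_pos h3.1
        omega
      · rintro ⟨rfl, rfl⟩
        exact ⟨⟨0, Nat.succ_pos m, z0⟩, rfl⟩
    simp only [this, card_singleton, Nat.cast_one]
  · rw [Nat.cast_eq_zero, card_eq_zero]
    refine eq_empty_of_forall_notMem fun ⟨u, v⟩ h3 => ?_
    rw [mF] at h3
    have := h.in_pos h3.1
    omega
  · intro j hj
    exact Nat.one_le_cast.mpr (card_pos.mpr ⟨(min x (j + 1), j + 1 - min x (j + 1)), (mF _ _ _).mpr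
      ⟨h.in_rect hc (by omega) (by omega) (by omega) (by omega), by omega⟩⟩)
  · intro j
    have e2 : F (j + 1) ⊆ insert (0, (j : ℤ) + 1) ((F j).image (· + (1, 0))) := by
      rintro ⟨u, v⟩ h3
      rw [mF] at h3
      rcases (h.in_pos h3.1).1.eq_or_lt with h4 | h4
      · exact mem_insert.mpr (Or.inl (Prod.ext h4.symm (by simp only; omega)))
      · exact mem_insert_of_mem (mem_image.mpr ⟨(u - 1, v),
          (mF _ _ _).mpr ⟨h.in_left h3.1 h4, by omega⟩, by simp⟩)
    have e3 := (card_le_card e2).trans (card_insert_le _ _)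
    have e4 := card_image_le (s := F j) (f := (· + (1, 0)))
    omega
  · intro j hj hj1
    obtain ⟨⟨a, b⟩, e⟩ := card_eq_one.mp (Nat.cast_eq_one.mp hj)
    have e2 : ∀ u v, In (m + 1) z (u, v) → u + v = j → u = a ∧ v = b := fun u v h3 h4 => by
      have := (mF j u v).mpr ⟨h3, h4⟩
      rwa [e, mem_singleton, Prod.mk.injEq] at this
    refine Nat.cast_le_one.mpr (card_le_one.mpr ?_)
    rintro ⟨u, v⟩ h3 ⟨u', v'⟩ h4
    rw [mF] at h3 h4
    have p1 := h.in_pos h3.1
    have p2 := h.in_pos h4.1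
    have q1 := fun h0 => e2 _ _ (h.in_left h3.1 h0)
    have q2 := fun h0 => e2 _ _ (h.in_down h3.1 h0)
    have q3 := fun h0 => e2 _ _ (h.in_left h4.1 h0)
    have q4 := fun h0 => e2 _ _ (h.in_down h4.1 h0)
    rw [Prod.mk.injEq]
    omega
  · have := fib fun _ => 1
    rw [← sΛ fun _ => 1] at this
    simpa using this.symm
  · rcases p.2.eq_or_lt with h3 | h3
    · subst h3
      have : x < r := not_le.mp fun h4 => h1 (h.in_row hc hr0 h4)
      omega
    · rcases p.1.eq_or_lt with h4 | h4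
      · subst h4
        have : y < r := not_le.mp fun h4 => h2 (h.in_rect hc le_rfl le_rfl hr0 h4)
        omega
      · have e2 := h.off_row (h.in_rect hc p.1 le_rfl le_rfl p.2) hc h3
        have e3 := h.swap.off_row (in_swap.mpr (h.in_row hc le_rfl p.1)) (in_swap.mpr hc) h4
        omega

end Pool.Agent.Lib.MP_0bb0c3_co
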