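import Pool.Agent.Lib.MP_0bb0c3_co.Proj

/-! The main kernel and its comparison with the Cauchy kernel. -/

open AddMonoidAlgebra Finset

namespace Pool.Agent.Lib.MP_0bb0c3_co

section generic

variable {A A' : Type*} [CommRing A] [CommRing A']

/-- Denominator of the main kernel. -/
noncomputable def DS (q t : A) (k : ℕ) : AddMonoidAlgebra A Lat :=
  binom 1 (ev k) * ∏ i ∈ range k, binom q (ev k - ev i) * binom t (ev k - ev i)

/-- Numerator of the main kernel. -/
noncomputable def NS (q t : A) (k : ℕ) : AddMonoidAlgebra A Lat :=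
  (∏ i ∈ range k, binom 1 (ev k - ev i)) * ∏ i ∈ range (k - 1), binom (q * t) (ev k - ev i)

theorem DS_mem (q t : A) (k : ℕ) : DS q t k ∈ BP A (Ck k) :=
  mul_mem (binom_mem _ (Or.inl rfl)) (prod_mem fun i hi =>
    mul_mem (binom_mem _ (Or.inr ⟨i, mem_range.mp hi, rfl⟩))
      (binom_mem _ (Or.inr ⟨i, mem_range.mp hi, rfl⟩)))

theorem NS_mem (q t : A) (k : ℕ) : NS q t k ∈ BP A (Ck k) :=
  mul_mem (prod_mem fun i hi => binom_mem _ (Or.inr ⟨i, mem_range.mp hi, rfl⟩))
    (prod_mem fun i hi => binom_mem _ (Or.inr ⟨i, by have := mem_range.mp hi; omega, rfl⟩))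

/-- The main kernel. -/
noncomputable def SK (q t : A) (n : ℕ) : Lat → A := ker (DS q t) (NS q t) n

theorem SK_comm (q t : A) (n : ℕ) : SK q t n = SK t q n := by
  have h1 : DS q t = DS t q := funext fun k => by
    rw [DS, DS]
    congr 1
    exact prod_congr rfl fun _ _ => mul_comm _ _
  have h2 : NS q t = NS t q := funext fun k => by rw [NS, NS, mul_comm q t]
  rw [SK, SK, h1, h2]

theorem ker_map (h : A →+* A') {D N : ℕ → AddMonoidAlgebra A Lat}
    {D' N' : ℕ → AddMonoidAlgebra A' Lat} (hD : ∀ k, D k ∈ BP A (Ck k))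
    (hD' : ∀ k, D' k ∈ BP A' (Ck k)) (e1 : ∀ k, mapRingHom Lat h (D k) = D' k)
    (e2 : ∀ k, mapRingHom Lat h (N k) = N' k) (n : ℕ) : h ∘ ker D N n = ker D' N' n := by
  have := (ker_sol (N := N) hD n).map h
  simp only [map_prod, e1, e2] at this
  exact ker_unique hD' this

theorem SK_map (h : A →+* A') (q t : A) (n : ℕ) (b : Lat) :
    h (SK q t n b) = SK (h q) (h t) n b :=
  congrFun (ker_map h (DS_mem q t) (DS_mem _ _)
    (fun k => by simp only [DS, map_mul, map_prod, map_binom, map_one])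
    (fun k => by simp only [NS, map_mul, map_prod, map_binom, map_one]) n) b

/-- Denominator of the Cauchy kernel with the additional geometric factor. -/
noncomputable def DH (q : A) (ξ : ℕ → A) (k : ℕ) : AddMonoidAlgebra A Lat :=
  binom 1 (ev k) * DK q ξ k

theorem DH_mem (q : A) (ξ : ℕ → A) (k : ℕ) : DH q ξ k ∈ BP A (Ck k) :=
  mul_mem (binom_mem _ (Or.inl rfl)) (DK_mem q ξ k)

/-- The Cauchy kernel with the additional geometric factor. -/
noncomputable def kapH (q : A) (ξ : ℕ → A) (n : ℕ) : Lat → A := ker (DH q ξ) (NK q ξ) n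

theorem kapH_map (h : A →+* A') (q : A) (ξ : ℕ → A) (n : ℕ) (b : Lat) :
    h (kapH q ξ n b) = kapH (h q) (fun i => h (ξ i)) n b :=
  congrFun (ker_map h (DH_mem q ξ) (DH_mem _ _)
    (fun k => by simp only [DH, DK, map_mul, map_prod, map_binom, map_one])
    (fun k => by simp only [NK, map_mul, map_prod, map_binom, map_one]) n) b

theorem prod_single_ev (I : Finset ℕ) :
    ∏ i ∈ I, (single (ev i) 1 : AddMonoidAlgebra A Lat) = single (eps I) 1 := by
  induction I using Finset.induction_on with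
  | empty => rfl
  | insert i I hi ih =>
    rw [prod_insert hi, ih, single_mul_single, mul_one]
    congr 1
    funext j
    simp only [Pi.add_apply, ev_apply, eps, mem_insert]
    by_cases h1 : j = i
    · simp [h1, hi]
    · simp [h1]

theorem act_prod_binom (n : ℕ) (f : Lat → A) (b : Lat) :
    act (∏ k ∈ range n, binom 1 (ev k)) f b =
      ∑ I ∈ (range n).powerset, (-1) ^ I.card * f (b - eps I) := by
  simp only [binom, sub_eq_add_neg (1 : AddMonoidAlgebra A Lat)]
  rw [prod_one_add, act_sum, Finset.sum_apply]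
  refine sum_congr rfl fun I _ => ?_
  have h : ((-1) ^ I.card : AddMonoidAlgebra A Lat) = single 0 ((-1) ^ I.card) := by
    rw [← map_one (algebraMap A (AddMonoidAlgebra A Lat)), ← map_neg, ← map_pow]
    rfl
  rw [prod_neg, prod_single_ev, h, single_mul_single, act_single, zero_add, mul_one]

theorem rel_sol {Λ Λ' : Type*} [AddCommGroup Λ] [AddCommGroup Λ'] {τ : (Λ → A) →+ (Λ' → A')}
    {D N : AddMonoidAlgebra A Λ} {D' N' : AddMonoidAlgebra A' Λ'} (hD : Rel τ D D')
    (hN : Rel τ N N') (h1 : τ (1 : AddMonoidAlgebra A Λ).coeff = (1 : AddMonoidAlgebra A' Λ').coeff)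
    {f : Λ → A} (h : act D f = N.coeff) : act D' (τ f) = N'.coeff := by
  rw [← hD, h, ← mul_one N, ← act_coeff, hN, h1, act_coeff, mul_one]

end generic

variable {R : Type} [Field R]

/-- Total degree in the first `n` variables. -/
def dg (n : ℕ) : Lat →+ ℤ where
  toFun b := ∑ j ∈ range n, b j
  map_zero' := by simp
  map_add' a b := by simp only [Pi.add_apply, sum_add_distrib]

theorem dg_apply (n : ℕ) (b : Lat) : dg n b = ∑ j ∈ range n, b j := rfl

theorem dg_ev {n j : ℕ} (hj : j < n) : dg n (ev j) = 1 := by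
  simp only [dg_apply, ev_apply]
  rw [sum_ite_eq' (range n) j, if_pos (mem_range.mpr hj)]

theorem Cn_dg (n : ℕ) : ∀ m ∈ Cn n, 0 ≤ dg n m := by
  rintro m ⟨k, hk, rfl | ⟨i, hi, rfl⟩⟩
  · rw [dg_ev hk]
    omega
  · rw [map_sub, dg_ev hk, dg_ev (by omega)]
    omega

theorem wf_bounds {m n : ℕ} (h : m ≤ n) {d : ℤ} {γ : Lat} (hγ : γ ∈ PSet m d) :
    0 ≤ wf n γ ∧ wf n γ ≤ n * d := by
  have h1 : wf n γ = ∑ j ∈ range n, (j + 1 : ℤ) * γ j := rfl
  have h2 : ∑ j ∈ range n, γ j = d := by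
    rw [← hγ.2.2]
    exact (sum_subset (range_subset_range.mpr h) fun j _ hj => hγ.2.1 j (by simpa using hj)).symm
  rw [h1, ← h2, mul_sum]
  refine ⟨sum_nonneg fun l _ => mul_nonneg (by omega) (hγ.1 l), sum_le_sum fun l hl => ?_⟩
  have := mem_range.mp hl
  exact mul_le_mul_of_nonneg_right (by omega) (hγ.1 l)

theorem gg_mem (q : R) (n : ℕ) (j : ℤ) : gg q n j ∈ Supp R {γ | -γ ∈ PSet n j} := by
  rw [gg, AA, lin]
  refine finsum_induction (· ∈ Supp R {γ | -γ ∈ PSet n j}) (zero_mem _)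
    (fun _ _ h h' => add_mem h h') fun β => ?_
  by_cases h : 0 - β ∈ PSet n j
  · refine Submodule.smul_mem _ _ (E_mem_Supp q (fun i hi γ hγ δ hδ => ?_) β (by simpa using h))
    refine Btw_subset_PSet hi hγ ⟨fun l h1 h2 => ?_, ?_⟩
    · rw [Pi.neg_apply, Pi.neg_apply, hδ.1 l h1 h2]
    · have := hδ.2
      simp only [Pi.neg_apply]
      omega
  · rw [co, ind_neg h, zero_smul]
    exact zero_mem _

theorem pr_gg_eq_zero (q : R) (n : ℕ) (j : ℤ) {κ : Lat → LP R} {b : Lat}
    (h : ∀ γ ∈ PSet n j, κ (b - γ) = 0) : pr κ (mon b * gg q n j) = 0 := by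
  refine (Submodule.mem_bot R).mp (map_mem_of_Supp (pr κ ∘ₗ LinearMap.mulLeft R (mon b)) ⊥
    (fun γ hγ => ?_) (gg_mem q n j))
  rw [LinearMap.comp_apply, LinearMap.mulLeft_apply, ← mon_add, pr_mon, Submodule.mem_bot,
    ← h _ hγ, sub_neg_eq_add]

theorem pr_gg_support (q : R) (n : ℕ) {κ : Lat → LP R} (hκ : Bdd (dg n) 0 κ) (b : Lat) {N : ℤ}
    (hN : dg n b ≤ N) :
    Function.support (fun j : ℤ => pr κ (mon b * gg q n j)) ⊆ (Icc 0 N : Finset ℤ) := by
  intro j hj
  by_contra h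
  refine hj (pr_gg_eq_zero q n j fun γ hγ => hκ _ ?_)
  have h1 := PSet_nonneg hγ
  have h2 : dg n γ = j := hγ.2.2
  rw [coe_Icc, Set.mem_Icc] at h
  rw [map_sub]
  omega

theorem act_finsum_gg {q : R} (hq : q ≠ 0) (k : ℕ) {κ : Lat → LP R} (hκ : Bdd (dg (k + 1)) 0 κ) :
    act (∏ l ∈ range (k + 1), binom 1 (ev l))
      (fun b => ∑ᶠ j : ℤ, pr κ (mon b * gg q (k + 1) j)) = κ := by
  funext b
  have hf : ∀ c : Lat, (Function.support fun j : ℤ => pr κ (mon c * gg q (k + 1) j)).Finite :=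
    fun c => (Finset.finite_toSet _).subset (pr_gg_support q (k + 1) hκ c le_rfl)
  have hC : ∀ I : Finset ℕ, ((-1) ^ I.card : LP R) = C ((-1) ^ I.card) := fun I => by
    rw [C, map_pow, map_neg, map_one]
  have h1 : ∀ I : Finset ℕ, (-1) ^ I.card * ∑ᶠ j : ℤ, pr κ (mon (b - eps I) * gg q (k + 1) j) =
      ∑ᶠ m : ℤ, pr κ (mon b * ((-1) ^ I.card * (mon (-eps I) * gg q (k + 1) (m - I.card)))) := by
    intro I
    rw [mul_finsum' _ _ (hf _)]
    refine finsum_eq_of_bijective (· + (I.card : ℤ)) (Equiv.addRight _).bijective fun j => ?_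
    rw [add_sub_cancel_right, hC, mul_left_comm, C_mul, C_mul, map_smul, ← mul_assoc, ← mon_add,
      sub_eq_add_neg]
  have h2 : ∀ I ∈ (range (k + 1)).powerset, Function.HasFiniteSupport fun m : ℤ =>
      pr κ (mon b * ((-1) ^ I.card * (mon (-eps I) * gg q (k + 1) (m - I.card)))) := by
    intro I _
    refine ((hf (b - eps I)).preimage (f := fun m : ℤ => m - I.card)
      (sub_left_injective.injOn)).subset fun m hm h => hm ?_
    show pr κ _ = 0
    rw [hC, mul_left_comm, C_mul, map_smul, ← mul_assoc, ← mon_add, ← sub_eq_add_neg]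
    exact smul_eq_zero_of_right _ h
  rw [act_prod_binom, sum_congr rfl fun I _ => h1 I, ← finsum_sum_comm _ _ h2]
  simp only [← map_sum, ← mul_sum, gg_rec hq]
  rw [finsum_eq_single _ 0 fun m hm => by rw [if_neg hm, mul_zero, map_zero], if_pos rfl, mul_one,
    pr_mon]

theorem kapH_eq {q : R} (hq : q ≠ 0) (k : ℕ) (b : Lat) {N : ℤ} (hN : dg (k + 1) b ≤ N) :
    kapH (C q) X (k + 1) b =
      ∑ j ∈ Icc 0 N, pr (kap (C q) X (k + 1)) (mon b * gg q (k + 1) j) := by
  have b1 : Bdd (dg (k + 1)) 0 (kap (C q) (X : ℕ → LP R) (k + 1)) :=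
    ker_bdd (DK_mem _ _) (NK_mem _ _) (Cn_dg _)
  have b2 : Bdd (wf (k + 1)) 0 (kap (C q) (X : ℕ → LP R) (k + 1)) :=
    ker_bdd (DK_mem _ _) (NK_mem _ _) fun m hm => (Cn_wf le_rfl m hm).le
  have s1 := (ker_sol (N := NK (C q) (X : ℕ → LP R)) (DK_mem (C q) X) (k + 1)).2
  rw [← finsum_eq_sum_of_support_subset _ (pr_gg_support q (k + 1) b1 b hN)]
  refine (congrFun (ker_unique (DH_mem _ _) (f := fun b => ∑ᶠ j : ℤ,
    pr (kap (C q) X (k + 1)) (mon b * gg q (k + 1) j)) ⟨⟨0, fun c hc => ?_⟩, ?_⟩) b).symm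
  · refine finsum_eq_zero_of_forall_eq_zero fun j => pr_gg_eq_zero q _ j fun γ hγ => b2 _ ?_
    have := (wf_bounds le_rfl hγ).1
    rw [map_sub]
    omega
  · simp only [DH]
    rw [prod_mul_distrib, mul_comm, act_mul, act_finsum_gg hq k b1]
    exact s1

end Pool.Agent.Lib.MP_0bb0c3_co
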