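import Pool.Agent.Lib.MP_0bb0c3_co.Kern

/-! The coefficient of the all ones vector in the main kernel as a sum over Dyck sequences. -/

open AddMonoidAlgebra Finset

namespace Pool.Agent.Lib.MP_0bb0c3_co

variable {R : Type} [Field R]

/-- Polynomials inside Laurent polynomials. -/
def Pol (R : Type) [Field R] : Subring (LP R) where
  carrier := {f | ∀ j, Bdd (crd j) 0 f.coeff}
  mul_mem' {f g} hf hg j := by simpa using (hf j).mul (hg j)
  one_mem' j := bdd_one _
  add_mem' {f g} hf hg j := by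
    rw [coeff_add, Finsupp.coe_add]
    exact (hf j).add (hg j)
  zero_mem' _ _ _ := rfl
  neg_mem' {f} hf j p hp := by rw [coeff_neg, Finsupp.neg_apply, hf j p hp, neg_zero]

/-- Variables as polynomials. -/
noncomputable def XP (j : ℕ) : Pol R := ⟨X j, fun l => (bdd_single (crd l) (ev j) 1).mono (by
  rw [crd_apply, ev_apply]
  split_ifs <;> omega)⟩

/-- Constants as polynomials. -/
noncomputable def CP (a : R) : Pol R := ⟨C a, fun l => (bdd_single (crd l) 0 a).mono (by
  rw [map_zero])⟩

theorem CP_one : CP (1 : R) = 1 := Subtype.ext (map_one (algebraMap R (LP R)))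

/-- The exponents of degree `d` as a finite set. -/
noncomputable def PF (m : ℕ) (d : ℤ) : Finset Lat := (PSet_finite m d).toFinset

theorem mem_PF {m : ℕ} {d : ℤ} {c : Lat} : c ∈ PF m d ↔ c ∈ PSet m d := Set.Finite.mem_toFinset _

/-- The substitution of the dual variables. -/
noncomputable def tau (R : Type) [Field R] (m : ℕ) : (Lat → Pol R) →+ (Lat × ℤ → R) where
  toFun f p := ∑ c ∈ PF m p.2, (f (p.1 + c) : LP R).coeff (shf c)
  map_zero' := by
    funext p
    exact sum_eq_zero fun _ _ => rfl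
  map_add' f g := by
    funext p
    rw [Pi.add_apply, ← sum_add_distrib]
    rfl

theorem tau_apply (m : ℕ) (f : Lat → Pol R) (b : Lat) (d : ℤ) :
    tau R m f (b, d) = ∑ c ∈ PF m d, (f (b + c) : LP R).coeff (shf c) := rfl

theorem coeff_C_mul' (a : R) (f : LP R) (b : Lat) : (C a * f).coeff b = a * f.coeff b := by
  rw [C_mul, coeff_smul_apply, smul_eq_mul]

theorem coeff_X_mul' (j : ℕ) (f : LP R) (b : Lat) : (X j * f).coeff b = f.coeff (b - ev j) := by
  rw [X, mon, coeff_single_mul_apply, one_mul, neg_add_eq_sub]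

theorem rel_tau_C (m : ℕ) (a : R) (v : Lat) :
    Rel (tau R m) (binom (CP a) v) (binom a (v, 0)) := by
  refine Rel.binom fun f => funext fun ⟨b, d⟩ => ?_
  rw [act_single, Prod.mk_sub_mk, sub_zero, tau_apply, tau_apply, mul_sum]
  refine sum_congr rfl fun c _ => ?_
  rw [act_single, Subring.coe_mul, add_sub_right_comm]
  exact coeff_C_mul' _ _ _

theorem rel_tau_X0 (m : ℕ) (a : R) (v : Lat) : Rel (tau R m) (binom (CP a * XP 0) v) 1 := by
  have : (1 : AddMonoidAlgebra R (Lat × ℤ)) = binom 0 0 := by rw [binom, single_zero, sub_zero]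
  rw [this]
  refine Rel.binom fun f => funext fun ⟨b, d⟩ => ?_
  rw [act_single, zero_mul, tau_apply]
  refine sum_eq_zero fun c _ => ?_
  rw [act_single, Subring.coe_mul, Subring.coe_mul, mul_assoc]
  refine (coeff_C_mul' _ _ _).trans (mul_eq_zero_of_right _ ((coeff_X_mul' _ _ _).trans ?_))
  exact (f _).2 0 _ (by simp [crd_apply, shf_apply, ev_apply])

theorem rel_tau_X {m i : ℕ} (hi : i < m) (a : R) (v : Lat) :
    Rel (tau R m) (binom (CP a * XP (i + 1)) v) (binom a (v - ev i, 1)) := by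
  refine Rel.binom fun f => funext fun ⟨b, d⟩ => ?_
  have h1 : ∀ c, ((act (single v (CP a * XP (i + 1))) f (b + c) : Pol R) : LP R).coeff (shf c) =
      a * (f (b + c - v) : LP R).coeff (shf (c - ev i)) := by
    intro c
    rw [act_single, Subring.coe_mul, Subring.coe_mul, mul_assoc, map_sub, shf_ev]
    exact (coeff_C_mul' _ _ _).trans (congrArg _ (coeff_X_mul' _ _ _))
  rw [act_single, Prod.mk_sub_mk, tau_apply, tau_apply, mul_sum]
  simp only [h1]
  symm
  refine sum_of_injOn (· + ev i) (add_left_injective _).injOn (fun c hc => ?_) (fun c hc hc' => ?_)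
    fun c _ => ?_
  · rw [mem_coe, mem_PF] at hc
    refine (mem_PF (c := c + ev i)).mpr ⟨fun j => ?_, fun j hj => ?_, ?_⟩
    · have := hc.1 j
      rw [Pi.add_apply, ev_apply]
      split_ifs <;> omega
    · rw [Pi.add_apply, hc.2.1 j hj, ev_apply, if_neg (by omega), add_zero]
    · have h2 : dg m c = d - 1 := hc.2.2
      show dg m (c + ev i) = d
      rw [map_add, dg_ev hi]
      omega
  · rw [mem_PF] at hc
    refine mul_eq_zero_of_right _ ((f _).2 (i + 1) _ ?_)
    by_contra h
    refine hc' ⟨c - ev i, mem_PF.mpr ⟨fun j => ?_, fun j hj => ?_, ?_⟩, sub_add_cancel _ _⟩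
    · by_cases h2 : j = i
      · simpa [h2, crd_apply, shf_apply] using h
      · simpa [ev_apply, h2] using hc.1 j
    · rw [Pi.sub_apply, hc.2.1 j hj, ev_apply, if_neg (by omega), sub_zero]
    · have h2 : dg m c = d := hc.2.2
      show dg m (c - ev i) = d - 1
      rw [map_sub, dg_ev hi, h2]
  · rw [add_sub_cancel_right, show b - (v - ev i) + c = b + (c + ev i) - v by abel]

theorem tau_one (m : ℕ) : tau R m (1 : AddMonoidAlgebra (Pol R) Lat).coeff =
    (1 : AddMonoidAlgebra R (Lat × ℤ)).coeff := by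
  classical
  funext ⟨b, d⟩
  have h0 : ∀ c ∈ PF m d, c ≠ 0 →
      (((1 : AddMonoidAlgebra (Pol R) Lat).coeff (b + c) : Pol R) : LP R).coeff (shf c) = 0 := by
    intro c _ hc
    rw [one_def, coeff_single, Finsupp.single_apply]
    split_ifs
    · rw [Subring.coe_one, one_def, coeff_single, Finsupp.single_eq_of_ne]
      exact fun h => hc (shf_injective (h.trans (map_zero shf).symm))
    · rfl
  have h1 : (0 : Lat) ∈ PF m d ↔ d = 0 := by
    rw [mem_PF]
    simp [PSet, eq_comm]
  rw [tau_apply]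
  by_cases hd : d = 0
  · rw [sum_eq_single_of_mem 0 (h1.mpr hd) h0, add_zero, map_zero, hd]
    by_cases hb : b = 0
    · subst hb
      rw [coeff_one_zero, Subring.coe_one, coeff_one_zero]
      exact coeff_one_zero.symm
    · rw [one_def, one_def (M := Lat × ℤ), coeff_single, coeff_single, Finsupp.single_eq_of_ne hb,
        Finsupp.single_eq_of_ne fun h => hb (congrArg Prod.fst h)]
      rfl
  · rw [sum_eq_zero fun c hc => h0 c hc fun h => hd (h1.mp (h ▸ hc)), one_def, coeff_single,
      Finsupp.single_eq_of_ne fun h => hd (congrArg Prod.snd h)]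

/-- Extraction of the coefficients of a polynomial valued series. -/
noncomputable def tau' (R : Type) [Field R] : (Lat → Polynomial R) →+ (Lat × ℤ → R) where
  toFun f p := if 0 ≤ p.2 then (f p.1).coeff p.2.toNat else 0
  map_zero' := by
    funext p
    simp
  map_add' f g := by
    funext p
    simp only [Pi.add_apply, Polynomial.coeff_add]
    split_ifs <;> simp

theorem tau'_apply (f : Lat → Polynomial R) (b : Lat) (d : ℤ) :
    tau' R f (b, d) = if 0 ≤ d then (f b).coeff d.toNat else 0 := rfl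

theorem rel_tau'_C (a : R) (v : Lat) :
    Rel (tau' R) (binom (Polynomial.C a) v) (binom a (v, 0)) := by
  refine Rel.binom fun f => funext fun ⟨b, d⟩ => ?_
  rw [act_single, Prod.mk_sub_mk, sub_zero, tau'_apply, tau'_apply, act_single,
    Polynomial.coeff_C_mul, mul_ite, mul_zero]

theorem rel_tau'_X (a : R) (v : Lat) :
    Rel (tau' R) (binom (Polynomial.C a * Polynomial.X) v) (binom a (v, 1)) := by
  refine Rel.binom fun f => funext fun ⟨b, d⟩ => ?_
  rw [act_single, Prod.mk_sub_mk, tau'_apply, tau'_apply, act_single, mul_assoc,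
    Polynomial.coeff_C_mul]
  rcases lt_trichotomy d 0 with h | h | h
  · rw [if_neg h.not_ge, if_neg (by omega), mul_zero]
  · rw [h, if_pos le_rfl, if_neg (by omega), Int.toNat_zero, Polynomial.mul_coeff_zero,
      Polynomial.coeff_X_zero, zero_mul]
  · rw [if_pos h.le, if_pos (by omega), show d.toNat = (d - 1).toNat + 1 by omega,
      Polynomial.coeff_X_mul]

theorem tau'_one : tau' R (1 : AddMonoidAlgebra (Polynomial R) Lat).coeff =
    (1 : AddMonoidAlgebra R (Lat × ℤ)).coeff := by
  funext ⟨b, d⟩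
  rw [tau'_apply, one_def, one_def (M := Lat × ℤ), coeff_single, coeff_single]
  by_cases hb : b = 0
  · subst hb
    rw [Finsupp.single_eq_same, Polynomial.coeff_one]
    by_cases hd : d = 0
    · subst hd
      exact (Finsupp.single_eq_same (a := (0 : Lat × ℤ))).symm
    · rw [Finsupp.single_eq_of_ne fun h => hd (congrArg Prod.snd h)]
      split_ifs <;> first | rfl | omega
  · rw [Finsupp.single_eq_of_ne hb, Finsupp.single_eq_of_ne fun h => hb (congrArg Prod.fst h)]
    simp

theorem tau_kapH (q : R) (m : ℕ) : tau R m (kapH (CP q) XP (m + 1)) =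
    tau' R (SK (Polynomial.C q) Polynomial.X (m + 1)) := by
  set φ : Lat × ℤ →+ ℤ := (wf (m + 1)).coprod (AddMonoidHom.mulLeft (m + 1 : ℕ)) with hφ
  have hφ' : ∀ b d, φ (b, d) = wf (m + 1) b + (m + 1 : ℕ) * d := fun _ _ => rfl
  set C' : Set (Lat × ℤ) := {p | p.1 ∈ Cn (m + 1) ∧ 0 ≤ p.2} with hC'
  have h1 : ∀ p ∈ C', 0 < φ p := fun ⟨b, d⟩ hp => by
    have := Cn_wf le_rfl b hp.1
    have : 0 ≤ ((m + 1 : ℕ) : ℤ) * d := mul_nonneg (by omega) hp.2
    rw [hφ']
    omega
  set D' : ℕ → AddMonoidAlgebra R (Lat × ℤ) := fun k => binom 1 (ev k, 0) *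
    ∏ i ∈ range k, binom q (ev k - ev i, 0) * binom 1 (ev k - ev i, 1) with hD'
  set N' : ℕ → AddMonoidAlgebra R (Lat × ℤ) := fun k => (∏ i ∈ range k, binom 1 (ev k - ev i, 0)) *
    ∏ i ∈ range (k - 1), binom q (ev k - ev i, 1) with hN'
  have hDm : ∏ k ∈ range (m + 1), D' k ∈ BP R C' := prod_mem fun k hk =>
    mul_mem (binom_mem _ ⟨⟨k, mem_range.mp hk, Or.inl rfl⟩, le_rfl⟩) (prod_mem fun i hi =>
      mul_mem (binom_mem _ ⟨⟨k, mem_range.mp hk, Or.inr ⟨i, mem_range.mp hi, rfl⟩⟩, le_rfl⟩)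
        (binom_mem _ ⟨⟨k, mem_range.mp hk, Or.inr ⟨i, mem_range.mp hi, rfl⟩⟩, zero_le_one⟩))
  have c1 : ∀ v, Rel (tau R m) (binom 1 v) (binom 1 (v, 0)) := fun v => by
    simpa only [CP_one] using rel_tau_C m (1 : R) v
  have c2 : ∀ v, Rel (tau' R) (binom 1 v) (binom 1 (v, 0)) := fun v => by
    simpa only [map_one] using rel_tau'_C (1 : R) v
  refine Sol.unique (N := ∏ k ∈ range (m + 1), N' k) h1 hDm ⟨⟨0, fun ⟨b, d⟩ hp => ?_⟩, ?_⟩
    ⟨⟨0, fun ⟨b, d⟩ hp => ?_⟩, ?_⟩
  · rw [tau_apply]
    refine sum_eq_zero fun c hc => ?_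
    have := (wf_bounds (Nat.le_add_right m 1) (mem_PF.mp hc)).2
    rw [hφ'] at hp
    rw [kapH, ker_bdd (DH_mem _ _) (NK_mem _ _) (fun v hv => (Cn_wf le_rfl v hv).le) (b + c) (by
      rw [map_add]
      omega)]
    rfl
  · refine rel_sol (Rel.prod _ fun k hk => ?_) (Rel.prod _ fun k hk => ?_) (tau_one m)
      (ker_sol (DH_mem _ _) (m + 1)).2
    · have hk' := mem_range.mp hk
      simp only [hD', DH, DK]
      rw [prod_range_succ', prod_mul_distrib, mul_comm (∏ i ∈ range k, binom q _)]
      refine (c1 _).mul (Rel.mul ?_ (Rel.prod _ fun i _ => rel_tau_C m q _))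
      rw [← mul_one (∏ i ∈ range k, binom (1 : R) _)]
      refine Rel.mul (Rel.prod _ fun i hi => ?_) ?_
      · simpa only [CP_one, one_mul] using
          rel_tau_X (show i < m by have := mem_range.mp hi; omega) (1 : R) (ev k)
      · simpa only [CP_one, one_mul] using rel_tau_X0 m (1 : R) (ev k)
    · have hk' := mem_range.mp hk
      simp only [hN', NK]
      rw [prod_mul_distrib, mul_comm]
      refine Rel.mul (Rel.prod _ fun i _ => c1 _) ?_
      cases k with
      | zero => exact Rel.one _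
      | succ k =>
        rw [prod_range_succ', Nat.add_sub_cancel, ← mul_one (∏ i ∈ range k, binom q _)]
        exact Rel.mul (Rel.prod _ fun i hi =>
          rel_tau_X (show i < m by have := mem_range.mp hi; omega) q _) (rel_tau_X0 m q _)
  · rw [tau'_apply]
    split_ifs with h
    · have : 0 ≤ ((m + 1 : ℕ) : ℤ) * d := mul_nonneg (by omega) h
      rw [hφ'] at hp
      rw [SK, ker_bdd (DS_mem _ _) (NS_mem _ _) (fun v hv => (Cn_wf le_rfl v hv).le) b (by omega)]
      rfl
    · rfl
  · refine rel_sol (Rel.prod _ fun k _ => ?_) (Rel.prod _ fun k _ => ?_) tau'_one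
      (ker_sol (DS_mem _ _) (m + 1)).2
    · refine (c2 _).mul (Rel.prod _ fun i _ => (rel_tau'_C q _).mul ?_)
      simpa only [map_one, one_mul] using rel_tau'_X (1 : R) (ev k - ev i)
    · exact Rel.mul (Rel.prod _ fun i _ => c2 _) (Rel.prod _ fun i _ => rel_tau'_X q _)

theorem trace_aux (P : Finset Lat) (u : Lat → LP R)
    (hs : ∀ c ∈ P, (mon c : LP R) ∈ Submodule.span R (u '' P)) (l : Lat → LP R →ₗ[R] R)
    (M : Lat → Lat → R) (h : ∀ c ∈ P, ∀ c' ∈ P, l c' (u c) = ∑ e ∈ P, M c e * (u e).coeff c') :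
    ∑ c ∈ P, l c (mon c) = ∑ c ∈ P, M c c := by
  classical
  choose! N hN using fun c hc => (Submodule.mem_span_image_finset_iff_exists_fun' R).mp (hs c hc)
  set N' : Matrix P P R := Matrix.of fun a b => N a b with hN'
  set M' : Matrix P P R := Matrix.of fun a b => M a b with hM'
  set U' : Matrix P P R := Matrix.of fun a b => (u a).coeff b with hU'
  have h1 : N' * U' = 1 := by
    ext a b
    have h2 := congrArg (fun f : LP R => f.coeff b) (hN a a.2)
    simp only [coeff_sum, Finsupp.finsetSum_apply, coeff_smul_apply, smul_eq_mul, mon,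
      coeff_single, Finsupp.single_apply] at h2
    rw [Matrix.mul_apply, Matrix.one_apply]
    simp only [hN', hU', Matrix.of_apply]
    rw [sum_coe_sort P fun e => N a e * (u e).coeff b, h2]
    exact if_congr Subtype.ext_iff.symm rfl rfl
  have h2 : (N' * (M' * U')).trace = M'.trace := by
    rw [Matrix.trace_mul_comm, mul_assoc, mul_eq_one_comm.mp h1, mul_one]
  rw [← sum_coe_sort P, ← sum_coe_sort P fun c => M c c]
  refine Eq.trans (sum_congr rfl fun a _ => ?_) h2
  rw [Matrix.diag_apply, Matrix.mul_apply, ← hN a a.2, map_sum, ← sum_coe_sort P]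
  refine sum_congr rfl fun e _ => ?_
  rw [map_smul, smul_eq_mul, h e e.2 a a.2, Matrix.mul_apply, ← sum_coe_sort P]
  rfl

/-- A coefficient as a linear map. -/
noncomputable def lc (b : Lat) : LP R →ₗ[R] R :=
  Finsupp.lapply b ∘ₗ (coeffLinearEquiv R).toLinearMap

theorem lc_apply (b : Lat) (f : LP R) : lc b f = f.coeff b := rfl

theorem coeff_pr_E_shf (q : R) {m : ℕ} {d : ℤ} {e : Lat} (he : e ∈ PSet m d) (c : Lat) :
    (pr (kap (C q) X (m + 1)) (E q (m + 1) (shf e))).coeff (shf c) = (E q m e).coeff c := by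
  rw [pr_E_nonneg, coeff_shf_E q m (shf e) le_rfl, if_pos (show shf e 0 = 0 from rfl), tl_shf]
  · refine ⟨fun j _ => ?_, fun j hj => ?_⟩
    · rw [shf_apply]
      split_ifs
      · rfl
      · exact he.1 _
    · rw [shf_apply, if_neg (by omega), he.2.1 _ (by omega)]
  · rw [shf_apply, if_neg (by omega), he.2.1 _ (by omega)]

theorem coeff_pr_E_ne (q : R) {m : ℕ} {d : ℤ} {c β : Lat} (hc : c ∈ PSet m d)
    (hβ : ∀ j, m + 1 ≤ j → β j = 0)
    (h : (pr (kap (C q) X (m + 1)) (E q (m + 1) β)).coeff (shf c) ≠ 0) :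
    ∃ e ∈ PSet m d, shf e = β := by
  by_cases h1 : ∃ j < m + 1, β j < 0
  · rw [pr_E_neg q β h1] at h
    exact absurd rfl h
  · push Not at h1
    rw [pr_E_nonneg q β ⟨h1, fun j hj => hβ j hj.le⟩ (hβ _ le_rfl),
      coeff_shf_E q m _ (h1 0 (by omega))] at h
    split_ifs at h with h2
    · have h3 : tl β ∈ PSet m (dg m (tl β)) := by
        refine ⟨fun j => ?_, fun j hj => hβ _ (by omega), rfl⟩
        by_cases h4 : j < m
        · exact h1 _ (by omega)
        · exact (hβ _ (by omega)).ge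
      have h4 : c ∈ PSet m (dg m (tl β)) := by
        by_contra h5
        exact h (E_mem_PSet q h3 c h5)
      exact ⟨tl β, by rwa [← hc.2.2, h4.2.2], shf_tl h2⟩
    · exact absurd rfl h

theorem add_ones_mem {m : ℕ} {d : ℤ} {c : Lat} (hc : c ∈ PSet m d) :
    c + ones (m + 1) ∈ PSet (m + 1) (d + (m + 1)) := by
  refine ⟨fun j => ?_, fun j hj => ?_, ?_⟩
  · have := hc.1 j
    simp only [Pi.add_apply, ones]
    split_ifs <;> omega
  · rw [Pi.add_apply, hc.2.1 j (by omega), ones, if_neg (by omega), add_zero]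
  · simp only [Pi.add_apply, sum_add_distrib]
    rw [sum_range_succ, hc.2.2, hc.2.1 m le_rfl, add_zero,
      sum_congr rfl (f := ones (m + 1)) (g := fun _ => 1) fun j hj => if_pos (mem_range.mp hj)]
    simp

theorem trace_gg {q : R} (hq : q ≠ 0) (m : ℕ) (d j : ℤ) :
    ∑ c ∈ PF m d, (pr (kap (C q) X (m + 1)) (mon (ones (m + 1) + c) * gg q (m + 1) j)).coeff
      (shf c) = ∑ c ∈ PF m d, co q (m + 1) j (c + ones (m + 1)) (shf c) := by
  have := trace_aux (PF m d) (E q m) (fun c hc => by
      rw [PF, Set.Finite.coe_toFinset]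
      exact mon_mem_span q (mem_PF.mp hc))
    (fun c => lc (shf c) ∘ₗ pr (kap (C q) X (m + 1)) ∘ₗ
      LinearMap.mulLeft R (mon (ones (m + 1)) * gg q (m + 1) j))
    (fun c e => co q (m + 1) j (c + ones (m + 1)) (shf e)) (fun c hc c' hc' => ?_)
  · rw [← this]
    refine sum_congr rfl fun c _ => ?_
    rw [LinearMap.comp_apply, LinearMap.comp_apply, LinearMap.mulLeft_apply, lc_apply, mon_add,
      mul_right_comm]
  · rw [mem_PF] at hc hc'
    have h1 := add_ones_mem hc
    have h2 := PSet_nonneg h1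
    rw [← Int.toNat_of_nonneg h2] at h1
    have h3 := pieri_nonneg hq m j _ _ h1
    rw [E_add_symm q (ones_symm _), E_succ q c fun l _ => by
      rw [hc.2.1 m le_rfl]
      exact hc.1 l] at h3
    rw [LinearMap.comp_apply, LinearMap.comp_apply, LinearMap.mulLeft_apply, mul_right_comm,
      mul_comm, h3, AA, lin, ← LinearMap.comp_apply, map_finsum _ (fin_smul (co_finite _ _ _ _) _),
      finsum_eq_sum_of_support_subset (s := (PF m d).map ⟨shf, shf_injective⟩), sum_map]
    · refine sum_congr rfl fun e he => ?_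
      rw [map_smul, smul_eq_mul, LinearMap.comp_apply, lc_apply]
      exact congrArg _ (coeff_pr_E_shf q (mem_PF.mp he) c')
    · intro β hβ
      rw [Function.mem_support, map_smul, smul_eq_mul, LinearMap.comp_apply, lc_apply] at hβ
      have h4 : c + ones (m + 1) - β ∈ PSet (m + 1) j := by
        by_contra h5
        exact left_ne_zero_of_mul hβ (ind_neg h5 _)
      obtain ⟨e, he, rfl⟩ := coeff_pr_E_ne q hc' (fun l hl => by
        have h5 := h4.2.1 l hl
        rw [Pi.sub_apply, h1.2.1 l hl] at h5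
        omega) (right_ne_zero_of_mul hβ)
      exact mem_coe.mpr (mem_map_of_mem _ (mem_PF.mpr he))

/-- Reversed Dyck sequences. -/
def DySet (m : ℕ) : Set Lat :=
  {c | (∀ j, 0 ≤ c j) ∧ (∀ j, m ≤ j → c j = 0) ∧ ∀ j, c j ≤ c (j + 1) + 1}

/-- The diagonal inversion statistic of a reversed sequence. -/
def dv (n : ℕ) (c : Lat) : ℤ := pS n fun i j => if c j = c i ∨ c j = c i + 1 then 1 else 0

theorem st_dyck {m : ℕ} {c : Lat} (hc : c ∈ DySet m) :
    st (m + 1) (c + ones (m + 1)) (shf c) = dv (m + 1) c := by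
  have h0 := hc.2.1 m le_rfl
  have s0 : shf c 0 = 0 := rfl
  have s1 : ∀ j, shf c (j + 1) = c j := fun j => by simp [shf_apply]
  have a1 : ∀ j < m + 1, (c + ones (m + 1)) j = c j + 1 := fun j hj => by
    rw [Pi.add_apply, ones, if_pos hj]
  have e1 : pS (m + 1) (fun i j => min ((c + ones (m + 1)) i + 1) ((c + ones (m + 1)) j)) =
      pS (m + 1) fun i j => min (c i + 2) (c j + 1) := pS_congr fun a b h1 h2 => by
    rw [a1 a (by omega), a1 b h2, add_assoc]
    rfl
  have e2 : pS (m + 1) (fun i j => max (shf c i) (shf c j)) =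
      pS (m + 1) fun i j => max (c i) (c j) := by
    rw [pS_succ', pS_succ]
    simp only [s0, s1, h0, max_comm]
  have e3 : pS (m + 1) (fun i j => max (shf c i - (c + ones (m + 1)) j) 0) =
      pS (m + 1) fun i j => max (c i - c j - 1) 0 := by
    refine sum_congr rfl fun b hb => ?_
    cases b with
    | zero => rfl
    | succ b =>
      rw [sum_range_succ', sum_range_succ]
      have := hc.1 (b + 1)
      have := hc.2.2 b
      simp only [s0, s1, sub_sub, a1 _ (mem_range.mp hb)]
      omega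
  have e4 : pS (m + 1) (fun i j => max (shf c j - (c + ones (m + 1)) i - 1) 0) =
      pS (m + 1) fun i j => max (c j - c i - 2) 0 := by
    have e5 : ∑ a ∈ range m, max (c m - c a - 2) 0 = 0 :=
      sum_eq_zero fun a _ => by have := hc.1 a; omega
    rw [pS_succ m fun i j => max (c j - c i - 2) 0, e5, add_zero, pS, pS, sum_range_succ',
      sum_range_zero, add_zero]
    refine sum_congr rfl fun b hb => ?_
    have hb' := mem_range.mp hb
    rw [sum_range_succ, s1, a1 b (by omega), show max (c b - (c b + 1) - 1) 0 = 0 by omega,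
      add_zero]
    refine sum_congr rfl fun a ha => ?_
    rw [a1 a (by have := mem_range.mp ha; omega)]
    omega
  rw [st_eq, e1, e2, e3, e4, ← pS_sub, ← pS_add, ← pS_add]
  refine pS_congr fun a b _ _ => ?_
  split_ifs <;> omega

theorem mem_DySet_iff {m : ℕ} {d j : ℤ} {c : Lat} (hc : c ∈ PSet m d) :
    c + ones (m + 1) - shf c ∈ PSet (m + 1) j ↔ c ∈ DySet m ∧ j = m + 1 := by
  have h1 : ∑ l ∈ range (m + 1), (c + ones (m + 1) - shf c) l = m + 1 := by
    simp only [Pi.sub_apply, sum_sub_distrib]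
    rw [(add_ones_mem hc).2.2, sum_range_succ']
    simp only [shf_apply, Nat.add_sub_cancel, if_true, Nat.succ_ne_zero, if_false, hc.2.2]
    ring
  constructor
  · rintro ⟨h2, -, h3⟩
    refine ⟨⟨hc.1, hc.2.1, fun l => ?_⟩, by rw [← h3, h1]⟩
    have := h2 (l + 1)
    simp only [Pi.sub_apply, Pi.add_apply, ones, shf_apply, Nat.add_sub_cancel, Nat.succ_ne_zero,
      if_false] at this
    split_ifs at this <;> omega
  · rintro ⟨h2, rfl⟩
    refine ⟨fun l => ?_, fun l hl => ?_, h1⟩
    · have e1 := hc.1 l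
      have e2 := h2.2.2 (l - 1)
      have e3 := hc.2.1 (l - 1)
      simp only [Pi.sub_apply, Pi.add_apply, ones, shf_apply]
      split_ifs with h3 h4 h5
      · omega
      · rw [show l - 1 + 1 = l by omega] at e2
        omega
      · omega
      · have := e3 (by omega)
        omega
    · simp only [Pi.sub_apply, Pi.add_apply, ones, shf_apply]
      rw [if_neg (by omega), if_neg (by omega), hc.2.1 _ (by omega), hc.2.1 _ (by omega)]
      rfl

theorem coeff_SK {q : R} (hq : q ≠ 0) (m d : ℕ) :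
    (SK (Polynomial.C q) Polynomial.X (m + 1) (ones (m + 1))).coeff d =
      ∑ c ∈ PF m d, ind (c ∈ DySet m) (q ^ dv (m + 1) c) := by
  have h1 := congrFun (tau_kapH q m) (ones (m + 1), (d : ℤ))
  rw [tau'_apply, if_pos (by omega), Int.toNat_natCast, tau_apply] at h1
  have h2 : ∀ c ∈ PF m d, ((kapH (CP q) XP (m + 1) (ones (m + 1) + c) : Pol R) : LP R) =
      ∑ j ∈ Icc (0 : ℤ) (d + (m + 1)),
        pr (kap (C q) X (m + 1)) (mon (ones (m + 1) + c) * gg q (m + 1) j) := by
    intro c hc
    rw [← kapH_eq hq m _ (by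
      rw [add_comm (ones _)]
      exact (add_ones_mem (mem_PF.mp hc)).2.2.le)]
    exact kapH_map (Pol R).subtype _ _ _ _
  rw [← h1, sum_congr rfl fun c hc => by rw [h2 c hc, coeff_sum, Finsupp.finsetSum_apply],
    sum_comm, sum_congr rfl fun j _ => trace_gg hq m d j, sum_comm]
  refine sum_congr rfl fun c hc => ?_
  have h3 := fun j => mem_DySet_iff (j := j) (mem_PF.mp hc)
  simp only [co]
  rw [sum_eq_single_of_mem (m + 1 : ℤ) (mem_Icc.mpr ⟨by omega, by omega⟩) fun j _ hj =>
    ind_neg (fun h => hj ((h3 j).mp h).2) _]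
  by_cases h4 : c ∈ DySet m
  · rw [ind_pos ((h3 _).mpr ⟨h4, rfl⟩), ind_pos h4, st_dyck h4]
  · rw [ind_neg fun h => h4 ((h3 _).mp h).1, ind_neg h4]

theorem DySet_finite (m : ℕ) : (DySet m).Finite := by
  refine (Set.Finite.biUnion (Set.finite_Icc (0 : ℤ) (m * m))
    fun d _ => PSet_finite m d).subset fun c hc => ?_
  have h1 : ∀ r j, j + r = m → c j ≤ r := by
    intro r
    induction r with
    | zero => exact fun j hj => (hc.2.1 j (by omega)).le
    | succ r ih =>
      intro j hj
      have := ih (j + 1) (by omega)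
      have := hc.2.2 j
      push_cast
      omega
  refine Set.mem_biUnion (x := ∑ j ∈ range m, c j) ⟨sum_nonneg fun j _ => hc.1 j, ?_⟩
    ⟨hc.1, hc.2.1, rfl⟩
  have h2 := sum_le_card_nsmul (range m) c (m : ℤ) fun j hj => by
    have := mem_range.mp hj
    have := h1 (m - j) j (by omega)
    omega
  simpa using h2

/-- Reversed Dyck sequences as a finite set. -/
noncomputable def Dy (m : ℕ) : Finset Lat := (DySet_finite m).toFinset

theorem mem_Dy {m : ℕ} {c : Lat} : c ∈ Dy m ↔ c ∈ DySet m := Set.Finite.mem_toFinset _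

theorem SK_ones {q : R} (hq : q ≠ 0) (t : R) (m : ℕ) : SK q t (m + 1) (ones (m + 1)) =
    ∑ c ∈ Dy m, q ^ dv (m + 1) c * t ^ dg m c := by
  classical
  have h1 : SK (Polynomial.C q) Polynomial.X (m + 1) (ones (m + 1)) =
      ∑ c ∈ Dy m, Polynomial.monomial (dg m c).toNat (q ^ dv (m + 1) c) := by
    ext d
    simp only [coeff_SK hq, Polynomial.finsetSum_coeff, Polynomial.coeff_monomial, ind]
    rw [← sum_filter, ← sum_filter]
    refine sum_congr ?_ fun _ _ => rfl
    ext c
    simp only [mem_filter, mem_PF, mem_Dy]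
    constructor
    · rintro ⟨h1, h2⟩
      exact ⟨h2, by rw [dg_apply, h1.2.2, Int.toNat_natCast]⟩
    · rintro ⟨h1, h2⟩
      refine ⟨⟨h1.1, h1.2.1, ?_⟩, h1⟩
      rw [← h2, dg_apply, Int.toNat_of_nonneg (sum_nonneg fun j _ => h1.1 j)]
  have h2 := SK_map (Polynomial.evalRingHom t) (Polynomial.C q) Polynomial.X (m + 1)
    (ones (m + 1))
  simp only [h1, Polynomial.coe_evalRingHom, Polynomial.eval_C, Polynomial.eval_X,
    Polynomial.eval_finsetSum, Polynomial.eval_monomial] at h2
  rw [← h2]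
  refine sum_congr rfl fun c hc => ?_
  rw [← zpow_natCast, dg_apply, Int.toNat_of_nonneg (sum_nonneg fun j _ => (mem_Dy.mp hc).1 j)]

end Pool.Agent.Lib.MP_0bb0c3_co
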