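import Pool.Agent.Lib.MP_0bb0c3_co.Wall
import Pool.Agent.Lib.MP_0bb0c3_co.Trace

/-! Vanishing of the coefficients of `(q - t) C(q, t)` in a cone. -/

open AddMonoidAlgebra Finset

namespace Pool.Agent.Lib.MP_0bb0c3_co

/-- A linear form on the plane lattice. -/
def lv (α β : ℤ) : G →+ ℤ where
  toFun m := α * m.1 + β * m.2
  map_zero' := by simp
  map_add' a b := by
    simp only [Prod.fst_add, Prod.snd_add]
    ring

theorem lv_apply (α β : ℤ) (m : G) : lv α β m = α * m.1 + β * m.2 := rfl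

theorem adj_grid (n : ℕ) (k : ℤ) {ε : ℤ} (hε : ε = 1 ∨ ε = -1) :
    Adj n (-lv (2 * n.factorial) (2 * (n.factorial + k) + ε))
      (-lv n.factorial (n.factorial + k)) := by
  rintro ⟨a, b⟩ hs hm
  have hN : (0 : ℤ) < n.factorial := Nat.cast_pos.mpr n.factorial_pos
  have h1 : b ≠ 0 → b ∣ n.factorial * a + (n.factorial + k) * b := fun hb => by
    refine dvd_add (Dvd.dvd.mul_right ?_ _) (dvd_mul_left _ _)
    refine Int.natAbs_dvd.mp (Int.natCast_dvd_natCast.mpr (Nat.dvd_factorial (by omega) ?_))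
    have := hs.2
    omega
  have h2 : n.factorial * a + (n.factorial + k) * b = 0 → b ≠ 0 := by
    rintro h rfl
    rw [mul_zero, add_zero, mul_eq_zero] at h
    exact hm (Prod.ext (h.resolve_left hN.ne') rfl)
  simp only [AddMonoidHom.neg_apply, lv_apply]
  have h3 : 2 * n.factorial * a + (2 * (n.factorial + k) + ε) * b =
      2 * (n.factorial * a + (n.factorial + k) * b) + ε * b := by ring
  rw [h3]
  generalize n.factorial * a + (n.factorial + k) * b = u at h1 h2
  have h4 : b ≠ 0 → u ≠ 0 → b.natAbs ≤ u.natAbs := fun hb hu =>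
    Int.natAbs_le_of_dvd_ne_zero (h1 hb) hu
  rcases hε with rfl | rfl <;> omega

theorem Adj.scale {n : ℕ} {φ ψ ψ' : G →+ ℤ} (h : Adj n φ ψ) {c : ℤ} (hc : 0 < c)
    (e : ∀ m, ψ m = c * ψ' m) : Adj n φ ψ' := fun m hs hm =>
  (h m hs hm).imp (fun h1 => ⟨h1.1, nonneg_of_mul_nonneg_right (e m ▸ h1.2) hc⟩)
    fun h1 => ⟨h1.1, nonpos_of_mul_nonpos_right (e m ▸ h1.2) hc⟩

/-- `σ` is the identity or the exchange of coordinates. -/
def Sy (σ : G →+ G) : Prop := (∀ c, σ c = c) ∨ ∀ c, σ c = c.swap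

theorem Adj.comp {n : ℕ} {φ ψ : G →+ ℤ} (h : Adj n (-φ) (-ψ)) {σ : G →+ G} (hσ : Sy σ) :
    Adj n (-φ.comp σ) (-ψ.comp σ) := by
  intro m hs hm
  refine h (σ m) ?_ ?_
  · rcases hσ with e | e <;> rw [e]
    exacts [hs, hs.symm]
  · rcases hσ with e | e <;> rw [e]
    exacts [hm, fun h1 => hm (Prod.swap_injective h1)]

theorem Sy.tab {σ : G →+ G} (hσ : Sy σ) {n : ℕ} {z : ℕ → G} (h : Tab n z) :
    Tab n fun i => σ (z i) := by
  rcases hσ with e | e <;> simp only [e]
  exacts [h, h.swap]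

theorem Sy.Dg_le {σ : G →+ G} (hσ : Sy σ) (α β : ℤ) (m : ℕ) (z : ℕ → G) :
    Dg ((lv α β).comp σ) (m + 1) z ≤ UB α β m fun i => α * (σ (z i)).1 + β * (σ (z i)).2 := by
  have := MP_0bb0c3_co.Dg_le ((lv α β).comp σ) m z
  rcases hσ with e | e
  · simpa [e, lv_apply] using this
  · rw [UB_comm]
    simpa [e, lv_apply] using this

/-- The difference of the two variables. -/
noncomputable def qt : BB := single (1, 0) 1 - single (0, 1) 1

theorem bdd_qt {ℓ : G →+ ℤ} {c : ℤ} (h1 : ℓ (1, 0) ≤ c) (h2 : ℓ (0, 1) ≤ c) :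
    Bdd (-ℓ) (-c) qt.coeff := by
  rw [qt, coeff_sub, Finsupp.coe_sub]
  exact ((bdd_single _ _ _).mono (neg_le_neg h1)).sub ((bdd_single _ _ _).mono (neg_le_neg h2))

variable {K : Type} [Field K] {ι : BB →+* K}

section

variable (hι : Function.Injective ι) {m : ℕ} {κ : Type} {t : Finset κ} {z : κ → ℕ → G}
  (hv : ∀ T ∈ t, Val (m + 1) (z T))
  (hS : ∀ b : ℕ → ℕ, ∃ N, ∑ T ∈ t, (wt (chi ι) (m + 1) (z T) *
    ∏ i ∈ range (m + 1), chi ι (z T i)) * ∏ i ∈ range (m + 1), chi ι (z T i) ^ b i = ι N)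
  {r : ℤ} (hr : 2 * (m + 1 : ℕ) ≤ 3 * r)

include hι hv hS hr

theorem chain {σ : G →+ G} (hσ : Sy σ) {p : G}
    (hp : (m + 1) * m + 4 ≤ 2 * ((σ p).1 + 2 * (σ p).2)) :
    Van ι (-(lv (2 * (m + 1).factorial) (2 * ((m + 1).factorial + 0) + 1)).comp σ) p
      (∑ T ∈ t, (wt (chi ι) (m + 1) (z T) * ∏ i ∈ range (m + 1), chi ι (z T i)) *
        ind (In (m + 1) (fun i => σ (z T i)) (r, 0)) (ι qt)) := by
  have hN : (0 : ℤ) < (m + 1).factorial := Nat.cast_pos.mpr (m + 1).factorial_pos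
  have key : ∀ k : ℤ, k ≤ (m + 1).factorial - 1 → 0 ≤ k →
      Van ι (-(lv (2 * (m + 1).factorial) (2 * ((m + 1).factorial + k) + 1)).comp σ) p
      (∑ T ∈ t, (wt (chi ι) (m + 1) (z T) * ∏ i ∈ range (m + 1), chi ι (z T i)) *
        ind (In (m + 1) (fun i => σ (z T i)) (r, 0)) (ι qt)) := by
    intro k hk
    induction k, hk using Int.leInductionDown with
    | base =>
      intro _
      refine Van.sum fun T hT => ?_
      by_cases h : In (m + 1) (fun i => σ (z T i)) (r, 0)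
      · have h1 := (adj_grid (m + 1) (m + 1).factorial (Or.inr rfl)).scale (ψ' := -lv 1 2) hN
          fun c => by
            simp only [AddMonoidHom.neg_apply, lv_apply]
            ring
        rw [show 2 * (((m + 1).factorial : ℤ) + (m + 1).factorial) + -1 =
          2 * ((m + 1).factorial + ((m + 1).factorial - 1)) + 1 by ring] at h1
        rw [ind_pos h]
        refine ((nice_wt hι (h1.comp hσ) (hv T hT)).mul (Nice.poly _ (bdd_qt (c := 2) ?_ ?_))).van ?_
        · rcases hσ with e | e <;> simp [e, lv_apply]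
        · rcases hσ with e | e <;> simp [e, lv_apply]
        · have h2 := hσ.Dg_le 1 2 m (z T)
          have h3 := (hσ.tab (hv T hT).tab).row_bound h hr
          simp only [one_mul] at h2
          simp only [AddMonoidHom.neg_apply, AddMonoidHom.comp_apply, lv_apply]
          omega
      · rw [ind_neg h, mul_zero]
        exact Van.zero _ _
    | pred k hk ih =>
      intro h0
      have h1 := (adj_grid (m + 1) k (Or.inr rfl)).comp hσ
      rw [show 2 * (((m + 1).factorial : ℤ) + k) + -1 =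
        2 * ((m + 1).factorial + (k - 1)) + 1 by ring] at h1
      refine wall hι (fun T hT => (hv T hT).tab) hS ((adj_grid (m + 1) k (Or.inl rfl)).comp hσ) h1
        (fun T hT => ?_) (ih (by omega))
      have h2 : ∀ T' ∈ t, (∀ i < m + 1, (-(lv (m + 1).factorial ((m + 1).factorial + k)).comp σ)
          (z T i) = (-(lv (m + 1).factorial ((m + 1).factorial + k)).comp σ) (z T' i)) →
          (In (m + 1) (fun i => σ (z T i)) (r, 0) ↔ In (m + 1) (fun i => σ (z T' i)) (r, 0)) := by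
        intro T' hT' e
        simp only [AddMonoidHom.neg_apply, AddMonoidHom.comp_apply, lv_apply, neg_inj] at e
        have e1 := hσ.tab (hv T hT).tab
        have e2 := hσ.tab (hv T' hT').tab
        exact ⟨fun h => e1.closed e2 hN (by omega) (by omega) e h hr,
          fun h => e2.closed e1 hN (by omega) (by omega) (fun i hi => (e i hi).symm) h hr⟩
      by_cases h : In (m + 1) (fun i => σ (z T i)) (r, 0)
      · exact ⟨0, by omega, 0, by omega, 0, 0, qt, fun T' hT' e => by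
          rw [ind_pos ((h2 T' hT' e).mp h), map_zero, zero_mul, add_zero, zero_add]⟩
      · exact ⟨0, by omega, 0, by omega, 0, 0, 0, fun T' hT' e => by
          rw [ind_neg fun h' => h ((h2 T' hT' e).mpr h'), map_zero, zero_mul, add_zero, zero_add]⟩
  exact key 0 (by omega) le_rfl

theorem cross_one {φ φ' : G →+ ℤ} (h : Adj (m + 1) φ (-lv 1 1)) (h' : Adj (m + 1) φ' (-lv 1 1))
    {p : G} (hp : Van ι φ p (∑ T ∈ t, (wt (chi ι) (m + 1) (z T) *
      ∏ i ∈ range (m + 1), chi ι (z T i)) * ind (In (m + 1) (z T) (0, r)) (ι qt))) :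
    Van ι φ' p (∑ T ∈ t, (wt (chi ι) (m + 1) (z T) *
      ∏ i ∈ range (m + 1), chi ι (z T i)) * ind (In (m + 1) (z T) (0, r)) (ι qt)) := by
  have hχ := chr_chi hι
  refine wall hι (fun T hT => (hv T hT).tab) hS h h' (fun T hT => ?_) hp
  simp only [AddMonoidHom.neg_apply, lv_apply, neg_inj, one_mul]
  by_cases h1 : ∃ T₀ ∈ t, (∀ i < m + 1, (z T i).1 + (z T i).2 = (z T₀ i).1 + (z T₀ i).2) ∧
      In (m + 1) (z T₀) (0, r)
  · obtain ⟨T₀, hT₀, e₀, h1⟩ := h1
    obtain ⟨j, hj, e2⟩ := (hv T₀ hT₀).tab.in_down h1 (by omega)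
    obtain ⟨i, hi, e1⟩ := h1
    refine ⟨i, hi, j, hj, -single (0, 1 - r) 1, single (1, 1 - r) 1, 0, fun T' hT' e => ?_⟩
    have h2 := (hv T₀ hT₀).tab.swap.slope (hv T' hT').tab.swap hi hj (r := r) (fun l hl => by
      have := e₀ l hl
      have := e l hl
      simp only [Prod.fst_swap, Prod.snd_swap]
      omega) (by simp only [e1]; rfl) (by simp only [e2]; rfl) hr
    simp only [Prod.swap_eq_iff_eq_swap, Prod.swap_prod_mk] at h2
    rw [map_neg, map_zero, add_zero, neg_mul, ← chi, ← chi, ← hχ.add, ← hχ.add]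
    rcases h2 with ⟨h3, h4⟩ | ⟨h3, h4⟩
    · rw [ind_pos ⟨i, hi, h3⟩, h3, h4, qt, map_sub, ← chi, ← chi]
      simp only [Prod.mk_add_mk, add_zero, sub_add_cancel, sub_add_sub_cancel, sub_self]
      ring
    · rw [ind_neg fun h5 => (hv T' hT').tab.disj ⟨i, hi, h3⟩ h5 hr (by omega), h3, h4]
      simp only [Prod.mk_add_mk, add_zero, zero_add, add_sub_cancel]
      ring
  · exact ⟨0, by omega, 0, by omega, 0, 0, 0, fun T' hT' e => by
      rw [ind_neg fun h' => h1 ⟨T', hT', e, h'⟩, map_zero, zero_mul, add_zero, zero_add]⟩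

theorem van_total (hr' : 3 * r < 2 * (m + 1 : ℕ) + 3) {p : G}
    (h1 : (m + 1) * m + 4 ≤ 2 * (p.1 + 2 * p.2)) (h2 : (m + 1) * m + 4 ≤ 2 * (p.2 + 2 * p.1))
    (h3 : p.1 ≠ p.2) : ∃ φ, Van ι φ p (∑ T ∈ t, (wt (chi ι) (m + 1) (z T) *
      ∏ i ∈ range (m + 1), chi ι (z T i)) * ι qt) := by
  have hN : (0 : ℤ) < (m + 1).factorial := Nat.cast_pos.mpr (m + 1).factorial_pos
  have s1 : Sy (AddMonoidHom.id G) := Or.inl fun _ => rfl
  have s2 : Sy (AddEquiv.prodComm : G ≃+ G).toAddMonoidHom := Or.inr fun _ => rfl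
  have a0 := (adj_grid (m + 1) 0 (Or.inl rfl)).scale (ψ' := -lv 1 1) hN fun c => by
    simp only [AddMonoidHom.neg_apply, lv_apply]
    ring
  have a1 : Adj (m + 1) _ (-lv 1 1) := a0.comp s1
  have a2 := (a0.comp s2).scale (ψ' := -lv 1 1) one_pos fun c => by
    show -(1 * c.2 + 1 * c.1) = 1 * -(1 * c.1 + 1 * c.2)
    ring
  have v1 := chain hι hv hS hr s1 (p := p) h1
  have v2 := chain hι hv hS hr s2 (p := p) h2
  have e2 : ∀ T, In (m + 1) (fun i => (AddEquiv.prodComm : G ≃+ G).toAddMonoidHom (z T i)) (r, 0) =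
      In (m + 1) (z T) (0, r) := fun T => propext in_swap
  simp only [e2] at v2
  have v3 := cross_one hι hv hS hr a2 a1 v2
  have v4 : Van ι _ p (∑ T ∈ t, (wt (chi ι) (m + 1) (z T) * ∏ i ∈ range (m + 1), chi ι (z T i)) *
      ind (¬In (m + 1) (z T) (r, 0) ∧ ¬In (m + 1) (z T) (0, r)) (ι qt)) := Van.sum fun T hT => by
    by_cases h : ¬In (m + 1) (z T) (r, 0) ∧ ¬In (m + 1) (z T) (0, r)
    · rw [ind_pos h]
      refine ((nice_wt hι a1 (hv T hT)).mul (Nice.poly _ (bdd_qt (c := 1) ?_ ?_))).van ?_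
      · simp [lv_apply]
      · simp [lv_apply]
      · have h4 := s1.Dg_le 1 1 m (z T)
        have h5 := (hv T hT).tab.mid_bound h.1 h.2 hr' (by omega)
        simp only [one_mul, AddMonoidHom.id_apply, AddMonoidHom.comp_id] at h4
        simp only [AddMonoidHom.neg_apply, lv_apply]
        omega
    · rw [ind_neg h, mul_zero]
      exact Van.zero _ _
  refine ⟨_, (congrArg (Van ι _ p) ?_).mp ((v1.add v3).add v4)⟩
  rw [← sum_add_distrib, ← sum_add_distrib]
  refine sum_congr rfl fun T hT => ?_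
  rw [← mul_add, ← mul_add]
  congr 1
  show ind (In (m + 1) (z T) (r, 0)) _ + _ + _ = _
  by_cases c1 : In (m + 1) (z T) (r, 0) <;> by_cases c2 : In (m + 1) (z T) (0, r)
  · exact ((hv T hT).tab.disj c1 c2 hr (by omega)).elim
  · rw [ind_pos c1, ind_neg c2, ind_neg fun h => h.1 c1, add_zero, add_zero]
  · rw [ind_neg c1, ind_pos c2, ind_neg fun h => h.2 c2, add_zero, zero_add]
  · rw [ind_neg c1, ind_neg c2, ind_pos ⟨c1, c2⟩, zero_add, zero_add]

end

/-- The polynomial given by the main kernel. -/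
noncomputable def Cat (n : ℕ) : BB := SK (single (1, 0) 1) (single (0, 1) 1) n (ones n)

theorem SK_fixed {A : Type*} [CommRing A] (h : A →+* A) {q t : A} (h1 : h q = t) (h2 : h t = q)
    (n : ℕ) (b : Lat) : h (SK q t n b) = SK q t n b := by
  rw [SK_map, h1, h2, SK_comm]

theorem Cat_symm (n : ℕ) (a b : ℤ) : (Cat n).coeff (a, b) = (Cat n).coeff (b, a) := by
  have h : domCongr ℤ ℤ (AddEquiv.prodComm : G ≃+ G) (Cat n) = Cat n :=
    SK_fixed (domCongr ℤ ℤ (AddEquiv.prodComm : G ≃+ G)).toRingEquiv.toRingHom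
      (q := single (1, 0) 1) (t := single (0, 1) 1) (domCongr_single (R := ℤ) _ _ _)
      (domCongr_single (R := ℤ) _ _ _) n (ones n)
  exact (congrArg (fun f : BB => f.coeff (a, b)) h).symm.trans (coeff_domCongr _ _ _)

theorem Chr.zsmul {χ : G → K} (h : Chr χ) (k : ℤ) (v : G) : χ (k • v) = χ v ^ k := by
  induction k using Int.induction_on with
  | zero => rw [zero_smul, zpow_zero, h.zero]
  | succ k ih => rw [add_smul, one_smul, h.add, ih, zpow_add_one₀ (h.ne_zero v)]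
  | pred k ih => rw [sub_smul, one_smul, h.sub, ih, zpow_sub_one₀ (h.ne_zero v), div_eq_mul_inv]

theorem Cat_eq (m : ℕ) : Cat (m + 1) = ∑ c ∈ Dy m, single (dv (m + 1) c, dg m c) 1 := by
  have hι := IsFractionRing.injective BB (FractionRing BB)
  have hχ := chr_chi hι
  apply hι
  rw [Cat, SK_map, ← chi, ← chi, SK_ones (hχ.ne_zero _), map_sum]
  refine sum_congr rfl fun c _ => ?_
  rw [← hχ.zsmul, ← hχ.zsmul, ← hχ.add, chi]
  simp

theorem Cat_step (m : ℕ) {a b : ℤ} (h1 : (m + 1) * m + 4 ≤ 2 * (a + 2 * b))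
    (h2 : (m + 1) * m + 4 ≤ 2 * (b + 2 * a)) :
    (Cat (m + 1)).coeff (a - 1, b) = (Cat (m + 1)).coeff (a, b - 1) := by
  by_cases h3 : a = b
  · rw [h3, Cat_symm]
  have hι := IsFractionRing.injective BB (FractionRing BB)
  obtain ⟨κ, t, z, hv, hs⟩ := syt (chr_chi hι) (m + 1)
  have hS : ∀ b : ℕ → ℕ, ∑ T ∈ t, (wt (chi (algebraMap BB (FractionRing BB))) (m + 1) (z T) *
      ∏ i ∈ range (m + 1), chi (algebraMap BB (FractionRing BB)) (z T i)) *
      ∏ i ∈ range (m + 1), chi (algebraMap BB (FractionRing BB)) (z T i) ^ b i =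
      algebraMap BB (FractionRing BB) (SK (single (1, 0) 1) (single (0, 1) 1) (m + 1)
        fun i => if i < m + 1 then b i + 1 else 0) := by
    intro b
    rw [SK_map, ← chi, ← chi, hs (fun i => if i < m + 1 then b i + 1 else 0)
      ⟨fun i hi => by simp only [if_pos hi]; omega, fun i hi => if_neg (by omega)⟩
      (if_neg (lt_irrefl _))]
    refine sum_congr rfl fun T _ => ?_
    rw [mul_assoc, ← prod_mul_distrib, zpw]
    congr 1
    refine prod_congr rfl fun i hi => ?_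
    rw [if_pos (mem_range.mp hi), ← pow_succ']
    rfl
  obtain ⟨φ, h4⟩ := van_total hι hv (fun b => ⟨_, hS b⟩) (r := (2 * (m + 1 : ℕ) + 2) / 3)
    (by omega) (by omega) (p := (a, b)) h1 h2 h3
  have h5 := hS 0
  simp only [Pi.zero_apply, pow_zero, prod_const_one, mul_one, Nat.cast_zero, zero_add] at h5
  rw [← sum_mul, h5, ← map_mul, mul_comm] at h4
  have h6 := h4.poly hι
  rw [← act_coeff, qt, act_sub, Pi.sub_apply, act_single, act_single, one_mul, one_mul,
    Prod.mk_sub_mk, Prod.mk_sub_mk, sub_zero, sub_zero, sub_eq_zero] at h6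
  exact h6

end Pool.Agent.Lib.MP_0bb0c3_co
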