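import Pool.Agent.Lib.MP_0bb0c3_co.Rot

/-! The Pieri rule for complete homogeneous functions in the inverse variables. -/

open AddMonoidAlgebra Finset

namespace Pool.Agent.Lib.MP_0bb0c3_co

variable {R : Type} [Field R]

/-- The finite set of exponents of degree `d` in the first `n` variables. -/
noncomputable def PFin (n d : ℕ) : Finset Lat :=
  (piAntidiag (range n) d).map ⟨fun c j => (c j : ℤ), fun _ _ h => funext fun j =>
    Int.ofNat_injective (congrFun h j)⟩

theorem mem_PFin {n d : ℕ} {c : Lat} : c ∈ PFin n d ↔ c ∈ PSet n d := by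
  rw [PFin, mem_map]
  constructor
  · rintro ⟨γ, hγ, rfl⟩
    rw [mem_piAntidiag] at hγ
    refine ⟨fun j => Int.natCast_nonneg _, fun j hj => ?_, ?_⟩
    · by_contra h
      have := mem_range.mp (hγ.2 j fun h0 => h (by simp [h0]))
      omega
    · rw [← hγ.1]
      push_cast
      rfl
  · rintro ⟨h1, h2, h3⟩
    have h4 : ∀ j, ((c j).toNat : ℤ) = c j := fun j => Int.toNat_of_nonneg (h1 j)
    refine ⟨fun j => (c j).toNat, mem_piAntidiag.mpr ⟨?_, fun j hj => ?_⟩, funext h4⟩
    · apply Int.ofNat_injective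
      rw [← show (d : ℤ) = Int.ofNat d from rfl, ← h3]
      show ((∑ j ∈ range n, (c j).toNat : ℕ) : ℤ) = _
      push_cast
      exact sum_congr rfl fun j _ => h4 j
    · by_contra h
      exact hj (by rw [h2 j (by simpa using h)]; rfl)

theorem PSet_nonneg {n : ℕ} {d : ℤ} {c : Lat} (h : c ∈ PSet n d) : 0 ≤ d :=
  h.2.2 ▸ sum_nonneg fun j _ => h.1 j

theorem PSet_finite (n : ℕ) (d : ℤ) : (PSet n d).Finite := by
  refine (PFin n d.toNat).finite_toSet.subset fun c hc => ?_
  rw [mem_coe, mem_PFin, Int.toNat_of_nonneg (PSet_nonneg hc)]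
  exact hc

/-- The contribution of a pair of rows. -/
def wt4 (ai aj bi bj : ℤ) : ℤ :=
  min (ai + 1) aj - max bi bj + max (bi - aj) 0 + max (bj - ai - 1) 0

/-- The exponent in the Pieri rule. -/
def st (n : ℕ) (α β : Lat) : ℤ := pS n fun i j => wt4 (α i) (α j) (β i) (β j)

theorem st_eq (n : ℕ) (α β : Lat) : st n α β = pS n (fun i j => min (α i + 1) (α j)) -
    pS n (fun i j => max (β i) (β j)) + pS n (fun i j => max (β i - α j) 0) +
    pS n (fun i j => max (β j - α i - 1) 0) := by
  rw [← pS_sub, ← pS_add, ← pS_add]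
  rfl

theorem st_swp_left {n i : ℕ} (hi : i + 1 < n) (α β : Lat) :
    st n (swp i α) β = st n α β - wt4 (α i) (α (i + 1)) (β i) (β (i + 1)) +
      wt4 (α (i + 1)) (α i) (β i) (β (i + 1)) := by
  have h1 := pS_swap_both hi fun a b => min (α a + 1) (α b)
  have h2 := pS_swap_right hi fun a b => max (β a - α b) 0
  have h3 := pS_swap_left hi fun a b => max (β b - α a - 1) 0
  rw [st_eq, st_eq]
  erw [h1, h2, h3]
  simp only [wt4]
  ring

theorem st_swp_right {n i : ℕ} (hi : i + 1 < n) (α β : Lat) :
    st n α (swp i β) = st n α β - wt4 (α i) (α (i + 1)) (β i) (β (i + 1)) +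
      wt4 (α i) (α (i + 1)) (β (i + 1)) (β i) := by
  have h1 := pS_swap_both hi fun a b => max (β a) (β b)
  have h2 := pS_swap_left hi fun a b => max (β a - α b) 0
  have h3 := pS_swap_right hi fun a b => max (β b - α a - 1) 0
  rw [st_eq, st_eq]
  erw [h1, h2, h3]
  simp only [wt4]
  ring

open Classical in
/-- `x` if `P` holds, and zero otherwise. -/
noncomputable def ind (P : Prop) (x : R) : R := if P then x else 0

theorem ind_pos {P : Prop} (h : P) (x : R) : ind P x = x := if_pos h

theorem ind_neg {P : Prop} (h : ¬P) (x : R) : ind P x = 0 := if_neg h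

/-- The coefficients in the Pieri rule. -/
noncomputable def co (q : R) (n : ℕ) (m : ℤ) (α β : Lat) : R :=
  ind (α - β ∈ PSet n m) (q ^ st n α β)

theorem co_finite (q : R) (n : ℕ) (m : ℤ) (α : Lat) : (Function.support (co q n m α)).Finite := by
  refine ((PSet_finite n m).image fun γ => α - γ).subset fun β hβ => ⟨α - β, ?_, by simp⟩
  by_contra h
  exact hβ (ind_neg h _)

/-- Rank two coefficients. -/
noncomputable def rho (q : R) (a1 a2 b1 b2 : ℤ) : R :=
  if b1 ≤ a1 ∧ b2 ≤ a2 then q ^ wt4 a1 a2 b1 b2 else 0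

/-- The conditions away from the positions `i`, `i + 1`. -/
def Outer (n i : ℕ) (m : ℤ) (α β : Lat) : Prop :=
  (∀ j, j ≠ i → j ≠ i + 1 → β j ≤ α j) ∧ (∀ j, n ≤ j → α j = β j) ∧
    ∑ j ∈ range n, α j - ∑ j ∈ range n, β j = m

theorem Outer_swp_left {n i : ℕ} (hi : i + 1 < n) (m : ℤ) (α β : Lat) :
    Outer n i m (swp i α) β ↔ Outer n i m α β := by
  have h : ∑ j ∈ range n, swp i α j = ∑ j ∈ range n, α j := sum_range_swap hi α
  rw [Outer, Outer, h]
  refine and_congr (forall₃_congr fun j h1 h2 => by rw [swp_of_ne α h1 h2])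
    (and_congr (forall₂_congr fun j hj => by rw [swp_of_ne α (by omega) (by omega)]) Iff.rfl)

theorem Outer_swp_right {n i : ℕ} (hi : i + 1 < n) (m : ℤ) (α β : Lat) :
    Outer n i m α (swp i β) ↔ Outer n i m α β := by
  have h : ∑ j ∈ range n, swp i β j = ∑ j ∈ range n, β j := sum_range_swap hi β
  rw [Outer, Outer, h]
  refine and_congr (forall₃_congr fun j h1 h2 => by rw [swp_of_ne β h1 h2])
    (and_congr (forall₂_congr fun j hj => by rw [swp_of_ne β (by omega) (by omega)]) Iff.rfl)

theorem co_eq {q : R} (hq : q ≠ 0) (n i : ℕ) (m : ℤ) (α β : Lat) : co q n m α β =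
    ind (Outer n i m α β) (q ^ (st n α β - wt4 (α i) (α (i + 1)) (β i) (β (i + 1)))) *
      rho q (α i) (α (i + 1)) (β i) (β (i + 1)) := by
  have h : α - β ∈ PSet n m ↔ Outer n i m α β ∧ β i ≤ α i ∧ β (i + 1) ≤ α (i + 1) := by
    simp only [PSet, Outer, Set.mem_ofPred_eq, Pi.sub_apply, sub_nonneg, sub_eq_zero,
      sum_sub_distrib]
    constructor
    · rintro ⟨h1, h2, h3⟩
      exact ⟨⟨fun j _ _ => h1 j, h2, h3⟩, h1 _, h1 _⟩
    · rintro ⟨⟨h1, h2, h3⟩, h4, h5⟩
      refine ⟨fun j => ?_, h2, h3⟩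
      by_cases h6 : j = i
      · rwa [h6]
      · by_cases h7 : j = i + 1
        · rwa [h7]
        · exact h1 j h6 h7
  rw [co, rho, h]
  by_cases h1 : Outer n i m α β
  · by_cases h2 : β i ≤ α i ∧ β (i + 1) ≤ α (i + 1)
    · rw [ind_pos ⟨h1, h2⟩, ind_pos h1, if_pos h2, ← zpow_add₀ hq, sub_add_cancel]
    · rw [ind_neg fun h3 => h2 h3.2, if_neg h2, mul_zero]
  · rw [ind_neg fun h3 => h1 h3.1, ind_neg h1, zero_mul]

theorem rho_lt {q : R} (hq : q ≠ 0) {a1 a2 b1 b2 : ℤ} (ha : a2 < a1) (hb : b1 < b2) :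
    rho q a2 a1 b1 b2 = rho q a1 a2 b2 b1 + (q - 1) * rho q a1 a2 b1 b2 := by
  simp only [rho]
  by_cases h1 : b2 ≤ a2
  · rw [if_pos (by omega), if_pos (by omega), if_pos (by omega),
      show wt4 a2 a1 b1 b2 = a2 - b2 + 1 by simp only [wt4]; omega,
      show wt4 a1 a2 b2 b1 = a2 - b2 by simp only [wt4]; omega,
      show wt4 a1 a2 b1 b2 = a2 - b2 by simp only [wt4]; omega, zpow_add_one₀ hq]
    ring
  · rw [if_neg (show ¬(b1 ≤ a1 ∧ b2 ≤ a2) by omega), mul_zero, add_zero]
    by_cases h2 : b1 ≤ a2 ∧ b2 ≤ a1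
    · rw [if_pos h2, if_pos h2.symm, show wt4 a2 a1 b1 b2 = wt4 a1 a2 b2 b1 by
        simp only [wt4]; omega]
    · rw [if_neg h2, if_neg fun h => h2 h.symm]

theorem rho_ge {q : R} (hq : q ≠ 0) {a1 a2 b1 b2 : ℤ} (ha : a2 < a1) (hb : b2 ≤ b1) :
    rho q a2 a1 b1 b2 = q * rho q a1 a2 b2 b1 := by
  simp only [rho]
  by_cases h1 : b1 ≤ a2
  · rw [if_pos (by omega), if_pos (by omega),
      show wt4 a2 a1 b1 b2 = wt4 a1 a2 b2 b1 + 1 by simp only [wt4]; omega, zpow_add_one₀ hq,
      mul_comm]
  · rw [if_neg (by omega), if_neg (by omega), mul_zero]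

theorem rho_eq (q : R) (a b1 b2 : ℤ) : rho q a a b1 b2 = rho q a a b2 b1 := by
  simp only [rho]
  by_cases h : b1 ≤ a ∧ b2 ≤ a
  · rw [if_pos h, if_pos h.symm, show wt4 a a b1 b2 = wt4 a a b2 b1 by simp only [wt4]; omega]
  · rw [if_neg h, if_neg fun h' => h h'.symm]

/-- Linear combination of the polynomials `E`. -/
noncomputable def lin (q : R) (n : ℕ) (c : Lat → R) : LP R := ∑ᶠ β, c β • E q n β

theorem fin_smul {c : Lat → R} (hc : (Function.support c).Finite) (f : Lat → LP R) :
    Function.HasFiniteSupport fun β => c β • f β :=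
  hc.subset fun β hβ h => hβ (by simp [h])

theorem map_lin (φ : LP R →ₗ[R] LP R) (q : R) (n : ℕ) {c : Lat → R}
    (hc : (Function.support c).Finite) : φ (lin q n c) = ∑ᶠ β, c β • φ (E q n β) := by
  rw [lin, map_finsum φ (fin_smul hc _)]
  simp only [map_smul]

theorem T_lin (q : R) {n i : ℕ} (hi : i + 1 < n) {c : Lat → R}
    (hc : (Function.support c).Finite) : T q i (lin q n c) = lin q n fun β =>
      if β i < β (i + 1) then c (swp i β) + (q - 1) * c β else q * c (swp i β) := by
  set u : Lat → R := fun β =>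
    (if β i < β (i + 1) then q - 1 else if β i = β (i + 1) then q else 0) * c β with hu
  set v : Lat → R := fun β =>
    (if β i < β (i + 1) then q else if β i = β (i + 1) then 0 else 1) * c β with hv
  have hu' : (Function.support u).Finite := hc.subset fun β hβ h => hβ (by simp [hu, h])
  have hv' : (Function.support v).Finite := hc.subset fun β hβ h => hβ (by simp [hv, h])
  have hv'' : (Function.support fun β => v (swp i β)).Finite :=
    hv'.preimage (swp i).injective.injOn
  have h1 : ∀ β, c β • T q i (E q n β) = u β • E q n β + v β • E q n (swp i β) := by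
    intro β
    simp only [hu, hv]
    split_ifs with h1 h2
    · rw [T_E_asc q hi h1, C_sub_one, C_mul, C_mul]
      module
    · rw [T_E_eq q hi h2, C_mul]
      module
    · rw [T_E_desc q hi (by omega)]
      module
  have h2 : ∑ᶠ β, v β • E q n (swp i β) = ∑ᶠ β, v (swp i β) • E q n β :=
    finsum_eq_of_bijective (swp i) (swp i).bijective fun β => by rw [swp_swp]
  rw [map_lin _ q n hc, finsum_congr h1, finsum_add_distrib (fin_smul hu' _) (fin_smul hv' _), h2,
    ← finsum_add_distrib (fin_smul hu' _) (fin_smul hv'' _), lin]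
  refine finsum_congr fun β => ?_
  rw [← add_smul]
  congr 1
  simp only [hu, hv, swp_left, swp_right]
  split_ifs with h3 h4 h5 h6 h7 h8 h9
  all_goals first | omega | ring1 | (rw [swp_of_eq h6]; ring1)

/-- The right hand side of the Pieri rule. -/
noncomputable def AA (q : R) (n : ℕ) (m : ℤ) (α : Lat) : LP R := lin q n (co q n m α)

theorem T_AA_desc {q : R} (hq : q ≠ 0) {n i : ℕ} (hi : i + 1 < n) (m : ℤ) {α : Lat}
    (h : α (i + 1) < α i) : T q i (AA q n m α) = AA q n m (swp i α) := by
  rw [AA, AA, T_lin q hi (co_finite q n m α)]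
  congr 1
  funext β
  simp only [co_eq hq n i, Outer_swp_left hi, Outer_swp_right hi, st_swp_left hi,
    st_swp_right hi, swp_left, swp_right, add_sub_cancel_right]
  by_cases h1 : β i < β (i + 1)
  · rw [if_pos h1, rho_lt hq h h1]
    ring
  · rw [if_neg h1, rho_ge hq h (not_lt.mp h1)]
    ring

theorem smul_lin (q : R) (n : ℕ) (a : R) {c : Lat → R} (hc : (Function.support c).Finite) :
    C a * lin q n c = lin q n fun β => a * c β := by
  have := map_lin (LinearMap.mulLeft R (C a)) q n hc
  simp only [LinearMap.mulLeft_apply] at this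
  rw [this, lin]
  refine finsum_congr fun β => ?_
  rw [C_mul, smul_smul, mul_comm]

theorem T_AA_eq {q : R} (hq : q ≠ 0) {n i : ℕ} (hi : i + 1 < n) (m : ℤ) {α : Lat}
    (h : α i = α (i + 1)) : T q i (AA q n m α) = C q * AA q n m α := by
  rw [AA, T_lin q hi (co_finite q n m α), smul_lin q n q (co_finite q n m α)]
  congr 1
  funext β
  simp only [co_eq hq n i, Outer_swp_right hi, st_swp_right hi, swp_left, swp_right,
    add_sub_cancel_right]
  rw [← h, rho_eq q (α i) (β (i + 1)) (β i)]
  split_ifs <;> ring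

theorem rot_bijective (m : ℕ) : Function.Bijective (rot m) := by
  refine Function.bijective_iff_has_inverse.mpr
    ⟨fun γ j => if j = 0 then γ m - 1 else if j ≤ m then γ (j - 1) else γ j, ?_, ?_⟩
  · intro β
    funext j
    simp only [rot_apply]
    split_ifs <;> first | rfl | omega | contradiction | (congr 1; omega) | (subst_vars; ring)
  · intro β
    funext j
    simp only [rot_apply]
    split_ifs <;> first | rfl | omega | contradiction | (congr 1; omega) | (subst_vars; ring)

theorem rot_sub_mem {k : ℕ} {m : ℤ} {α β : Lat} :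
    rot k α - rot k β ∈ PSet (k + 1) m ↔ α - β ∈ PSet (k + 1) m := by
  have h : ∀ j, (rot k α - rot k β) j =
      (α - β) (if j < k then j + 1 else if j = k then 0 else j) := by
    intro j
    simp only [Pi.sub_apply, rot_apply]
    split_ifs <;> ring
  have hs : ∑ j ∈ range (k + 1), (rot k α - rot k β) j = ∑ j ∈ range (k + 1), (α - β) j := by
    rw [sum_range_succ, sum_range_succ', h k, if_neg (lt_irrefl k), if_pos rfl]
    congr 1
    exact sum_congr rfl fun j hj => by rw [h j, if_pos (mem_range.mp hj)]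
  simp only [PSet, Set.mem_ofPred_eq, hs]
  refine and_congr ⟨fun h1 j => ?_, fun h1 j => by rw [h]; exact h1 _⟩
    (and_congr (forall₂_congr fun j hj => by rw [h, if_neg (by omega), if_neg (by omega)])
      Iff.rfl)
  have := h1 (if j = 0 then k else if j ≤ k then j - 1 else j)
  rw [h] at this
  have h2 : (if (if j = 0 then k else if j ≤ k then j - 1 else j) < k then
      (if j = 0 then k else if j ≤ k then j - 1 else j) + 1 else
      if (if j = 0 then k else if j ≤ k then j - 1 else j) = k then 0 else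
      (if j = 0 then k else if j ≤ k then j - 1 else j)) = j := by
    split_ifs <;> omega
  rwa [h2] at this

theorem st_rot (k : ℕ) (α β : Lat) :
    st (k + 1) (rot k α) (rot k β) + cnt 0 k α = st (k + 1) α β + cnt 0 k β := by
  rw [st, st, pS_succ, pS_succ', cnt, cnt]
  push_cast
  rw [pS_congr (ψ := fun a b => wt4 (α (a + 1)) (α (b + 1)) (β (a + 1)) (β (b + 1)))
    fun a b h1 h2 => by simp only [rot_apply, if_pos h2, if_pos (h1.trans h2)],
    add_assoc, add_assoc, ← sum_add_distrib, ← sum_add_distrib]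
  congr 1
  refine sum_congr rfl fun a ha => ?_
  simp only [rot_apply, if_pos (mem_range.mp ha), lt_irrefl, if_false, if_true, wt4, zero_add,
    add_comm 1 a]
  split_ifs <;> omega

theorem pi_AA {q : R} (hq : q ≠ 0) (k : ℕ) (m : ℤ) (α : Lat) :
    Tch q 0 k (X 0 * AA q (k + 1) m α) = C q ^ cnt 0 k α * AA q (k + 1) m (rot k α) := by
  have h1 := map_lin (Tch q 0 k ∘ₗ LinearMap.mulLeft R (X 0)) q (k + 1)
    (co_finite q (k + 1) m α)
  simp only [LinearMap.comp_apply, LinearMap.mulLeft_apply, pi_E] at h1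
  have hC : ∀ j : ℕ, (C q : LP R) ^ j = C (q ^ j) := fun j => by rw [C, C, map_pow]
  rw [AA, h1, hC, AA, smul_lin q _ _ (co_finite q (k + 1) m _), lin]
  refine finsum_eq_of_bijective (rot k) (rot_bijective k) fun β => ?_
  rw [hC, C_mul, smul_smul]
  congr 1
  simp only [co, rot_sub_mem]
  by_cases h : α - β ∈ PSet (k + 1) m
  · rw [ind_pos h, ind_pos h, ← zpow_natCast, ← zpow_natCast, ← zpow_add₀ hq, ← zpow_add₀ hq,
      ← st_rot, add_comm]
  · rw [ind_neg h, ind_neg h, mul_zero, zero_mul]

theorem AA_add_symm (q : R) {n : ℕ} (m : ℤ) {c : Lat} (hc : ∀ i, i + 1 < n → c i = c (i + 1))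
    (α : Lat) : AA q n m (α + c) = mon c * AA q n m α := by
  have h1 := map_lin (LinearMap.mulLeft R (mon c)) q n (co_finite q n m α)
  simp only [LinearMap.mulLeft_apply, ← E_add_symm q hc] at h1
  rw [AA, AA, h1, lin]
  refine (finsum_eq_of_bijective (· + c) (Equiv.addRight c).bijective fun β => ?_).symm
  have h0 : ∀ j < n, c j = c 0 := by
    intro j hj
    induction j with
    | zero => rfl
    | succ j ih => rw [← hc j hj, ih (by omega)]
  have h2 : st n (α + c) (β + c) = st n α β := pS_congr fun a b h3 h4 => by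
    simp only [Pi.add_apply, h0 b h4, h0 a (h3.trans h4), wt4]
    omega
  simp only [co, h2, add_sub_add_right_eq_sub]

/-- The complete homogeneous function of degree `m` in the inverse variables. -/
noncomputable def gg (q : R) (n : ℕ) (m : ℤ) : LP R := AA q n m 0

theorem sw_gg {q : R} (hq : q ≠ 0) {n i : ℕ} (hi : i + 1 < n) (m : ℤ) :
    sw i (gg q n m) = gg q n m := symm_of_T (T_AA_eq hq hi m rfl)

theorem pieri_swp {q : R} (hq : q ≠ 0) {n i : ℕ} (hi : i + 1 < n) {m : ℤ} {α : Lat}
    (h : gg q n m * E q n (swp i α) = AA q n m (swp i α)) : gg q n m * E q n α = AA q n m α := by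
  rcases lt_trichotomy (α i) (α (i + 1)) with h1 | h1 | h1
  · rw [E_asc q hi h1, ← T_mul_symm q (sw_gg hq hi m), h,
      T_AA_desc hq hi m (by rwa [swp_left, swp_right]), swp_swp]
  · rwa [swp_of_eq h1] at h
  · apply T_injective hq i
    rw [T_mul_symm q (sw_gg hq hi m), T_E_desc q hi h1, h, T_AA_desc hq hi m h1]

theorem pieri_rot {q : R} (hq : q ≠ 0) {k : ℕ} {m : ℤ} {α : Lat}
    (h : gg q (k + 1) m * E q (k + 1) α = AA q (k + 1) m α) :
    gg q (k + 1) m * E q (k + 1) (rot k α) = AA q (k + 1) m (rot k α) := by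
  apply mul_left_cancel₀ (pow_ne_zero (cnt 0 k α) (C_ne_zero hq))
  rw [← pi_AA hq, ← h, mul_left_comm (X 0), Tch_mul_symm q fun i hi => sw_gg hq (by omega) m,
    pi_E, mul_left_comm]

theorem pieri_nonneg {q : R} (hq : q ≠ 0) (k : ℕ) (m : ℤ) (S : ℕ) (α : Lat)
    (h : α ∈ PSet (k + 1) S) : gg q (k + 1) m * E q (k + 1) α = AA q (k + 1) m α := by
  induction S generalizing α with
  | zero =>
    have : α = 0 := by
      funext j
      by_cases hj : j < k + 1
      · exact (sum_eq_zero_iff_of_nonneg fun j _ => h.1 j).mp h.2.2 j (mem_range.mpr hj)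
      · exact h.2.1 j (by omega)
    rw [this, E_dom q fun _ _ => le_rfl, mon_zero, mul_one, gg]
  | succ S ih =>
    have key : ∀ r p, p + r = k → ∀ α ∈ PSet (k + 1) (S + 1 : ℕ), 0 < α p →
        gg q (k + 1) m * E q (k + 1) α = AA q (k + 1) m α := by
      intro r
      induction r with
      | zero =>
        intro p hp α hα h0
        obtain ⟨β, rfl⟩ := (rot_bijective k).2 α
        refine pieri_rot hq (ih β ?_)
        have h1 : rot k β - ev k = rot k β - rot k 0 := by
          congr 1
          funext j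
          simp only [rot_apply, ev_apply, Pi.zero_apply]
          split_ifs <;> omega
        rw [← sub_zero β, ← rot_sub_mem, ← h1]
        refine ⟨fun j => ?_, fun j hj => ?_, ?_⟩
        · have := hα.1 j
          rw [Pi.sub_apply, ev_apply]
          split_ifs with h2
          · rw [h2, ← show p = k by omega]
            rw [← show p = k by omega] at h0
            omega
          · omega
        · rw [Pi.sub_apply, hα.2.1 j hj, ev_apply, if_neg (by omega), sub_zero]
        · simp only [Pi.sub_apply, sum_sub_distrib, hα.2.2, ev_apply]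
          rw [sum_ite_eq' (range (k + 1)) k fun _ => (1 : ℤ), if_pos (self_mem_range_succ k)]
          push_cast
          ring
      | succ r ihr =>
        intro p hp α hα h0
        have hi : p + 1 < k + 1 := by omega
        exact pieri_swp hq hi (ihr (p + 1) (by omega) _
          (Btw_subset_PSet hi hα (swp_mem_Btw p α)) (by rwa [swp_right]))
    obtain ⟨p, hp, h0⟩ : ∃ p ∈ range (k + 1), 0 < α p := by
      by_contra h1
      have h2 : ∑ j ∈ range (k + 1), α j ≤ 0 :=
        sum_nonpos fun j hj => not_lt.mp fun h3 => h1 ⟨j, hj, h3⟩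
      rw [h.2.2] at h2
      omega
    exact key (k - p) p (by have := mem_range.mp hp; omega) α h h0

/-- The all ones vector on the first `n` coordinates. -/
def ones (n : ℕ) : Lat := fun j => if j < n then 1 else 0

theorem ones_symm (n : ℕ) : ∀ i, i + 1 < n → ones n i = ones n (i + 1) := fun i hi => by
  rw [ones, ones, if_pos hi, if_pos (by omega)]

/-- Indicator vector of a finite set. -/
def eps (I : Finset ℕ) : Lat := fun j => if j ∈ I then 1 else 0

theorem gg_mul_eps {q : R} (hq : q ≠ 0) (k : ℕ) (m : ℤ) {I : Finset ℕ} (hI : I ⊆ range (k + 1)) :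
    gg q (k + 1) m * mon (-eps I) = AA q (k + 1) m (-eps I) := by
  have h1 : -eps I + ones (k + 1) ∈
      PSet (k + 1) ((∑ j ∈ range (k + 1), (-eps I + ones (k + 1)) j).toNat) := by
    have h2 : ∀ j, 0 ≤ (-eps I + ones (k + 1)) j := by
      intro j
      simp only [Pi.add_apply, Pi.neg_apply, eps, ones]
      split_ifs with h3 h4
      · omega
      · exact absurd (mem_range.mp (hI h3)) h4
      · omega
      · omega
    refine ⟨h2, fun j hj => ?_, (Int.toNat_of_nonneg (sum_nonneg fun j _ => h2 j)).symm⟩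
    simp only [Pi.add_apply, Pi.neg_apply, eps, ones]
    rw [if_neg fun h3 => by have := mem_range.mp (hI h3); omega, if_neg (by omega)]
    rfl
  have h2 := pieri_nonneg hq k m _ _ h1
  rw [E_add_symm q (ones_symm _), AA_add_symm q m (ones_symm _), mul_left_comm,
    E_minuscule q _ fun j _ => by simp only [Pi.neg_apply, eps]; split_ifs <;> simp] at h2
  exact mul_left_cancel₀ (mon_ne_zero _) h2

theorem sum_eps {n : ℕ} {I : Finset ℕ} (hI : I ⊆ range n) (f : ℕ → ℤ) :
    ∑ j ∈ range n, eps I j * f j = ∑ j ∈ I, f j := by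
  rw [← sum_subset hI fun j _ hj => by rw [eps, if_neg hj, zero_mul]]
  exact sum_congr rfl fun j hj => by rw [eps, if_pos hj, one_mul]

theorem zpow_sum' {q : R} (hq : q ≠ 0) {ι : Type*} (s : Finset ι) (f : ι → ℤ) :
    q ^ (∑ i ∈ s, f i) = ∏ i ∈ s, q ^ f i := by
  classical
  induction s using Finset.induction_on with
  | empty => simp
  | insert i s hi ih => rw [sum_insert hi, prod_insert hi, zpow_add₀ hq, ih]

theorem alt_sum_co {q : R} (hq : q ≠ 0) {n : ℕ} {m : ℤ} {β : Lat} (hβ : -β ∈ PSet n m) :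
    ∑ I ∈ (range n).powerset, (-1) ^ I.card * co q n (m - I.card) (-eps I) β =
      ind (β = 0) 1 := by
  set ν : ℕ → ℤ := fun j => ∑ i ∈ range j, if β i < 0 then 1 else 0 with hν
  set u : ℕ → R := fun j => if β j < 0 then q ^ (-ν j) else 0 with hu
  have hβ0 : ∀ j, β j ≤ 0 := fun j => by simpa using hβ.1 j
  have h1 : ∀ I ∈ (range n).powerset,
      co q n (m - I.card) (-eps I) β = q ^ st n 0 β * ∏ j ∈ I, u j := by
    intro I hI
    have hI' := mem_powerset.mp hI
    by_cases h2 : ∀ j ∈ I, β j < 0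
    · have h3 : -eps I - β ∈ PSet n (m - I.card) := by
        refine ⟨fun j => ?_, fun j hj => ?_, ?_⟩
        · have := hβ0 j
          simp only [Pi.sub_apply, Pi.neg_apply, eps]
          split_ifs with h4
          · have := h2 j h4
            omega
          · omega
        · have h4 := hβ.2.1 j hj
          simp only [Pi.sub_apply, Pi.neg_apply, eps] at h4 ⊢
          rw [if_neg fun h5 => by have := mem_range.mp (hI' h5); omega]
          omega
        · have h4 := hβ.2.2
          have h5 := sum_eps hI' fun _ => 1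
          simp only [mul_one, sum_const, nsmul_eq_mul] at h5
          simp only [Pi.sub_apply, Pi.neg_apply, sum_sub_distrib, sum_neg_distrib] at h4 ⊢
          omega
      have h4 : st n (-eps I) β = st n 0 β + ∑ j ∈ I, -ν j := by
        rw [← sum_eps hI', st, st, pS, pS, ← sum_add_distrib]
        refine sum_congr rfl fun b _ => ?_
        rw [hν, mul_neg, mul_sum, ← sum_neg_distrib, ← sum_add_distrib]
        refine sum_congr rfl fun a _ => ?_
        have e1 := hβ0 a
        have e2 := hβ0 b
        have e3 := h2 a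
        have e4 := h2 b
        simp only [Pi.neg_apply, Pi.zero_apply, eps, wt4]
        split_ifs with h5 h6 h7 h8 h9 h10 h11
        all_goals first | omega | (have := e3 ‹_›; omega)
      rw [co, ind_pos h3, h4, zpow_add₀ hq, prod_congr rfl fun j hj => if_pos (h2 j hj)]
      rw [zpow_sum' hq]
    · push Not at h2
      obtain ⟨j, hj, h3⟩ := h2
      rw [prod_eq_zero hj (if_neg h3.not_gt), mul_zero, co, ind_neg]
      intro h4
      have := h4.1 j
      simp only [Pi.sub_apply, Pi.neg_apply, eps, if_pos hj] at this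
      omega
  have h2 : ∑ I ∈ (range n).powerset, (-1) ^ I.card * co q n (m - I.card) (-eps I) β =
      q ^ st n 0 β * ∏ j ∈ range n, (1 + -u j) := by
    rw [prod_one_add, mul_sum]
    refine sum_congr rfl fun I hI => ?_
    rw [h1 I hI, prod_neg]
    ring
  rw [h2]
  by_cases h3 : β = 0
  · rw [ind_pos h3]
    subst h3
    have : st n 0 0 = 0 := by simp [st, pS, wt4]
    simp [this, hu]
  · rw [ind_neg h3]
    have h4 : ∃ j, β j < 0 := by
      by_contra h5
      exact h3 (funext fun j => le_antisymm (hβ0 j) (not_lt.mp fun h6 => h5 ⟨j, h6⟩))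
    have h5 := Nat.find_spec h4
    have h6 : Nat.find h4 < n := by
      by_contra h7
      have := hβ.2.1 _ (not_lt.mp h7)
      simp only [Pi.neg_apply] at this
      omega
    rw [prod_eq_zero (mem_range.mpr h6), mul_zero]
    have h7 : ν (Nat.find h4) = 0 :=
      sum_eq_zero fun i hi => if_neg (Nat.find_min h4 (mem_range.mp hi))
    simp [hu, h5, h7]

theorem gg_rec {q : R} (hq : q ≠ 0) (k : ℕ) (m : ℤ) :
    ∑ I ∈ (range (k + 1)).powerset, (-1) ^ I.card * (mon (-eps I) * gg q (k + 1) (m - I.card)) =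
      if m = 0 then 1 else 0 := by
  set B : Finset Lat := ((PSet_finite (k + 1) m).preimage neg_injective.injOn).toFinset with hB
  have hB' : ∀ β, β ∈ B ↔ -β ∈ PSet (k + 1) m := fun β => by
    rw [hB, Set.Finite.mem_toFinset, Set.mem_preimage]
  have h1 : ∀ I ∈ (range (k + 1)).powerset,
      (-1) ^ I.card * (mon (-eps I) * gg q (k + 1) (m - I.card)) =
        ∑ β ∈ B, ((-1) ^ I.card * co q (k + 1) (m - I.card) (-eps I) β) • E q (k + 1) β := by
    intro I hI
    have hI' := mem_powerset.mp hI
    have h2 : ((-1) ^ I.card : LP R) = C ((-1) ^ I.card) := by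
      rw [C, map_pow, map_neg, map_one]
    rw [mul_comm (mon _), gg_mul_eps hq k _ hI', h2, AA, smul_lin q _ _ (co_finite q _ _ _), lin]
    refine finsum_eq_sum_of_support_subset _ fun β hβ => ?_
    rw [mem_coe, hB']
    have h3 : -eps I - β ∈ PSet (k + 1) (m - I.card) := by
      by_contra h4
      exact hβ (by simp [co, ind_neg h4])
    refine ⟨fun j => ?_, fun j hj => ?_, ?_⟩
    · have := h3.1 j
      simp only [Pi.sub_apply, Pi.neg_apply, eps] at this ⊢
      split_ifs at this <;> omega
    · have := h3.2.1 j hj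
      simp only [Pi.sub_apply, Pi.neg_apply, eps] at this ⊢
      rw [if_neg fun h5 => by have := mem_range.mp (hI' h5); omega] at this
      omega
    · have h4 := h3.2.2
      have h5 := sum_eps hI' fun _ => 1
      simp only [mul_one, sum_const, nsmul_eq_mul] at h5
      simp only [Pi.sub_apply, Pi.neg_apply, sum_sub_distrib, sum_neg_distrib] at h4 ⊢
      omega
  rw [sum_congr rfl h1, sum_comm]
  simp only [← sum_smul]
  rw [sum_congr rfl fun β hβ => by rw [alt_sum_co hq ((hB' β).mp hβ)]]
  have h0 : (0 : Lat) ∈ B ↔ m = 0 := by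
    rw [hB', neg_zero]
    simp [PSet, eq_comm]
  split_ifs with h2
  · rw [sum_eq_single_of_mem 0 (h0.mpr h2) fun β _ hβ => by rw [ind_neg hβ, zero_smul],
      ind_pos rfl, one_smul, E_dom q fun _ _ => le_rfl, mon_zero]
  · exact sum_eq_zero fun β hβ => by rw [ind_neg fun h3 : β = 0 => h2 (h0.mp (h3 ▸ hβ)), zero_smul]

end Pool.Agent.Lib.MP_0bb0c3_co
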