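import Pool.Agent.Lib.MP_0bb0c3_co.Step
import Pool.Agent.Lib.MP_0bb0c3_co.Pieri

/-! The projection onto polynomials given by the nonsymmetric Cauchy kernel. -/

open AddMonoidAlgebra Finset

namespace Pool.Agent.Lib.MP_0bb0c3_co

section generic

variable {A : Type*} [CommRing A]

/-- Denominator of the Cauchy kernel in the variable `k`. -/
noncomputable def DK (q : A) (ξ : ℕ → A) (k : ℕ) : AddMonoidAlgebra A Lat :=
  (∏ i ∈ range (k + 1), binom (ξ i) (ev k)) * ∏ i ∈ range k, binom q (ev k - ev i)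

/-- Numerator of the Cauchy kernel in the variable `k`. -/
noncomputable def NK (q : A) (ξ : ℕ → A) (k : ℕ) : AddMonoidAlgebra A Lat :=
  ∏ i ∈ range k, binom (q * ξ i) (ev k) * binom 1 (ev k - ev i)

theorem DK_mem (q : A) (ξ : ℕ → A) (k : ℕ) : DK q ξ k ∈ BP A (Ck k) :=
  mul_mem (prod_mem fun _ _ => binom_mem _ (Or.inl rfl))
    (prod_mem fun i hi => binom_mem _ (Or.inr ⟨i, mem_range.mp hi, rfl⟩))

theorem NK_mem (q : A) (ξ : ℕ → A) (k : ℕ) : NK q ξ k ∈ BP A (Ck k) :=
  prod_mem fun i hi => mul_mem (binom_mem _ (Or.inl rfl))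
    (binom_mem _ (Or.inr ⟨i, mem_range.mp hi, rfl⟩))

/-- The Cauchy kernel times the Hall-Littlewood measure. -/
noncomputable def kap (q : A) (ξ : ℕ → A) (n : ℕ) : Lat → A := ker (DK q ξ) (NK q ξ) n

theorem lf_mul_geo (a : A) : lf a * PowerSeries.mk (fun m => a ^ m) = 1 := by
  ext m
  rw [lf, sub_mul, one_mul, map_sub, mul_assoc, PowerSeries.coeff_C_mul, PowerSeries.coeff_mk]
  cases m with
  | zero => simp
  | succ m =>
    rw [PowerSeries.coeff_succ_X_mul, PowerSeries.coeff_mk, PowerSeries.coeff_one,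
      if_neg (Nat.succ_ne_zero m), pow_succ', sub_self]

theorem Om_succ {k : ℕ} {b : Lat} (hb : b ∈ Om (k + 1)) (h0 : b (k + 1) = 0) :
    b ∈ Om k ∧ 0 ≤ b k := by
  refine ⟨⟨fun i hi => hb.1 i (by omega), fun j hj => ?_⟩, hb.1 k (by omega)⟩
  rcases (show j = k + 1 ∨ k + 1 < j by omega) with h | h
  · rw [h, h0]
  · exact hb.2 j h

theorem kap_nonneg (q : A) (ξ : ℕ → A) (n : ℕ) {b : Lat} (hb : b ∈ Om n) (h0 : b n = 0) :
    kap q ξ n b = zpw n ξ b := by
  induction n generalizing b with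
  | zero => rw [kap, ker_zero (DK_mem q ξ), one_coeff_Om hb h0, zpw, prod_range_zero]
  | succ k ih =>
    obtain ⟨h1, h2⟩ := Om_succ hb h0
    have := ker_step (DK_mem q ξ) (NK_mem q ξ) (k := k) ({()} : Finset Unit) (fun _ => 1)
      (fun _ => ξ) (fun _ => (∏ i ∈ range (k + 1), lf (ξ i)) * ∏ i ∈ range k, lf (q * ξ i))
      (fun _ => ∏ i ∈ range k, lf (q * ξ i) * lf (1 * ξ i))
      (fun _ => PowerSeries.mk fun m => ξ k ^ m)
      (fun _ _ => (RelT.prod _ fun i _ => relT_binom0 k ξ _).mul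
        (RelT.prod _ fun i hi => relT_binom (mem_range.mp hi) ξ _))
      (fun _ _ => RelT.prod _ fun i hi =>
        (relT_binom0 k ξ _).mul (relT_binom (mem_range.mp hi) ξ _))
      (fun _ _ => by
        simp only [one_mul]
        rw [prod_range_succ, prod_mul_distrib]
        linear_combination (∏ i ∈ range k, lf (ξ i)) * (∏ i ∈ range k, lf (q * ξ i)) *
          lf_mul_geo (ξ k))
      (fun c hc hc0 => by rw [sum_singleton, one_mul]; exact ih hc hc0) h1 h2
    rw [kap, this, sum_singleton, one_mul, PowerSeries.coeff_mk, zpw, zpw, prod_range_succ]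

open Classical in
/-- Product over the pairs satisfying `c`. -/
noncomputable def PP {M : Type*} [CommMonoid M] (n : ℕ) (c : ℕ → ℕ → Prop) (f : ℕ → ℕ → M) : M :=
  ∏ k ∈ range n, ∏ a ∈ range n, if c a k then f a k else 1

theorem prod_range_swap {M : Type*} [CommMonoid M] {i n : ℕ} (h : i + 1 < n) (g : ℕ → M) :
    ∏ a ∈ range n, g (Equiv.swap i (i + 1) a) = ∏ a ∈ range n, g a :=
  prod_equiv (Equiv.swap i (i + 1)) (fun a => by rw [mem_range, mem_range, swap_lt_iff h])
    fun _ _ => rfl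

section PP

variable {M M' : Type*} [CommMonoid M] [CommMonoid M']

theorem PP_lt (n : ℕ) (f : ℕ → ℕ → M) :
    ∏ k ∈ range n, ∏ a ∈ range k, f a k = PP n (· < ·) f := by
  classical
  refine prod_congr rfl fun k hk => ?_
  have h1 := mem_range.mp hk
  refine Eq.trans ?_ (prod_subset (s₁ := range k) (range_subset_range.mpr h1.le) fun a _ ha =>
    if_neg fun h => ha (mem_range.mpr h))
  exact prod_congr rfl fun a ha => (if_pos (mem_range.mp ha)).symm

theorem PP_le (n : ℕ) (f : ℕ → ℕ → M) :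
    ∏ k ∈ range n, ∏ a ∈ range (k + 1), f a k = PP n (· ≤ ·) f := by
  classical
  refine prod_congr rfl fun k hk => ?_
  have h1 := mem_range.mp hk
  refine Eq.trans ?_ (prod_subset (s₁ := range (k + 1)) (range_subset_range.mpr h1) fun a _ ha =>
    if_neg fun h => ha (mem_range.mpr (Nat.lt_succ_of_le h)))
  exact prod_congr rfl fun a ha => (if_pos (Nat.le_of_lt_succ (mem_range.mp ha))).symm

theorem PP_extra {n a₀ k₀ : ℕ} (ha : a₀ < n) (hk : k₀ < n) {c c' : ℕ → ℕ → Prop}
    (h0 : ¬c a₀ k₀) (h : ∀ a k, c' a k ↔ c a k ∨ (a = a₀ ∧ k = k₀)) (f : ℕ → ℕ → M) :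
    PP n c' f = PP n c f * f a₀ k₀ := by
  classical
  have h1 : f a₀ k₀ = ∏ k ∈ range n, ∏ a ∈ range n, if a = a₀ ∧ k = k₀ then f a k else 1 := by
    rw [prod_eq_single_of_mem k₀ (mem_range.mpr hk) fun k _ h1 =>
      prod_eq_one fun a _ => if_neg fun h2 => h1 h2.2,
      prod_eq_single_of_mem a₀ (mem_range.mpr ha) fun a _ h1 => if_neg fun h2 => h1 h2.1,
      if_pos ⟨rfl, rfl⟩]
  rw [h1, PP, PP, ← prod_mul_distrib]
  refine prod_congr rfl fun k _ => ?_
  rw [← prod_mul_distrib]
  refine prod_congr rfl fun a _ => ?_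
  by_cases h2 : a = a₀ ∧ k = k₀
  · rw [if_pos ((h a k).mpr (Or.inr h2)), if_neg (by rw [h2.1, h2.2]; exact h0), if_pos h2,
      one_mul]
  · rw [if_neg h2, mul_one]
    exact if_congr ((h a k).trans (or_iff_left h2)) rfl rfl

theorem PP_swap_left {n i : ℕ} (hi : i + 1 < n) {c : ℕ → ℕ → Prop}
    (h : ∀ a k, c (Equiv.swap i (i + 1) a) k ↔ c a k) (f : ℕ → ℕ → M) :
    PP n c (fun a k => f (Equiv.swap i (i + 1) a) k) = PP n c f := by
  classical
  refine prod_congr rfl fun k _ => ?_
  rw [← prod_range_swap hi]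
  exact prod_congr rfl fun a _ => if_congr (h a k) (by simp only [Equiv.swap_apply_self]) rfl

theorem PP_swap_right {n i : ℕ} (hi : i + 1 < n) {c : ℕ → ℕ → Prop}
    (h : ∀ a k, c a (Equiv.swap i (i + 1) k) ↔ c a k) (f : ℕ → ℕ → M) :
    PP n c (fun a k => f a (Equiv.swap i (i + 1) k)) = PP n c f := by
  classical
  rw [PP, ← prod_range_swap hi]
  exact prod_congr rfl fun k _ => prod_congr rfl fun a _ =>
    if_congr (h a k) (by simp only [Equiv.swap_apply_self]) rfl

theorem map_PP {F : Type*} [FunLike F M M'] [MonoidHomClass F M M'] (φ : F) (n : ℕ)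
    (c : ℕ → ℕ → Prop) (f : ℕ → ℕ → M) : φ (PP n c f) = PP n c fun a k => φ (f a k) := by
  simp only [PP, map_prod, apply_ite φ, map_one]

theorem PP_mem {S : Submonoid M} {n : ℕ} {c : ℕ → ℕ → Prop} {f : ℕ → ℕ → M}
    (h : ∀ a k, a < n → k < n → c a k → f a k ∈ S) : PP n c f ∈ S := by
  refine prod_mem fun k hk => prod_mem fun a ha => ?_
  split_ifs with h1
  · exact h a k (mem_range.mp ha) (mem_range.mp hk) h1
  · exact one_mem _

end PP

end generic

theorem swp_ev (i k : ℕ) : swp i (ev k) = ev (Equiv.swap i (i + 1) k) := by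
  rw [Equiv.swap_apply_def]
  split_ifs with h1 h2
  · rw [h1, swp_ev_left]
  · rw [h2, swp_ev_right]
  · exact swp_ev_of_ne h1 h2

variable {R : Type} [Field R]

theorem sw_X (i k : ℕ) : sw i (X k : LP R) = X (Equiv.swap i (i + 1) k) := by
  rw [X, sw_mon, swp_ev, X]

/-- The exchange of variables as a ring homomorphism. -/
noncomputable def swR (i : ℕ) : LP R →+* LP R := (sw i).toRingEquiv.toRingHom

theorem swR_apply (i : ℕ) (f : LP R) : swR i f = sw i f := rfl

theorem binom_eq {A : Type*} [CommRing A] (a : A) (m : Lat) :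
    binom a m = 1 - algebraMap A (AddMonoidAlgebra A Lat) a * single m 1 := by
  rw [binom, ← Algebra.smul_def, smul_single, smul_eq_mul, mul_one]

theorem exists_kap' {A : Type*} [CommRing A] {n i : ℕ} (hi : i + 1 < n) (σ : A →+* A) {q : A}
    {ξ : ℕ → A} (hq : σ q = q) (hξ : ∀ k, σ (ξ k) = ξ (Equiv.swap i (i + 1) k)) :
    ∃ κ' : Lat → A, (∀ b, κ' (swp i b) = κ' b) ∧ (∀ b, σ (κ' b) = κ' b) ∧ Bdd (wf n) 0 κ' ∧
      act (binom q (ev (i + 1) - ev i)) (kap q ξ n) =
        act (binom 1 (ev (i + 1) - ev i) *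
          (binom (q * ξ i) (ev (i + 1)) * binom (ξ (i + 1)) (ev i))) κ' := by
  set cl : ℕ → ℕ → Prop := fun a k => a < k ∧ ¬(a = i ∧ k = i + 1) with hcl
  set ce : ℕ → ℕ → Prop := fun a k => a ≤ k ∨ (a = i + 1 ∧ k = i) with hce
  have l1 : ∀ a k, cl (Equiv.swap i (i + 1) a) k ↔ cl a k := fun a k => by
    simp only [hcl, Equiv.swap_apply_def]
    split_ifs <;> omega
  have l2 : ∀ a k, cl a (Equiv.swap i (i + 1) k) ↔ cl a k := fun a k => by
    simp only [hcl, Equiv.swap_apply_def]
    split_ifs <;> omega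
  have l3 : ∀ a k, ce (Equiv.swap i (i + 1) a) k ↔ ce a k := fun a k => by
    simp only [hce, Equiv.swap_apply_def]
    split_ifs <;> omega
  have l4 : ∀ a k, ce a (Equiv.swap i (i + 1) k) ↔ ce a k := fun a k => by
    simp only [hce, Equiv.swap_apply_def]
    split_ifs <;> omega
  set D' : AddMonoidAlgebra A Lat :=
    PP n ce (fun a k => binom (ξ a) (ev k)) * PP n cl fun a k => binom q (ev k - ev a) with hD'
  set N' : AddMonoidAlgebra A Lat :=
    PP n cl fun a k => binom (q * ξ a) (ev k) * binom 1 (ev k - ev a) with hN'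
  set C' : Set Lat := {m | m ∈ Cn n ∧ swp i m ∈ Cn n} with hC'
  have m1 : ∀ k < n, ev k ∈ C' := fun k hk =>
    ⟨⟨k, hk, Or.inl rfl⟩, ⟨_, (swap_lt_iff hi).mpr hk, Or.inl (swp_ev i k)⟩⟩
  have m2 : ∀ a k, k < n → cl a k → ev k - ev a ∈ C' := fun a k hk h =>
    ⟨⟨k, hk, Or.inr ⟨a, h.1, rfl⟩⟩, ⟨_, (swap_lt_iff hi).mpr hk,
      Or.inr ⟨_, ((l2 _ _).mpr ((l1 _ _).mpr h)).1, by rw [map_sub, swp_ev, swp_ev]⟩⟩⟩
  have hDm : D' ∈ BP A C' := mul_mem (PP_mem fun a k _ hk _ => binom_mem _ (m1 k hk))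
    (PP_mem fun a k _ hk h => binom_mem _ (m2 a k hk h))
  have hNm : N' ∈ BP A C' := PP_mem fun a k _ hk h =>
    mul_mem (binom_mem _ (m1 k hk)) (binom_mem _ (m2 a k hk h))
  have hφ : ∀ m ∈ C', 0 < wf n m := fun m hm => Cn_wf le_rfl m hm.1
  obtain ⟨κ', hκ'⟩ := exists_sol hφ hDm N'
  have hb : Bdd (wf n) 0 κ' :=
    hκ'.bdd hφ hDm (fun m hm => (hφ m hm).le) (BP_bdd (fun m hm => (hφ m hm).le) hNm)
  refine ⟨κ', ?_, ?_, hb, ?_⟩
  · have hψ : ∀ m ∈ C', 0 ≤ (wf n).comp (swp i : Lat →+ Lat) m := fun m hm =>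
      (Cn_wf le_rfl _ hm.2).le
    have h1 := hκ'.bdd hφ hDm hψ (BP_bdd hψ hNm)
    have e1 : domCongr A A (swp i) D' = D' := by
      simp only [hD', map_mul, map_PP, domCongr_binom, map_sub, swp_ev]
      rw [PP_swap_right hi l4 fun a k => binom (ξ a) (ev k),
        PP_swap_right hi l2 fun a k => binom q (ev k - ev (Equiv.swap i (i + 1) a)),
        PP_swap_left hi l1 fun a k => binom q (ev k - ev a)]
    have e2 : domCongr A A (swp i) N' = N' := by
      have e3 : ∀ f g : ℕ → ℕ → AddMonoidAlgebra A Lat,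
          PP n cl (fun a k => f a k * g a k) = PP n cl f * PP n cl g := by
        intro f g
        simp only [PP, ← prod_mul_distrib]
        refine prod_congr rfl fun k _ => prod_congr rfl fun a _ => ?_
        split_ifs
        · rfl
        · rw [mul_one]
      simp only [hN', e3, map_mul, map_PP, domCongr_binom, map_sub, swp_ev]
      rw [PP_swap_right hi l2 fun a k => binom (q * ξ a) (ev k),
        PP_swap_right hi l2 fun a k => binom (1 : A) (ev k - ev (Equiv.swap i (i + 1) a)),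
        PP_swap_left hi l1 fun a k => binom (1 : A) (ev k - ev a)]
    have h2 : Sol (wf n) D' N' (κ' ∘ (swp i).symm) := by
      refine ⟨⟨0, fun p hp => h1 _ ?_⟩, ?_⟩
      · show wf n (swp i (swp i p)) < 0
        rwa [swp_swp]
      · rw [← e1, act_domCongr, hκ'.2]
        funext p
        rw [Function.comp_apply, ← coeff_domCongr (R := A), e2]
    exact congrFun (Sol.unique hφ hDm h2 hκ')
  · have h1 := hκ'.map σ
    have e1 : mapRingHom Lat σ D' = D' := by
      simp only [hD', map_mul, map_PP, map_binom, hq, hξ]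
      rw [PP_swap_left hi l3 fun a k => binom (ξ a) (ev k)]
    have e2 : mapRingHom Lat σ N' = N' := by
      have e3 : ∀ f g : ℕ → ℕ → AddMonoidAlgebra A Lat,
          PP n cl (fun a k => f a k * g a k) = PP n cl f * PP n cl g := by
        intro f g
        simp only [PP, ← prod_mul_distrib]
        refine prod_congr rfl fun k _ => prod_congr rfl fun a _ => ?_
        split_ifs
        · rfl
        · rw [mul_one]
      simp only [hN', e3, map_mul, map_PP, map_binom, hq, hξ, map_one]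
      rw [PP_swap_left hi l1 fun a k => binom (q * ξ a) (ev k)]
    rw [e1, e2] at h1
    exact congrFun (Sol.unique hφ hDm h1 hκ')
  · have s1 := ker_sol (N := NK q ξ) (DK_mem q ξ) n
    have bk : Bdd (wf n) 0 (kap q ξ n) :=
      ker_bdd (DK_mem _ _) (NK_mem _ _) fun m hm => (Cn_wf le_rfl m hm).le
    have hr : ev (i + 1) - ev i ∈ Cn n := ⟨i + 1, hi, Or.inr ⟨i, Nat.lt_succ_self i, rfl⟩⟩
    have hw : ∀ m ∈ Cn n, 0 ≤ wf n m := fun m hm => (Cn_wf le_rfl m hm).le
    have e1 : D' * binom q (ev (i + 1) - ev i) =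
        binom (ξ (i + 1)) (ev i) * ∏ k ∈ range n, DK q ξ k := by
      simp only [DK, prod_mul_distrib]
      rw [PP_le, PP_lt, hD', PP_extra (c := (· ≤ ·)) (c' := ce) hi (by omega : i < n) (by omega)
        (fun _ _ => Iff.rfl), PP_extra (c := cl) (c' := (· < ·)) (by omega : i < n) hi
        (fun h => h.2 ⟨rfl, rfl⟩) (fun a k => by simp only [hcl]; omega)]
      ring
    have e2 : ∏ k ∈ range n, NK q ξ k =
        N' * (binom (q * ξ i) (ev (i + 1)) * binom 1 (ev (i + 1) - ev i)) := by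
      simp only [NK]
      rw [PP_lt, PP_extra (c := cl) (c' := (· < ·)) (by omega : i < n) hi
        (fun h => h.2 ⟨rfl, rfl⟩) (fun a k => by simp only [hcl]; omega)]
    refine BP_inj' hφ hDm (BP_act_bdd hw (binom_mem _ hr) bk)
      (BP_act_bdd hw (mul_mem (binom_mem _ hr) (mul_mem (binom_mem _ (m1 _ hi).1)
        (binom_mem _ (m1 i (by omega)).1))) hb) ?_
    rw [← act_mul, e1, act_mul, kap, s1.2, act_comm, hκ'.2, act_coeff, act_coeff, e2]
    exact congrArg (fun D : AddMonoidAlgebra A Lat => ⇑D.coeff) (by ring)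

/-- Pairing of a series with Laurent polynomials. -/
noncomputable def pr (f : Lat → LP R) : LP R →ₗ[R] LP R :=
  Finsupp.linearCombination R f ∘ₗ (coeffLinearEquiv R).toLinearMap

theorem pr_mon (f : Lat → LP R) (b : Lat) : pr f (mon b) = f b := by
  show Finsupp.linearCombination R f (Finsupp.single b 1) = f b
  rw [Finsupp.linearCombination_single, one_smul]

theorem lin_ext {M : Type*} [AddCommGroup M] [Module R M] {φ ψ : LP R →ₗ[R] M}
    (h : ∀ b, φ (mon b) = ψ (mon b)) (g : LP R) : φ g = ψ g := by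
  induction g using AddMonoidAlgebra.induction_linear with
  | zero => rw [map_zero, map_zero]
  | add x y hx hy => rw [map_add, map_add, hx, hy]
  | single b r => rw [single_eq_smul, map_smul, map_smul, h]

theorem theta_aux {A : Type*} [CommRing A] (σ : A →+* A) {q x y : A} (hq : σ q = q)
    (hx : σ x = y) (hy : σ y = x) {n i : ℕ} (hi : i + 1 < n) {κ κ' : Lat → A}
    (s2 : ∀ b, σ (κ' b) = κ' b) (hb : Bdd (wf n) 0 κ') (bk : Bdd (wf n) 0 κ)
    (heq : act (binom q (ev (i + 1) - ev i)) κ = act (binom 1 (ev (i + 1) - ev i) *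
      (binom (q * x) (ev (i + 1)) * binom y (ev i))) κ') (b : Lat) :
    (x - y) * (κ' (b - ev i) - κ' (b - ev (i + 1))) = κ b - σ (κ b) := by
  have h2 : σ ∘ κ' = κ' := funext s2
  have h1 : act (binom q (ev (i + 1) - ev i)) (σ ∘ κ) = act (binom 1 (ev (i + 1) - ev i) *
      (binom (q * y) (ev (i + 1)) * binom x (ev i))) κ' := by
    have h3 := act_map σ (binom q (ev (i + 1) - ev i)) κ
    have h4 := act_map σ (binom 1 (ev (i + 1) - ev i) *
      (binom (q * x) (ev (i + 1)) * binom y (ev i))) κ'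
    rw [map_binom, hq] at h3
    rw [map_mul (mapRingHom Lat σ), map_mul (mapRingHom Lat σ), map_binom, map_binom, map_binom,
      map_one, map_mul σ, hq, hx, hy, h2] at h4
    rw [h3, h4, heq]
  obtain ⟨Y, hY⟩ : ∃ Y : AddMonoidAlgebra A Lat, Y = algebraMap A _ (x - y) *
      (single (ev i) 1 - single (ev (i + 1)) 1) := ⟨_, rfl⟩
  have h3 : act Y κ' = fun b => (x - y) * (κ' (b - ev i) - κ' (b - ev (i + 1))) := by
    funext b
    rw [hY, ← Algebra.smul_def, map_smul, LinearMap.smul_apply, Pi.smul_apply, act_sub,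
      Pi.sub_apply, act_single, act_single, one_mul, one_mul, smul_eq_mul]
  have hw1 : wf n (ev i) = i + 1 := wf_ev (by omega)
  have hw2 : wf n (ev (i + 1)) = (i + 1 : ℕ) + 1 := wf_ev hi
  have h4 : act Y κ' = κ - σ ∘ κ := by
    refine BP_inj' (C := {ev (i + 1) - ev i}) (φ := wf n) (c := 0) (c' := 0) ?_
      (binom_mem q rfl) ?_ (bk.sub fun p hp => ?_) ?_
    · rintro m rfl
      rw [map_sub, hw1, hw2]
      omega
    · rw [h3]
      intro p hp
      show (x - y) * (κ' (p - ev i) - κ' (p - ev (i + 1))) = 0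
      rw [hb _ (by rw [map_sub, hw1]; omega), hb _ (by rw [map_sub, hw2]; omega), sub_zero,
        mul_zero]
    · rw [Function.comp_apply, bk p hp, map_zero]
    · rw [map_sub, heq, h1, ← act_sub, ← act_mul]
      congr 2
      have h5 : (single (ev (i + 1)) 1 : AddMonoidAlgebra A Lat) =
          single (ev (i + 1) - ev i) 1 * single (ev i) 1 := by
        rw [single_mul_single, sub_add_cancel, mul_one]
      simp only [hY, binom_eq, h5, map_mul, map_sub, map_one]
      ring
  exact (congrFun h3 b).symm.trans (congrFun h4 b)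

theorem nu_aux {A : Type*} [CommRing A] (u y : A) {i : ℕ} {κ' : Lat → A}
    (s1 : ∀ b, κ' (swp i b) = κ' b) (b : Lat) :
    act (binom u (ev (i + 1)) * binom y (ev i)) κ' (swp i b) -
      act (binom u (ev (i + 1)) * binom y (ev i)) κ' b =
        (y - u) * (κ' (b - ev i) - κ' (b - ev (i + 1))) := by
  have f1 : κ' (swp i b - ev i) = κ' (b - ev (i + 1)) := by
    rw [← s1, map_sub, swp_swp, swp_ev_left]
  have f2 : κ' (swp i b - ev (i + 1)) = κ' (b - ev i) := by
    rw [← s1, map_sub, swp_swp, swp_ev_right]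
  have f3 : κ' (swp i b - ev (i + 1) - ev i) = κ' (b - ev (i + 1) - ev i) := by
    rw [← s1, map_sub, map_sub, swp_swp, swp_ev_left, swp_ev_right, sub_right_comm]
  rw [act_mul, act_binom, act_binom, act_binom, act_binom, act_binom, act_binom, s1, f1, f2, f3]
  ring

theorem lp_induction {P : LP R → Prop} (h0 : P 0) (h1 : ∀ f g, P f → P g → P (f + g))
    (h2 : ∀ (a : R) b, P (a • mon b)) (g : LP R) : P g := by
  induction g using AddMonoidAlgebra.induction_linear with
  | zero => exact h0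
  | add x y hx hy => exact h1 x y hx hy
  | single b r =>
    rw [single_eq_smul]
    exact h2 r b

theorem T_pr_aux (q : R) {i : ℕ} {κ μ ν : Lat → LP R}
    (hθ : ∀ b, (X i - X (i + 1)) * μ b = κ b - sw i (κ b))
    (hκ : ∀ b, κ (ev (i + 1) + b) - C q * κ (ev i + b) = ν (ev (i + 1) + b) - ν (ev i + b))
    (hν : ∀ b, ν (swp i b) - ν b = (X (i + 1) - C q * X i) * μ b) (g : LP R) :
    T q i (pr κ g) = pr κ (T q i g) := by
  have ha : dd i (pr κ g) = pr μ g := by
    apply mul_left_cancel₀ (XX_ne i)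
    rw [dd_spec]
    induction g using lp_induction with
    | h0 => simp only [map_zero, sub_zero, mul_zero]
    | h1 f g hf hg =>
      rw [map_add, map_add, map_add, mul_add, ← hf, ← hg]
      abel
    | h2 a b => rw [map_smul, map_smul, map_smul, pr_mon, pr_mon, mul_smul_comm, hθ, smul_sub]
  have hb' : ∀ h, pr κ ((X (i + 1) - C q * X i) * h) = pr ν ((X (i + 1) - X i) * h) := by
    intro h
    induction h using lp_induction with
    | h0 => simp only [map_zero, mul_zero]
    | h1 f g hf hg => rw [mul_add, mul_add, map_add, map_add, hf, hg]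
    | h2 a b =>
      rw [mul_smul_comm, mul_smul_comm, map_smul, map_smul, sub_mul, sub_mul, mul_assoc, C_mul, X,
        X, ← mon_add, ← mon_add, map_sub, map_sub, map_smul, pr_mon, pr_mon, pr_mon, pr_mon, ← hκ,
        C_mul]
  have hc : pr ν (sw i g - g) = (X (i + 1) - C q * X i) * pr μ g := by
    clear ha
    induction g using lp_induction with
    | h0 => simp only [map_zero, sub_zero, mul_zero]
    | h1 f g hf hg =>
      rw [map_add (pr μ), mul_add, ← hf, ← hg, ← map_add, map_add (sw i), add_sub_add_comm]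
    | h2 a b =>
      rw [map_smul, map_smul, ← smul_sub, map_smul, sw_mon, map_sub, pr_mon, pr_mon, pr_mon, hν,
        mul_smul_comm]
  rw [T_apply, T_apply, map_add, C_mul q (pr κ g), C_mul q g, map_smul, ha, hb', ← hc]
  congr 2
  linear_combination dd_spec i g

theorem T_pr (q : R) {n i : ℕ} (hi : i + 1 < n) (g : LP R) :
    T q i (pr (kap (C q) X n) g) = pr (kap (C q) X n) (T q i g) := by
  obtain ⟨κ', s1, s2, hb, heq⟩ := exists_kap' hi (swR i) (sw_C i q) (sw_X (R := R) i)
  have bk : Bdd (wf n) 0 (kap (C q) (X : ℕ → LP R) n) :=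
    ker_bdd (DK_mem _ _) (NK_mem _ _) fun m hm => (Cn_wf le_rfl m hm).le
  refine T_pr_aux q (μ := fun b => κ' (b - ev i) - κ' (b - ev (i + 1)))
    (ν := act (binom (C q * X i) (ev (i + 1)) * binom (X (i + 1)) (ev i)) κ')
    (theta_aux (swR i) (sw_C i q) (sw_X_left i) (sw_X_right i) hi s2 hb bk heq) (fun b => ?_)
    (nu_aux _ _ s1) g
  have h1 := congrFun heq (ev (i + 1) + b)
  rwa [act_mul, act_binom, act_binom, one_mul,
    show ev (i + 1) + b - (ev (i + 1) - ev i) = ev i + b by abel] at h1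

theorem zpw_X {n : ℕ} {b : Lat} (hb : b ∈ Om n) (h0 : b n = 0) : zpw n X b = (mon b : LP R) := by
  induction n generalizing b with
  | zero =>
    have : b = 0 := by
      funext j
      rcases Nat.eq_zero_or_pos j with h | h
      · rw [h, h0]
        rfl
      · exact hb.2 j h
    rw [this, zpw, prod_range_zero, mon_zero]
  | succ k ih =>
    obtain ⟨h1, h2⟩ := Om_succ hb h0
    have h3 : zpw k X b = (zpw k X (b - (b k).toNat • ev k) : LP R) :=
      prod_congr rfl fun j hj => by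
        simp [ev_apply, (mem_range.mp hj).ne]
    rw [zpw, prod_range_succ, ← zpw, h3, ih, X, ← mon_nsmul, ← mon_add, sub_add_cancel]
    · refine ⟨fun j hj => ?_, fun j hj => ?_⟩
      · simpa [ev_apply, hj.ne] using h1.1 j hj
      · simpa [ev_apply, hj.ne'] using h1.2 j hj
    · simp [ev_apply, h2]

theorem pr_E_nonneg (q : R) {n : ℕ} (b : Lat) (hb : b ∈ Om n) (h0 : b n = 0) :
    pr (kap (C q) X n) (E q n b) = E q n b := by
  induction b using asc_induction (n := n) with
  | h0 b h => rw [E_dom q h, pr_mon, kap_nonneg _ _ _ hb h0, zpw_X hb h0]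
  | h1 b i hi h ih =>
    rw [E_asc q hi h, ← T_pr q hi, ih]
    · exact ⟨fun j hj => hb.1 _ ((swap_lt_iff hi).mpr hj), fun j hj => by
        rw [swp_of_ne b (by omega) (by omega)]
        exact hb.2 j hj⟩
    · rwa [swp_of_ne b (by omega) (by omega)]

theorem pr_E_neg (q : R) {n : ℕ} (b : Lat) (hb : ∃ j < n, b j < 0) :
    pr (kap (C q) X n) (E q n b) = 0 := by
  induction b using asc_induction (n := n) with
  | h0 b h =>
    obtain ⟨j, hj, h1⟩ := hb
    obtain ⟨k, rfl⟩ : ∃ k, n = k + 1 := ⟨n - 1, by omega⟩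
    rw [E_dom q h, pr_mon]
    exact ker_bdd (DK_mem _ _) (NK_mem _ _) Cn_crd_last b
      ((h.le (show j ≤ k by omega) (Nat.lt_succ_self k)).trans_lt h1)
  | h1 b i hi h ih =>
    obtain ⟨j, hj, h1⟩ := hb
    rw [E_asc q hi h, ← T_pr q hi, ih, map_zero]
    refine ⟨Equiv.swap i (i + 1) j, (swap_lt_iff hi).mpr hj, ?_⟩
    show b (Equiv.swap i (i + 1) (Equiv.swap i (i + 1) j)) < 0
    rwa [Equiv.swap_apply_self]

end Pool.Agent.Lib.MP_0bb0c3_co
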