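import Pool.Agent.Lib.MP_0bb0c3_co.EBasis

/-! The rotation operator, evaluation of the first variable at zero, and the spanning property. -/

open AddMonoidAlgebra Finset

namespace Pool.Agent.Lib.MP_0bb0c3_co

variable {R : Type} [Field R]

/-- The product `T (p + k - 1) ⋯ T p`. -/
noncomputable def Tch (q : R) (p : ℕ) : ℕ → LP R →ₗ[R] LP R
  | 0 => LinearMap.id
  | k + 1 => T q (p + k) ∘ₗ Tch q p k

theorem Tch_succ (q : R) (p k : ℕ) (f : LP R) : Tch q p (k + 1) f = T q (p + k) (Tch q p k f) :=
  rfl

theorem Tch_succ' (q : R) (p k : ℕ) (f : LP R) :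
    Tch q p (k + 1) f = Tch q (p + 1) k (T q p f) := by
  induction k with
  | zero => rfl
  | succ k ih => rw [Tch_succ, ih, Tch_succ, show p + (k + 1) = p + 1 + k by omega]

theorem Tch_mul_symm (q : R) {p k : ℕ} {g : LP R} (hg : ∀ i < p + k, sw i g = g) (f : LP R) :
    Tch q p k (g * f) = g * Tch q p k f := by
  induction k with
  | zero => rfl
  | succ k ih =>
    rw [Tch_succ, Tch_succ, ih fun i hi => hg i (by omega), T_mul_symm q (hg _ (by omega))]

theorem Tch_C_mul (q : R) (p k : ℕ) (a : R) (f : LP R) :
    Tch q p k (C a * f) = C a * Tch q p k f := Tch_mul_symm q (fun i _ => sw_C i a) f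

theorem Tch_injective {q : R} (hq : q ≠ 0) (p k : ℕ) : Function.Injective (Tch q p k) := by
  induction k with
  | zero => exact fun _ _ h => h
  | succ k ih => exact (T_injective hq (p + k)).comp ih

theorem Tch_T_far (q : R) {k i : ℕ} (h : k < i) (f : LP R) :
    Tch q 0 k (T q i f) = T q i (Tch q 0 k f) := by
  induction k with
  | zero => rfl
  | succ k ih => rw [Tch_succ, Tch_succ, ih (by omega), T_comm q (by omega)]

theorem Tch_T (q : R) {m i : ℕ} (h : i + 1 < m) (f : LP R) :
    Tch q 0 m (T q (i + 1) f) = T q i (Tch q 0 m f) := by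
  induction m, h using Nat.le_induction with
  | base =>
    rw [Tch_succ, Tch_succ, Tch_succ, Tch_succ, Tch_T_far q (by omega), zero_add, zero_add,
      T_braid]
  | succ m hm ih => rw [Tch_succ, Tch_succ, ih, zero_add, T_comm q hm]

/-- Move the entry at position `p` to position `m`. -/
def cyc (m p : ℕ) (γ : Lat) : Lat := fun j =>
  if j < p then γ j else if j < m then γ (j + 1) else if j = m then γ p else γ j

theorem Tch_E_cyc (q : R) {m : ℕ} (r p : ℕ) (hp : p + r = m) (γ : Lat)
    (h : ∀ j, p < j → j ≤ m → γ j < γ p) :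
    Tch q p r (E q (m + 1) γ) = E q (m + 1) (cyc m p γ) := by
  induction r generalizing p γ with
  | zero =>
    have : cyc m p γ = γ := by
      funext j
      simp only [cyc]
      split_ifs <;> first | rfl | omega | (congr 1; omega)
    rw [this]
    rfl
  | succ r ih =>
    rw [Tch_succ', T_E_desc q (by omega) (h (p + 1) (by omega) (by omega)),
      ih (p + 1) (by omega)]
    · congr 1
      funext j
      simp only [cyc, swp_apply]
      split_ifs <;> first | rfl | omega | (congr 1; omega)
    · intro j h1 h2
      rw [swp_right, swp_of_ne γ (by omega) (by omega)]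
      exact h j (by omega) h2

/-- Number of later entries larger than the entry at `p`. -/
def cnt (p r : ℕ) (β : Lat) : ℕ := ∑ b ∈ range r, if β p < β (p + 1 + b) then 1 else 0

theorem Tch_X_E (q : R) {m : ℕ} (r p : ℕ) (hp : p + r = m) (β : Lat)
    (h1 : ∀ i j, i < j → j ≤ m → i ≠ p → j ≠ p → β j ≤ β i) (h2 : ∀ i < p, β p < β i) :
    Tch q p r (X p * E q (m + 1) β) = C q ^ cnt p r β * E q (m + 1) (cyc m p (β + ev p)) := by
  induction r generalizing p β with
  | zero =>
    have hd : Dom (m + 1) β := by
      intro i hi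
      rcases (show i + 1 = p ∨ i + 1 < p by omega) with h | h
      · rw [h]
        exact (h2 i (by omega)).le
      · exact h1 i (i + 1) (by omega) (by omega) (by omega) (by omega)
    have hd' : Dom (m + 1) (β + ev p) := by
      intro i hi
      have := hd i hi
      simp only [Pi.add_apply, ev_apply]
      split_ifs with h3 h4
      · omega
      · have := h2 i (by omega)
        rw [h3]
        omega
      · omega
      · omega
    rw [← Tch_E_cyc q 0 p hp _ (fun j h3 h4 => by omega), E_dom q hd, E_dom q hd', cnt,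
      sum_range_zero, pow_zero, one_mul, mon_add, X, mul_comm]
  | succ r ih =>
    rcases lt_or_ge (β p) (β (p + 1)) with h | h
    · rw [Tch_succ', E_asc q (by omega) h, T_X_T, mul_assoc, Tch_C_mul, ih (p + 1) (by omega),
        ← mul_assoc, ← pow_succ']
      · congr 2
        · rw [cnt, cnt, sum_range_succ', add_zero, if_pos h]
          congr 1
          refine sum_congr rfl fun b _ => ?_
          rw [swp_right, swp_of_ne β (by omega) (by omega), show p + 1 + 1 + b = p + 1 + (b + 1) by
            omega]
        · funext j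
          simp only [cyc, swp_apply, Pi.add_apply, ev_apply]
          split_ifs <;> first | rfl | omega | (congr 2; omega)
      · intro i j hij hj hi hj'
        simp only [swp_apply]
        split_ifs <;> first | omega | exact h1 _ _ (by omega) (by omega) (by omega) (by omega)
      · intro i hi
        simp only [swp_apply]
        split_ifs <;> first | omega | exact h2 _ (by omega)
    · have hd : Dom (m + 1) β := by
        intro i hi
        rcases (show i + 1 = p ∨ i = p ∨ (i + 1 ≠ p ∧ i ≠ p) by omega) with h3 | h3 | h3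
        · rw [h3]
          exact (h2 i (by omega)).le
        · rw [h3]
          exact h
        · exact h1 i (i + 1) (by omega) (by omega) h3.2 h3.1
      have hd' : Dom (m + 1) (β + ev p) := by
        intro i hi
        have := hd i hi
        simp only [Pi.add_apply, ev_apply]
        split_ifs with h3 h4
        · omega
        · have := h2 i (by omega)
          rw [h3]
          omega
        · omega
        · omega
      have hle : ∀ j, p < j → j ≤ m → β j ≤ β p := by
        intro j h3 h4
        rcases (show j = p + 1 ∨ p + 1 < j by omega) with h5 | h5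
        · rw [h5]
          exact h
        · exact (h1 (p + 1) j h5 h4 (by omega) (by omega)).trans h
      have hc : cnt p (r + 1) β = 0 := sum_eq_zero fun b hb =>
        if_neg (hle _ (by omega) (by have := mem_range.mp hb; omega)).not_gt
      rw [← Tch_E_cyc q (r + 1) p hp, E_dom q hd, E_dom q hd', hc, pow_zero, one_mul, mon_add, X,
        mul_comm]
      intro j h3 h4
      have := hle j h3 h4
      simp only [Pi.add_apply, ev_apply]
      split_ifs <;> omega

/-- Drop the first coordinate. -/
def tl (b : Lat) : Lat := fun j => b (j + 1)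

theorem tl_swp (i : ℕ) (b : Lat) : tl (swp (i + 1) b) = swp i (tl b) := by
  funext j
  simp only [tl, swp_apply]
  split_ifs <;> first | rfl | omega

theorem tl_induction {m : ℕ} {P : Lat → Prop} (h0 : ∀ b, Dom m (tl b) → P b)
    (h1 : ∀ b i, i + 1 < m → b (i + 1) < b (i + 1 + 1) → P (swp (i + 1) b) → P b) (b : Lat) :
    P b := by
  have : ∀ c b, tl b = c → P b := by
    intro c
    induction c using asc_induction (n := m) with
    | h0 c hc => exact fun b hb => h0 b (hb ▸ hc)
    | h1 c i hi h ih =>
      intro b hb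
      subst hb
      exact h1 b i hi h (ih _ (tl_swp i b))
  exact this _ b rfl

theorem Dom.le {n : ℕ} {b : Lat} (h : Dom n b) {i j : ℕ} (hij : i ≤ j) (hj : j < n) :
    b j ≤ b i := by
  induction j, hij using Nat.le_induction with
  | base => exact le_rfl
  | succ j _ ih => exact (h j hj).trans (ih (by omega))

theorem Dom.tl_le {m : ℕ} {b : Lat} (h : Dom m (tl b)) {i j : ℕ} (hi : 0 < i) (hij : i ≤ j)
    (hj : j ≤ m) : b j ≤ b i := by
  have := h.le (i := i - 1) (j := j - 1) (by omega) (by omega)
  rwa [tl, tl, show j - 1 + 1 = j by omega, show i - 1 + 1 = i by omega] at this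

/-- The affine rotation. -/
def rot (m : ℕ) (β : Lat) : Lat := cyc m 0 (β + ev 0)

theorem rot_apply (m : ℕ) (β : Lat) (j : ℕ) :
    rot m β j = if j < m then β (j + 1) else if j = m then β 0 + 1 else β j := by
  simp only [rot, cyc, Pi.add_apply, ev_apply]
  split_ifs <;> first | rfl | omega | contradiction

theorem cnt_swp {m i : ℕ} (hi : i + 1 < m) (β : Lat) : cnt 0 m (swp (i + 1) β) = cnt 0 m β := by
  rw [cnt, cnt, ← sum_range_swap hi fun b => if β 0 < β (0 + 1 + b) then 1 else 0]
  refine sum_congr rfl fun b _ => ?_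
  have h1 : swp (i + 1) β (0 + 1 + b) = β (0 + 1 + Equiv.swap i (i + 1) b) := by
    rw [Equiv.swap_apply_def, swp_apply]
    split_ifs <;> first | rfl | omega | (congr 1; omega)
  rw [h1, swp_of_ne β (by omega) (by omega)]

theorem pi_E (q : R) (m : ℕ) (β : Lat) :
    Tch q 0 m (X 0 * E q (m + 1) β) = C q ^ cnt 0 m β * E q (m + 1) (rot m β) := by
  induction β using tl_induction (m := m) with
  | h0 b hb =>
    refine Tch_X_E q m 0 (zero_add m) b (fun i j h1 h2 h3 _ => ?_) (fun i hi => by omega)
    exact hb.tl_le (by omega) h1.le h2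
  | h1 b i hi h ih =>
    have h1 : rot m (swp (i + 1) b) = swp i (rot m b) := by
      funext j
      simp only [rot_apply, swp_apply]
      split_ifs <;> first | rfl | omega | contradiction
    have h2 : rot m b i < rot m b (i + 1) := by
      rwa [rot_apply, rot_apply, if_pos (by omega), if_pos hi]
    rw [E_asc q (by omega) h, ← T_mul_symm q (sw_X_of_ne (by omega) (by omega)), Tch_T q hi, ih,
      cnt_swp hi, h1, E_asc q (n := m + 1) (by omega) h2,
      T_mul_symm q (by rw [map_pow, sw_C])]

/-- Insert a zero coordinate in front. -/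
def shf : Lat →+ Lat where
  toFun c j := if j = 0 then 0 else c (j - 1)
  map_zero' := by
    funext j
    simp
  map_add' a b := by
    funext j
    simp only [Pi.add_apply]
    split_ifs <;> simp

theorem shf_apply (c : Lat) (j : ℕ) : shf c j = if j = 0 then 0 else c (j - 1) := rfl

theorem tl_shf (c : Lat) : tl (shf c) = c := by
  funext j
  simp [tl, shf_apply]

theorem shf_injective : Function.Injective shf := fun a b h => by
  rw [← tl_shf a, h, tl_shf]

theorem shf_tl {b : Lat} (h : b 0 = 0) : shf (tl b) = b := by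
  funext j
  rw [shf_apply]
  split_ifs with h1
  · rw [h1, h]
  · rw [tl, show j - 1 + 1 = j by omega]

theorem shf_ev (j : ℕ) : shf (ev j) = ev (j + 1) := by
  funext k
  simp only [shf_apply, ev_apply]
  split_ifs <;> first | rfl | omega

theorem swp_shf (i : ℕ) (c : Lat) : swp (i + 1) (shf c) = shf (swp i c) := by
  funext k
  simp only [shf_apply, swp_apply]
  split_ifs <;> first | rfl | omega | contradiction

/-- Shift of the variables. -/
noncomputable def sh : LP R →ₐ[R] LP R := mapDomainAlgHom R R shf

theorem sh_mon (b : Lat) : sh (mon b : LP R) = mon (shf b) := mapDomain_single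

theorem coeff_sh (f : LP R) (c : Lat) : (sh f).coeff (shf c) = f.coeff c :=
  Finsupp.mapDomain_apply shf_injective _ _

theorem sw_sh (i : ℕ) (f : LP R) : sw (i + 1) (sh f) = sh (sw i f) := by
  induction f using AddMonoidAlgebra.induction_linear with
  | zero => simp
  | add x y hx hy => simp only [map_add, hx, hy]
  | single b r => simp only [single_eq_smul, map_smul, sh_mon, sw_mon, swp_shf]

theorem T_sh (q : R) (i : ℕ) (f : LP R) : T q (i + 1) (sh f) = sh (T q i f) := by
  apply T_eq_of
  have h := congrArg sh (T_spec q i f)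
  have hC : sh (C q) = C q := sh.commutes q
  have hX : ∀ j, sh (X j : LP R) = X (j + 1) := fun j => by rw [X, sh_mon, shf_ev, X]
  simp only [map_mul, map_add, map_sub, map_one, hC, hX] at h
  rw [sw_sh]
  exact h

/-- Move the first entry to position `p`. -/
def mv (p : ℕ) (b : Lat) : Lat := fun j =>
  if j < p then b (j + 1) else if j = p then b 0 else b j

theorem E_mv (q : R) {m : ℕ} {b : Lat} (hb : Dom m (tl b)) (h0 : 0 ≤ b 0) (r p : ℕ)
    (hp : p + r = m) (h : ∀ j, 0 < j → j ≤ p → b 0 < b j) :
    E q (m + 1) (mv p b) - (if b 0 = 0 then mon (mv p b) else 0) ∈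
      Supp R {γ | ∀ j ≤ p, 1 ≤ γ j} := by
  have base : ∀ p ≤ m, (∀ j, 0 < j → j ≤ p → b 0 < b j) → (p < m → b (p + 1) ≤ b 0) →
      E q (m + 1) (mv p b) - (if b 0 = 0 then mon (mv p b) else 0) ∈
        Supp R {γ | ∀ j ≤ p, 1 ≤ γ j} := by
    intro p hp h h'
    have hd : Dom (m + 1) (mv p b) := by
      intro i hi
      rcases (show i + 1 < p ∨ i + 1 = p ∨ i = p ∨ p < i by omega) with h1 | h1 | h1 | h1
      · rw [mv, mv, if_pos h1, if_pos (by omega)]
        exact hb.tl_le (by omega) (by omega) (by omega)
      · rw [mv, mv, if_neg (by omega), if_pos h1, if_pos (by omega)]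
        exact (h _ (by omega) (by omega)).le
      · rw [mv, mv, if_neg (by omega), if_neg (by omega), if_neg (by omega), if_pos h1, h1]
        exact h' (by omega)
      · rw [mv, mv, if_neg (by omega), if_neg (by omega), if_neg (by omega), if_neg (by omega)]
        exact hb.tl_le (by omega) (by omega) (by omega)
    rw [E_dom q hd]
    split_ifs with h1
    · rw [sub_self]
      exact Submodule.zero_mem _
    · rw [sub_zero]
      refine mon_mem_Supp fun j hj => ?_
      simp only [mv]
      split_ifs with h2 h3
      · have := h (j + 1) (by omega) (by omega)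
        omega
      · omega
      · omega
  induction r generalizing p with
  | zero => exact base p (by omega) h (by omega)
  | succ r ih =>
    rcases lt_or_ge (b 0) (b (p + 1)) with h1 | h1
    · have h2 := ih (p + 1) (by omega) (fun j h3 h4 => by
        rcases (show j ≤ p ∨ j = p + 1 by omega) with h5 | h5
        · exact h j h3 h5
        · rwa [h5])
      have h3 : mv (p + 1) b (p + 1) < mv (p + 1) b p := by simpa [mv] using h1
      have h4 : swp p (mv (p + 1) b) = mv p b := by
        funext j
        simp only [mv, swp_apply]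
        split_ifs <;> first | rfl | omega | (congr 1; omega)
      have h5 := T_mem_Supp q (i := p) (S := {γ | ∀ j ≤ p + 1, 1 ≤ γ j}) (fun γ hγ δ hδ j hj => by
        have e1 := hγ p (by omega)
        have e2 := hγ (p + 1) le_rfl
        have e3 := hδ.2
        rcases (show j = p ∨ j = p + 1 ∨ (j ≠ p ∧ j ≠ p + 1) by omega) with h6 | h6 | h6
        · rw [h6]
          omega
        · rw [h6]
          omega
        · rw [hδ.1 j h6.1 h6.2]
          exact hγ j hj) h2
      have h6 : Supp R {γ : Lat | ∀ j ≤ p + 1, 1 ≤ γ j} ≤ Supp R {γ | ∀ j ≤ p, 1 ≤ γ j} :=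
        Supp_mono fun γ hγ j hj => hγ j (by omega)
      rw [map_sub, T_E_desc q (by omega) h3, h4] at h5
      split_ifs at h5 ⊢ with h7
      · have h8 := T_mon_desc q h3
        rw [h4] at h8
        have h9 : SBtw p (mv (p + 1) b) ⊆ {γ | ∀ j ≤ p, 1 ≤ γ j} := by
          intro δ hδ j hj
          rcases (show j = p ∨ j < p by omega) with h10 | h10
          · have := hδ.2.2.1
            simp only [mv, lt_irrefl, if_false, if_true] at this
            rw [h10]
            omega
          · rw [hδ.1 j (by omega) (by omega), mv, if_pos (by omega)]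
            have := h (j + 1) (by omega) (by omega)
            omega
        have := Submodule.add_mem _ (h6 h5) (Supp_mono h9 h8)
        rwa [sub_add_sub_cancel] at this
      · rw [map_zero] at h5
        exact h6 h5
    · exact base p (by omega) h fun _ => h1

theorem E_ev0 (q : R) (m : ℕ) (b : Lat) (h0 : 0 ≤ b 0) :
    E q (m + 1) b - (if b 0 = 0 then sh (E q m (tl b)) else 0) ∈ Supp R {γ | 1 ≤ γ 0} := by
  induction b using tl_induction (m := m) with
  | h0 b hb =>
    have h1 := E_mv q hb h0 m 0 (zero_add m) (fun j h1 h2 => by omega)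
    have h2 : mv 0 b = b := by
      funext j
      simp only [mv]
      split_ifs <;> first | rfl | omega | (congr 1; omega)
    rw [h2] at h1
    have h3 : (if b 0 = 0 then sh (E q m (tl b)) else 0) = if b 0 = 0 then mon b else 0 := by
      split_ifs with h4
      · rw [E_dom q hb, sh_mon, shf_tl h4]
      · rfl
    rw [h3]
    exact Supp_mono (S := {γ | ∀ j ≤ 0, 1 ≤ γ j}) (fun γ hγ => hγ 0 le_rfl) h1
  | h1 b i hi h ih =>
    have e0 : swp (i + 1) b 0 = b 0 := swp_of_ne b (by omega) (by omega)
    have h1 := T_mem_Supp q (i := i + 1) (fun γ hγ δ hδ => by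
      show 1 ≤ δ 0
      rw [hδ.1 0 (by omega) (by omega)]
      exact hγ) (ih (by rwa [e0]))
    rw [map_sub, ← E_asc q (by omega) h, e0, tl_swp] at h1
    split_ifs at h1 ⊢ with h2
    · rwa [T_sh, ← E_asc q hi h] at h1
    · rwa [map_zero] at h1

theorem coeff_shf_E (q : R) (m : ℕ) (b : Lat) (h0 : 0 ≤ b 0) (c : Lat) :
    (E q (m + 1) b).coeff (shf c) = if b 0 = 0 then (E q m (tl b)).coeff c else 0 := by
  have h := E_ev0 q m b h0 (shf c) (by simp [shf_apply])
  rw [coeff_sub, Finsupp.sub_apply, sub_eq_zero] at h
  rw [h]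
  split_ifs
  · exact coeff_sh _ _
  · rfl

/-- Exponents of monomials of degree `d` in the first `m` variables. -/
def PSet (m : ℕ) (d : ℤ) : Set Lat :=
  {c | (∀ j, 0 ≤ c j) ∧ (∀ j, m ≤ j → c j = 0) ∧ ∑ j ∈ range m, c j = d}

theorem sum_eq_of_two {m i : ℕ} (hi : i + 1 < m) {f g : ℕ → ℤ}
    (h : ∀ j, j ≠ i → j ≠ i + 1 → f j = g j) :
    ∑ j ∈ range m, f j = ∑ j ∈ range m, g j + (f i + f (i + 1) - g i - g (i + 1)) := by
  have : ∑ j ∈ range m, (f j - g j) = (f i - g i) + (f (i + 1) - g (i + 1)) :=
    sum_eq_add_of_mem i (i + 1) (mem_range.mpr (by omega)) (mem_range.mpr hi) (by omega)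
      fun j _ hj => by rw [h j hj.1 hj.2, sub_self]
  rw [sum_sub_distrib] at this
  omega

theorem Btw_subset_PSet {m i : ℕ} (hi : i + 1 < m) {d : ℤ} {γ : Lat} (hγ : γ ∈ PSet m d) :
    Btw i γ ⊆ PSet m d := by
  intro δ hδ
  have e1 := hγ.1 i
  have e2 := hγ.1 (i + 1)
  have e3 := hδ.2
  refine ⟨fun j => ?_, fun j hj => ?_, ?_⟩
  · rcases (show j = i ∨ j = i + 1 ∨ (j ≠ i ∧ j ≠ i + 1) by omega) with h | h | h
    · rw [h]
      omega
    · rw [h]
      omega
    · rw [hδ.1 j h.1 h.2]
      exact hγ.1 j
  · rw [hδ.1 j (by omega) (by omega)]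
    exact hγ.2.1 j hj
  · rw [sum_eq_of_two hi hδ.1, hγ.2.2]
    omega

theorem E_mem_PSet (q : R) {m : ℕ} {d : ℤ} {c : Lat} (hc : c ∈ PSet m d) :
    E q m c ∈ Supp R (PSet m d) :=
  E_mem_Supp q (fun _ hi _ hγ => Btw_subset_PSet hi hγ) c hc

theorem mon_mem_span (q : R) {m : ℕ} {d : ℤ} {c : Lat} (hc : c ∈ PSet m d) :
    (mon c : LP R) ∈ Submodule.span R (E q m '' PSet m d) := by
  set W := Submodule.span R (E q m '' PSet m d) with hW
  have hT : ∀ i, i + 1 < m → ∀ f ∈ W, T q i f ∈ W := by
    intro i hi f hf
    refine Submodule.span_induction (p := fun f _ => T q i f ∈ W) ?_ ?_ ?_ ?_ hf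
    · rintro _ ⟨b, hb, rfl⟩
      have h1 : E q m b ∈ W := Submodule.subset_span ⟨b, hb, rfl⟩
      have h2 : E q m (swp i b) ∈ W :=
        Submodule.subset_span ⟨_, Btw_subset_PSet hi hb (swp_mem_Btw i b), rfl⟩
      rcases lt_trichotomy (b i) (b (i + 1)) with h | h | h
      · rw [T_E_asc q hi h, C_sub_one]
        exact W.add_mem (C_mul_mem _ h2) (C_mul_mem _ h1)
      · rw [T_E_eq q hi h]
        exact C_mul_mem _ h1
      · rw [T_E_desc q hi h]
        exact h2
    · rw [map_zero]
      exact W.zero_mem
    · intro x y _ _ hx hy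
      rw [map_add]
      exact W.add_mem hx hy
    · intro a x _ hx
      rw [map_smul]
      exact W.smul_mem a hx
  induction hN : (∑ j ∈ range m, c j ^ 2).toNat using Nat.strong_induction_on generalizing c with
  | _ N ih =>
    induction c using asc_induction (n := m) with
    | h0 b hb =>
      rw [← E_dom q hb]
      exact Submodule.subset_span ⟨b, hc, rfl⟩
    | h1 b i hi h ih2 =>
      have hb' := Btw_subset_PSet hi hc (swp_mem_Btw i b)
      have hs : ∑ j ∈ range m, swp i b j ^ 2 = ∑ j ∈ range m, b j ^ 2 :=
        sum_range_swap hi fun j => b j ^ 2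
      have h1 := hT i hi _ (ih2 hb' (by rw [hs, hN]))
      have h2 := T_mon_desc q (i := i) (γ := swp i b) (by rwa [swp_left, swp_right])
      rw [swp_swp] at h2
      have h3 := map_mem_of_Supp LinearMap.id W (fun δ hδ => by
        have e1 := hδ.2
        refine ih _ ?_ (Btw_subset_PSet hi hb' ⟨hδ.1, hδ.2.1, by omega, by omega⟩) rfl
        have e2 := sum_eq_of_two hi (f := fun j => δ j ^ 2) (g := fun j => swp i b j ^ 2)
          fun j h4 h5 => by rw [hδ.1 j h4 h5]
        have e3 : δ i ^ 2 + δ (i + 1) ^ 2 < swp i b i ^ 2 + swp i b (i + 1) ^ 2 := by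
          have e4 : δ (i + 1) = swp i b i + swp i b (i + 1) - δ i := by omega
          rw [e4]
          nlinarith [mul_pos (sub_pos.mpr e1.2.1) (sub_pos.mpr e1.2.2)]
        have e5 : 0 ≤ ∑ j ∈ range m, δ j ^ 2 := sum_nonneg fun j _ => sq_nonneg _
        omega) h2
      have := W.sub_mem h1 h3
      rwa [LinearMap.id_apply, sub_sub_cancel] at this

end Pool.Agent.Lib.MP_0bb0c3_co
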