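import Mathlib

/-! Formal series on a lattice as a module over the Laurent polynomials; expansions of quotients
of products of binomials in a half space. -/

open AddMonoidAlgebra

namespace Pool.Agent.Lib.MP_0bb0c3_co

variable {Λ Λ' A A' : Type*} [AddCommGroup Λ] [AddCommGroup Λ'] [CommRing A] [CommRing A']

/-- Translation of a function on the lattice. -/
def shiftL (A : Type*) [CommRing A] (m : Λ) : (Λ → A) →ₗ[A] (Λ → A) where
  toFun f := fun p => f (p - m)
  map_add' _ _ := rfl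
  map_smul' _ _ := rfl

/-- Translations as a monoid homomorphism. -/
def shiftM (A : Type*) [CommRing A] (Λ : Type*) [AddCommGroup Λ] :
    Multiplicative Λ →* Module.End A (Λ → A) where
  toFun m := shiftL A m.toAdd
  map_one' := by
    ext f p
    simp [shiftL]
  map_mul' a b := by
    refine LinearMap.ext fun f => funext fun p => ?_
    show f (p - (a.toAdd + b.toAdd)) = f (p - a.toAdd - b.toAdd)
    rw [sub_sub]

/-- The action of Laurent polynomials on arbitrary formal series. -/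
noncomputable def act : AddMonoidAlgebra A Λ →ₐ[A] Module.End A (Λ → A) :=
  AddMonoidAlgebra.lift A (Module.End A (Λ → A)) Λ (shiftM A Λ)

theorem act_single (m : Λ) (a : A) (f : Λ → A) (p : Λ) :
    act (single m a) f p = a * f (p - m) := by
  rw [act, lift_single]
  rfl

theorem act_mul (D D' : AddMonoidAlgebra A Λ) (f : Λ → A) :
    act (D * D') f = act D (act D' f) := by
  rw [map_mul]
  rfl

theorem act_one (f : Λ → A) : act (1 : AddMonoidAlgebra A Λ) f = f := by
  rw [map_one]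
  rfl

theorem act_add (D D' : AddMonoidAlgebra A Λ) (f : Λ → A) :
    act (D + D') f = act D f + act D' f := by
  rw [map_add]
  rfl

theorem act_sub (D D' : AddMonoidAlgebra A Λ) (f : Λ → A) :
    act (D - D') f = act D f - act D' f := by
  rw [map_sub]
  rfl

theorem act_zero (f : Λ → A) : act (0 : AddMonoidAlgebra A Λ) f = 0 := by
  rw [map_zero]
  rfl

theorem act_comm (D D' : AddMonoidAlgebra A Λ) (f : Λ → A) :
    act D (act D' f) = act D' (act D f) := by
  rw [← act_mul, mul_comm, act_mul]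

theorem act_sum {ι : Type*} (s : Finset ι) (D : ι → AddMonoidAlgebra A Λ) (f : Λ → A) :
    act (∑ i ∈ s, D i) f = ∑ i ∈ s, act (D i) f := by
  rw [map_sum, LinearMap.sum_apply]

theorem act_apply (D : AddMonoidAlgebra A Λ) (f : Λ → A) (p : Λ) :
    act D f p = D.coeff.sum fun m a => a * f (p - m) := by
  induction D using AddMonoidAlgebra.induction_linear with
  | zero => simp
  | add x y hx hy =>
    rw [act_add, Pi.add_apply, hx, hy, coeff_add, Finsupp.sum_add_index']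
    · intro m
      rw [zero_mul]
    · intro m a b
      rw [add_mul]
  | single m r =>
    rw [act_single, coeff_single, Finsupp.sum_single_index]
    rw [zero_mul]

theorem act_coeff (D N : AddMonoidAlgebra A Λ) : act D (⇑N.coeff) = ⇑(D * N).coeff := by
  induction D using AddMonoidAlgebra.induction_linear with
  | zero => simp
  | add x y hx hy => rw [act_add, hx, hy, add_mul, coeff_add, Finsupp.coe_add]
  | single m r =>
    funext p
    rw [act_single, coeff_single_mul_apply, neg_add_eq_sub]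

/-- `f` vanishes where `φ < c`. -/
def Bdd (φ : Λ →+ ℤ) (c : ℤ) (f : Λ → A) : Prop := ∀ p, φ p < c → f p = 0

theorem Bdd.mono {φ : Λ →+ ℤ} {c c' : ℤ} {f : Λ → A} (h : Bdd φ c f) (hc : c' ≤ c) :
    Bdd φ c' f := fun p hp => h p (hp.trans_le hc)

theorem Bdd.add {φ : Λ →+ ℤ} {c : ℤ} {f g : Λ → A} (h : Bdd φ c f) (h' : Bdd φ c g) :
    Bdd φ c (f + g) := fun p hp => by rw [Pi.add_apply, h p hp, h' p hp, add_zero]

theorem Bdd.sub {φ : Λ →+ ℤ} {c : ℤ} {f g : Λ → A} (h : Bdd φ c f) (h' : Bdd φ c g) :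
    Bdd φ c (f - g) := fun p hp => by rw [Pi.sub_apply, h p hp, h' p hp, sub_zero]

theorem Bdd.act {φ : Λ →+ ℤ} {c c' : ℤ} {N : AddMonoidAlgebra A Λ} {f : Λ → A}
    (hN : Bdd φ c N.coeff) (h : Bdd φ c' f) : Bdd φ (c + c') (act N f) := by
  intro p hp
  rw [act_apply]
  refine Finset.sum_eq_zero fun m hm => ?_
  have h1 : c ≤ φ m := not_lt.mp fun h1 => Finsupp.mem_support_iff.mp hm (hN m h1)
  show N.coeff m * f (p - m) = 0
  rw [h (p - m) (by rw [map_sub]; omega), mul_zero]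

theorem Bdd.mul {φ : Λ →+ ℤ} {c c' : ℤ} {N N' : AddMonoidAlgebra A Λ}
    (hN : Bdd φ c N.coeff) (h : Bdd φ c' N'.coeff) : Bdd φ (c + c') (N * N').coeff := by
  rw [← act_coeff]
  exact hN.act h

theorem bdd_single (φ : Λ →+ ℤ) (m : Λ) (a : A) : Bdd φ (φ m) (single m a).coeff := by
  intro p hp
  rw [coeff_single, Finsupp.single_eq_of_ne]
  rintro rfl
  exact lt_irrefl _ hp

theorem bdd_one (φ : Λ →+ ℤ) : Bdd φ 0 (1 : AddMonoidAlgebra A Λ).coeff := by
  have := bdd_single φ 0 (1 : A)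
  rwa [map_zero] at this

theorem exists_bdd (φ : Λ →+ ℤ) (N : AddMonoidAlgebra A Λ) : ∃ c, Bdd φ c N.coeff := by
  obtain ⟨c, hc⟩ := (N.coeff.support.image φ).bddBelow
  refine ⟨c, fun p hp => ?_⟩
  by_contra h
  have := hc (Finset.mem_coe.mpr (Finset.mem_image_of_mem φ (Finsupp.mem_support_iff.mpr h)))
  omega

/-- The binomial `1 - a x^m`. -/
noncomputable def binom (a : A) (m : Λ) : AddMonoidAlgebra A Λ := 1 - single m a

theorem act_binom (a : A) (m : Λ) (f : Λ → A) (p : Λ) :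
    act (binom a m) f p = f p - a * f (p - m) := by
  rw [binom, act_sub, act_one, Pi.sub_apply, act_single]

theorem bdd_binom (φ : Λ →+ ℤ) (a : A) (m : Λ) : Bdd φ (min 0 (φ m)) (binom a m).coeff := by
  rw [binom, coeff_sub, Finsupp.coe_sub]
  exact ((bdd_one φ).mono (min_le_left _ _)).sub ((bdd_single φ m a).mono (min_le_right _ _))

/-- Products of binomials with exponents in `C`. -/
noncomputable def BP (A : Type*) [CommRing A] (C : Set Λ) : Submonoid (AddMonoidAlgebra A Λ) :=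
  Submonoid.closure {D | ∃ a, ∃ m ∈ C, D = binom a m}

theorem binom_mem {C : Set Λ} (a : A) {m : Λ} (hm : m ∈ C) : binom a m ∈ BP A C :=
  Submonoid.subset_closure ⟨a, m, hm, rfl⟩

theorem BP_mono {C C' : Set Λ} (h : C ⊆ C') : BP A C ≤ BP A C' :=
  Submonoid.closure_mono fun _ ⟨a, m, hm, hD⟩ => ⟨a, m, h hm, hD⟩

theorem BP_bdd {C : Set Λ} {ψ : Λ →+ ℤ} (hψ : ∀ m ∈ C, 0 ≤ ψ m) {D : AddMonoidAlgebra A Λ}
    (hD : D ∈ BP A C) : Bdd ψ 0 D.coeff := by
  induction hD using Submonoid.closure_induction with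
  | mem x hx =>
    obtain ⟨a, m, hm, rfl⟩ := hx
    exact (bdd_binom ψ a m).mono (le_min le_rfl (hψ m hm))
  | one => exact bdd_one ψ
  | mul x y _ _ hx hy => simpa using hx.mul hy

theorem BP_act_bdd {C : Set Λ} {ψ : Λ →+ ℤ} (hψ : ∀ m ∈ C, 0 ≤ ψ m) {D : AddMonoidAlgebra A Λ}
    (hD : D ∈ BP A C) {c : ℤ} {f : Λ → A} (hf : Bdd ψ c f) : Bdd ψ c (act D f) := by
  simpa using (BP_bdd hψ hD).act hf

theorem binom_inj {φ : Λ →+ ℤ} {a : A} {m : Λ} (hm : 0 < φ m) {c : ℤ} {f : Λ → A}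
    (hf : Bdd φ c f) (h : act (binom a m) f = 0) : f = 0 := by
  have key : ∀ k : ℕ, ∀ p, φ p < c + k → f p = 0 := by
    intro k
    induction k with
    | zero => exact fun p hp => hf p (by simpa using hp)
    | succ k ih =>
      intro p hp
      have h1 := congrFun h p
      rw [act_binom, ih (p - m) (by rw [map_sub]; push_cast at hp; omega), mul_zero,
        sub_zero] at h1
      exact h1
  funext p
  exact key (φ p - c + 1).toNat p (by omega)

theorem BP_inj {C : Set Λ} {φ : Λ →+ ℤ} (hφ : ∀ m ∈ C, 0 < φ m) {D : AddMonoidAlgebra A Λ}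
    (hD : D ∈ BP A C) {c : ℤ} {f : Λ → A} (hf : Bdd φ c f) (h : act D f = 0) : f = 0 := by
  induction hD using Submonoid.closure_induction generalizing f with
  | mem x hx =>
    obtain ⟨a, m, hm, rfl⟩ := hx
    exact binom_inj (hφ m hm) hf h
  | one => rwa [act_one] at h
  | mul x y _ hy' hx hy =>
    rw [act_mul] at h
    exact hy hf (hx (BP_act_bdd (fun m hm => (hφ m hm).le) hy' hf) h)

theorem BP_inj' {C : Set Λ} {φ : Λ →+ ℤ} (hφ : ∀ m ∈ C, 0 < φ m) {D : AddMonoidAlgebra A Λ}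
    (hD : D ∈ BP A C) {c c' : ℤ} {f g : Λ → A} (hf : Bdd φ c f) (hg : Bdd φ c' g)
    (h : act D f = act D g) : f = g := by
  refine sub_eq_zero.mp (BP_inj hφ hD
    ((hf.mono (min_le_left c c')).sub (hg.mono (min_le_right c c'))) ?_)
  rw [map_sub, h, sub_self]

theorem binom_surj {φ : Λ →+ ℤ} (a : A) {m : Λ} (hm : 0 < φ m) {c : ℤ} {f : Λ → A}
    (hf : Bdd φ c f) : ∃ g, act (binom a m) g = f ∧
      ∀ (ψ : Λ →+ ℤ) (c' : ℤ), 0 ≤ ψ m → Bdd ψ c' f → Bdd ψ c' g := by
  have hz : ∀ (p : Λ) (k : ℕ), (φ p - c + 1).toNat ≤ k → a ^ k * f (p - k • m) = 0 := by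
    intro p k hk
    rw [hf _ (by
      rw [map_sub, map_nsmul, nsmul_eq_mul]
      have : (k : ℤ) ≤ k * φ m := le_mul_of_one_le_right (by positivity) hm
      omega), mul_zero]
  have hs : ∀ (p : Λ) (K : ℕ), (φ p - c + 1).toNat ≤ K →
      ∑ k ∈ Finset.range (φ p - c + 1).toNat, a ^ k * f (p - k • m) =
        ∑ k ∈ Finset.range K, a ^ k * f (p - k • m) := by
    intro p K hK
    refine Finset.sum_subset (Finset.range_subset_range.mpr hK) fun k _ hk => hz p k ?_
    simpa using hk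
  refine ⟨fun p => ∑ k ∈ Finset.range (φ p - c + 1).toNat, a ^ k * f (p - k • m), ?_, ?_⟩
  · funext p
    rw [act_binom, hs p ((φ p - c + 1).toNat + 1) (by omega),
      hs (p - m) (φ p - c + 1).toNat (by rw [map_sub]; omega), Finset.sum_range_succ',
      Finset.mul_sum]
    have : ∀ k : ℕ, a * (a ^ k * f (p - m - k • m)) = a ^ (k + 1) * f (p - (k + 1) • m) := by
      intro k
      rw [pow_succ', mul_assoc, succ_nsmul', sub_sub]
    simp only [this]
    simp
  · intro ψ c' hψ hf' p hp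
    refine Finset.sum_eq_zero fun k _ => ?_
    rw [hf' _ (by
      rw [map_sub, map_nsmul, nsmul_eq_mul]
      have : 0 ≤ (k : ℤ) * ψ m := by positivity
      omega), mul_zero]

theorem BP_surj {C : Set Λ} {φ : Λ →+ ℤ} (hφ : ∀ m ∈ C, 0 < φ m) {D : AddMonoidAlgebra A Λ}
    (hD : D ∈ BP A C) {c : ℤ} {f : Λ → A} (hf : Bdd φ c f) : ∃ g, act D g = f ∧
      ∀ (ψ : Λ →+ ℤ) (c' : ℤ), (∀ m ∈ C, 0 ≤ ψ m) → Bdd ψ c' f → Bdd ψ c' g := by
  induction hD using Submonoid.closure_induction generalizing f with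
  | mem x hx =>
    obtain ⟨a, m, hm, rfl⟩ := hx
    obtain ⟨g, hg, hb⟩ := binom_surj a (hφ m hm) hf
    exact ⟨g, hg, fun ψ c' hψ => hb ψ c' (hψ m hm)⟩
  | one => exact ⟨f, act_one f, fun _ _ _ h => h⟩
  | mul x y _ _ hx hy =>
    obtain ⟨g, hg, hb⟩ := hx hf
    obtain ⟨g', hg', hb'⟩ := hy (hb φ c (fun m hm => (hφ m hm).le) hf)
    exact ⟨g', by rw [act_mul, hg', hg], fun ψ c' hψ h => hb' ψ c' hψ (hb ψ c' hψ h)⟩

/-- `f` is the expansion of `N / D` in the half space given by `φ`. -/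
def Sol (φ : Λ →+ ℤ) (D N : AddMonoidAlgebra A Λ) (f : Λ → A) : Prop :=
  (∃ c, Bdd φ c f) ∧ act D f = ⇑N.coeff

theorem Sol.unique {C : Set Λ} {φ : Λ →+ ℤ} (hφ : ∀ m ∈ C, 0 < φ m) {D N : AddMonoidAlgebra A Λ}
    (hD : D ∈ BP A C) {f g : Λ → A} (hf : Sol φ D N f) (hg : Sol φ D N g) : f = g := by
  obtain ⟨⟨c, hc⟩, h⟩ := hf
  obtain ⟨⟨c', hc'⟩, h'⟩ := hg
  exact BP_inj' hφ hD hc hc' (h.trans h'.symm)

theorem exists_sol {C : Set Λ} {φ : Λ →+ ℤ} (hφ : ∀ m ∈ C, 0 < φ m) {D : AddMonoidAlgebra A Λ}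
    (hD : D ∈ BP A C) (N : AddMonoidAlgebra A Λ) : ∃ f, Sol φ D N f := by
  obtain ⟨c, hc⟩ := exists_bdd φ N
  obtain ⟨g, hg, hb⟩ := BP_surj hφ hD hc
  exact ⟨g, ⟨c, hb φ c (fun m hm => (hφ m hm).le) hc⟩, hg⟩

theorem Sol.bdd {C : Set Λ} {φ : Λ →+ ℤ} (hφ : ∀ m ∈ C, 0 < φ m) {D N : AddMonoidAlgebra A Λ}
    (hD : D ∈ BP A C) {f : Λ → A} (hf : Sol φ D N f) {ψ : Λ →+ ℤ} (hψ : ∀ m ∈ C, 0 ≤ ψ m)
    {c : ℤ} (hN : Bdd ψ c N.coeff) : Bdd ψ c f := by
  obtain ⟨c', hc'⟩ := exists_bdd φ N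
  obtain ⟨g, hg, hb⟩ := BP_surj hφ hD hc'
  rw [Sol.unique hφ hD hf ⟨⟨c', hb φ c' (fun m hm => (hφ m hm).le) hc'⟩, hg⟩]
  exact hb ψ c hψ hN

theorem act_map (h : A →+* A') (D : AddMonoidAlgebra A Λ) (f : Λ → A) :
    act (mapRingHom Λ h D) (h ∘ f) = h ∘ act D f := by
  induction D using AddMonoidAlgebra.induction_linear with
  | zero =>
    rw [map_zero, act_zero, act_zero]
    funext p
    exact (map_zero h).symm
  | add x y hx hy =>
    rw [map_add, act_add, act_add, hx, hy]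
    funext p
    exact (map_add h _ _).symm
  | single m r =>
    funext p
    rw [mapRingHom_single, act_single, Function.comp_apply, Function.comp_apply, act_single,
      map_mul]

theorem map_binom (h : A →+* A') (a : A) (m : Λ) :
    mapRingHom Λ h (binom a m) = binom (h a) m := by
  rw [binom, binom, map_sub, map_one, mapRingHom_single]

theorem Sol.map (h : A →+* A') {φ : Λ →+ ℤ} {D N : AddMonoidAlgebra A Λ} {f : Λ → A}
    (hf : Sol φ D N f) : Sol φ (mapRingHom Λ h D) (mapRingHom Λ h N) (h ∘ f) := by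
  obtain ⟨⟨c, hc⟩, he⟩ := hf
  refine ⟨⟨c, fun p hp => by rw [Function.comp_apply, hc p hp, map_zero]⟩, ?_⟩
  rw [act_map, he]
  funext p
  rw [coeff_mapRingHom, Function.comp_apply]

theorem act_domCongr (e : Λ ≃+ Λ') (D : AddMonoidAlgebra A Λ) (f : Λ → A) :
    act (domCongr A A e D) (f ∘ e.symm) = act D f ∘ e.symm := by
  induction D using AddMonoidAlgebra.induction_linear with
  | zero =>
    rw [map_zero, act_zero, act_zero]
    rfl
  | add x y hx hy =>
    rw [map_add, act_add, act_add, hx, hy]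
    rfl
  | single m r =>
    funext p
    rw [domCongr_single, act_single, Function.comp_apply, Function.comp_apply, act_single,
      map_sub, AddEquiv.symm_apply_apply]

theorem domCongr_binom (e : Λ ≃+ Λ') (a : A) (m : Λ) :
    domCongr A A e (binom a m) = binom a (e m) := by
  rw [binom, binom, map_sub, map_one, domCongr_single]

/-- `τ` intertwines the actions of `D` and `D'`. -/
def Rel (τ : (Λ → A) →+ (Λ' → A')) (D : AddMonoidAlgebra A Λ) (D' : AddMonoidAlgebra A' Λ') :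
    Prop := ∀ f, τ (act D f) = act D' (τ f)

theorem Rel.one (τ : (Λ → A) →+ (Λ' → A')) : Rel τ 1 1 := fun f => by rw [act_one, act_one]

theorem Rel.mul {τ : (Λ → A) →+ (Λ' → A')} {D₁ D₂ : AddMonoidAlgebra A Λ}
    {D₁' D₂' : AddMonoidAlgebra A' Λ'} (h₁ : Rel τ D₁ D₁') (h₂ : Rel τ D₂ D₂') :
    Rel τ (D₁ * D₂) (D₁' * D₂') := fun f => by rw [act_mul, act_mul, h₁, h₂]

theorem Rel.binom {τ : (Λ → A) →+ (Λ' → A')} {a : A} {m : Λ} {a' : A'} {m' : Λ'}
    (h : Rel τ (single m a) (single m' a')) : Rel τ (binom a m) (binom a' m') := fun f => by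
  rw [MP_0bb0c3_co.binom, MP_0bb0c3_co.binom, act_sub, act_sub, act_one, act_one, map_sub, h]

theorem Rel.prod {τ : (Λ → A) →+ (Λ' → A')} {ι : Type*} (s : Finset ι)
    {D : ι → AddMonoidAlgebra A Λ} {D' : ι → AddMonoidAlgebra A' Λ'}
    (h : ∀ i ∈ s, Rel τ (D i) (D' i)) : Rel τ (∏ i ∈ s, D i) (∏ i ∈ s, D' i) := by
  classical
  induction s using Finset.induction_on with
  | empty => simpa using Rel.one τ
  | insert i s hi ih =>
    rw [Finset.prod_insert hi, Finset.prod_insert hi]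
    exact (h i (Finset.mem_insert_self _ _)).mul
      (ih fun j hj => h j (Finset.mem_insert_of_mem hj))

end Pool.Agent.Lib.MP_0bb0c3_co
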