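import Pool.Agent.Lib.MP_0bb0c3_co.Hecke

/-! Evaluation of a constant term in the last variable. -/

open AddMonoidAlgebra Finset

namespace Pool.Agent.Lib.MP_0bb0c3_co

variable {A : Type*} [CommRing A]

/-- The `k`-th coordinate. -/
def crd (k : ℕ) : Lat →+ ℤ := Pi.evalAddMonoidHom (fun _ => ℤ) k

theorem crd_apply (k : ℕ) (b : Lat) : crd k b = b k := rfl

/-- Nonnegative before `k`, zero after `k`. -/
def Om (k : ℕ) : Set Lat := {b | (∀ i < k, 0 ≤ b i) ∧ ∀ j, k < j → b j = 0}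

/-- Functions vanishing on `Om k`. -/
def Nul (A : Type*) [CommRing A] (k : ℕ) : Submodule A (Lat → A) where
  carrier := {f | ∀ b ∈ Om k, f b = 0}
  add_mem' {f g} hf hg b hb := by rw [Pi.add_apply, hf b hb, hg b hb, add_zero]
  zero_mem' _ _ := rfl
  smul_mem' a f hf b hb := by rw [Pi.smul_apply, hf b hb, smul_zero]

/-- Exponents of the binomials involving the variable `k`. -/
def Ck (k : ℕ) : Set Lat := {m | m = ev k ∨ ∃ i < k, m = ev k - ev i}

theorem Ck_crd {k : ℕ} {m : Lat} (hm : m ∈ Ck k) : m k = 1 := by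
  rcases hm with rfl | ⟨i, hi, rfl⟩
  · rw [ev_apply, if_pos rfl]
  · rw [Pi.sub_apply, ev_apply, ev_apply, if_pos rfl, if_neg hi.ne', sub_zero]

theorem Om_sub {k : ℕ} {m b : Lat} (hm : m ∈ Ck k) (hb : b ∈ Om k) : b - m ∈ Om k := by
  refine ⟨fun i hi => ?_, fun j hj => ?_⟩
  · have := hb.1 i hi
    rcases hm with rfl | ⟨l, hl, rfl⟩
    all_goals
      simp only [Pi.sub_apply, ev_apply]
      split_ifs <;> omega
  · have := hb.2 j hj
    rcases hm with rfl | ⟨l, hl, rfl⟩
    all_goals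
      simp only [Pi.sub_apply, ev_apply]
      split_ifs <;> omega

theorem Nul_act {k : ℕ} {D : AddMonoidAlgebra A Lat} (hD : D ∈ BP A (Ck k)) {f : Lat → A}
    (hf : f ∈ Nul A k) : act D f ∈ Nul A k := by
  induction hD using Submonoid.closure_induction generalizing f with
  | mem x hx =>
    obtain ⟨a, m, hm, rfl⟩ := hx
    intro b hb
    rw [act_binom, hf b hb, hf _ (Om_sub hm hb), mul_zero, sub_zero]
  | one => rwa [act_one]
  | mul x y _ _ hx hy =>
    rw [act_mul]
    exact hx (hy hf)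

theorem Nul_inj {k : ℕ} {D : AddMonoidAlgebra A Lat} (hD : D ∈ BP A (Ck k)) {f : Lat → A}
    (hf : Bdd (crd k) 0 f) (h : act D f ∈ Nul A k) : f ∈ Nul A k := by
  induction hD using Submonoid.closure_induction generalizing f with
  | mem x hx =>
    obtain ⟨a, m, hm, rfl⟩ := hx
    have key : ∀ r : ℕ, ∀ b ∈ Om k, b k < r → f b = 0 := by
      intro r
      induction r with
      | zero => exact fun b _ h1 => hf b h1
      | succ r ih =>
        intro b hb h1
        have h2 := h b hb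
        rwa [act_binom, ih _ (Om_sub hm hb) (by
          rw [Pi.sub_apply, Ck_crd hm]
          push_cast at h1
          omega), mul_zero, sub_zero] at h2
    exact fun b hb => key (b k + 1).toNat b hb (by omega)
  | one => rwa [act_one] at h
  | mul x y _ hy' hx hy =>
    rw [act_mul] at h
    exact hy hf (hx (BP_act_bdd (fun m hm => by rw [crd_apply, Ck_crd hm]; omega) hy' hf) h)

/-- Monomial in the values `z`. -/
def zpw (k : ℕ) (z : ℕ → A) (b : Lat) : A := ∏ i ∈ range k, z i ^ (b i).toNat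

/-- Geometric in the first `k` coordinates, given by a power series in the coordinate `k`. -/
noncomputable def extS (k : ℕ) (z : ℕ → A) (s : PowerSeries A) (b : Lat) : A :=
  zpw k z b * if 0 ≤ b k then PowerSeries.coeff (b k).toNat s else 0

/-- `D` acts as `P` on functions that are geometric in the first `k` coordinates. -/
def RelT (k : ℕ) (z : ℕ → A) (D : AddMonoidAlgebra A Lat) (P : PowerSeries A) : Prop :=
  D ∈ BP A (Ck k) ∧ ∀ s, act D (extS k z s) - extS k z (P * s) ∈ Nul A k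

theorem RelT.one (k : ℕ) (z : ℕ → A) : RelT k z 1 1 :=
  ⟨one_mem _, fun s => by
    rw [act_one, one_mul, sub_self]
    exact zero_mem _⟩

theorem RelT.mul {k : ℕ} {z : ℕ → A} {D D' : AddMonoidAlgebra A Lat} {P P' : PowerSeries A}
    (h : RelT k z D P) (h' : RelT k z D' P') : RelT k z (D * D') (P * P') :=
  ⟨mul_mem h.1 h'.1, fun s => by
    have := (Nul A k).add_mem (Nul_act h.1 (h'.2 s)) (h.2 (P' * s))
    rwa [map_sub, sub_add_sub_cancel, ← act_mul, ← mul_assoc] at this⟩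

theorem RelT.prod {k : ℕ} {z : ℕ → A} {ι : Type*} (s : Finset ι)
    {D : ι → AddMonoidAlgebra A Lat} {P : ι → PowerSeries A}
    (h : ∀ i ∈ s, RelT k z (D i) (P i)) : RelT k z (∏ i ∈ s, D i) (∏ i ∈ s, P i) := by
  classical
  induction s using Finset.induction_on with
  | empty => simpa using RelT.one k z
  | insert i s hi ih =>
    rw [Finset.prod_insert hi, Finset.prod_insert hi]
    exact (h i (Finset.mem_insert_self _ _)).mul
      (ih fun j hj => h j (Finset.mem_insert_of_mem hj))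

/-- The linear factor `1 - a X`. -/
noncomputable def lf (a : A) : PowerSeries A := 1 - PowerSeries.C a * PowerSeries.X

theorem relT_of {k : ℕ} {z : ℕ → A} (a u : A) {m : Lat} (hm : m ∈ Ck k)
    (hu : ∀ b ∈ Om k, zpw k z (b - m) = u * zpw k z b) :
    RelT k z (binom a m) (lf (a * u)) := by
  refine ⟨binom_mem a hm, fun s b hb => ?_⟩
  rw [Pi.sub_apply, act_binom, extS, extS, extS, hu b hb, Pi.sub_apply, Ck_crd hm, lf, sub_mul,
    one_mul, map_sub, mul_assoc (PowerSeries.C _), PowerSeries.coeff_C_mul]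
  rcases lt_trichotomy (b k) 0 with h | h | h
  · rw [if_neg h.not_ge, if_neg (by omega), if_neg h.not_ge]
    ring
  · rw [h, if_pos le_rfl, if_neg (by omega), if_pos le_rfl, Int.toNat_zero,
      PowerSeries.coeff_zero_X_mul]
    ring
  · rw [if_pos h.le, if_pos (by omega), if_pos h.le,
      show (b k).toNat = (b k - 1).toNat + 1 by omega, PowerSeries.coeff_succ_X_mul]
    ring

theorem relT_binom0 (k : ℕ) (z : ℕ → A) (a : A) : RelT k z (binom a (ev k)) (lf a) := by
  have := relT_of (k := k) (z := z) a 1 (Or.inl rfl) fun b _ => by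
    rw [one_mul, zpw, zpw]
    refine prod_congr rfl fun i hi => ?_
    rw [Pi.sub_apply, ev_apply, if_neg (mem_range.mp hi).ne, sub_zero]
  rwa [mul_one] at this

theorem relT_binom {k i : ℕ} (hi : i < k) (z : ℕ → A) (a : A) :
    RelT k z (binom a (ev k - ev i)) (lf (a * z i)) := by
  refine relT_of a (z i) (Or.inr ⟨i, hi, rfl⟩) fun b hb => ?_
  rw [zpw, zpw, ← mul_prod_erase _ _ (mem_range.mpr hi), ← mul_prod_erase _ _ (mem_range.mpr hi),
    ← mul_assoc, ← pow_succ']
  congr 1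
  · congr 1
    have := hb.1 i hi
    simp only [Pi.sub_apply, ev_apply, if_neg hi.ne, if_true]
    omega
  · refine prod_congr rfl fun j hj => ?_
    have h1 := mem_range.mp (mem_of_mem_erase hj)
    simp only [Pi.sub_apply, ev_apply, if_neg h1.ne, if_neg (ne_of_mem_erase hj), sub_zero]

theorem step_formula {k : ℕ} {ι : Type*} (t : Finset ι) (w : ι → A) (z : ι → ℕ → A)
    (PD PN s : ι → PowerSeries A) {D N : AddMonoidAlgebra A Lat} {f f' : Lat → A}
    (hDm : D ∈ BP A (Ck k)) (hNm : N ∈ BP A (Ck k)) (hD : ∀ T ∈ t, RelT k (z T) D (PD T))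
    (hN : ∀ T ∈ t, RelT k (z T) N (PN T)) (hs : ∀ T ∈ t, PD T * s T = PN T)
    (heq : act D f' = act N f) (hf' : Bdd (crd k) 0 f')
    (hf0 : ∀ b ∈ Om k, b k ≠ 0 → f b = 0)
    (hf : ∀ b ∈ Om k, b k = 0 → f b = ∑ T ∈ t, w T * zpw k (z T) b) {b : Lat} (hb : b ∈ Om k)
    (hbk : 0 ≤ b k) :
    f' b = ∑ T ∈ t, w T * (zpw k (z T) b * PowerSeries.coeff (b k).toNat (s T)) := by
  have h1 : f - ∑ T ∈ t, w T • extS k (z T) 1 ∈ Nul A k := by
    intro c hc
    rw [Pi.sub_apply, Finset.sum_apply, sub_eq_zero]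
    by_cases h : c k = 0
    · rw [hf c hc h]
      refine sum_congr rfl fun T _ => ?_
      rw [Pi.smul_apply, smul_eq_mul, extS, h, if_pos le_rfl, Int.toNat_zero,
        PowerSeries.coeff_zero_one, mul_one]
    · rw [hf0 c hc h]
      refine (sum_eq_zero fun T _ => ?_).symm
      rw [Pi.smul_apply, smul_eq_mul, extS]
      split_ifs with h2
      · rw [PowerSeries.coeff_one, if_neg (by omega), mul_zero, mul_zero]
      · rw [mul_zero, mul_zero]
  have h2 : f' - ∑ T ∈ t, w T • extS k (z T) (s T) ∈ Nul A k := by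
    refine Nul_inj hDm (hf'.sub fun c hc => ?_) ?_
    · rw [Finset.sum_apply]
      refine sum_eq_zero fun T _ => ?_
      rw [Pi.smul_apply, extS, if_neg (show ¬0 ≤ c k from not_le.mpr hc), mul_zero, smul_zero]
    · have h3 : ∑ T ∈ t, w T • (act N (extS k (z T) 1) - act D (extS k (z T) (s T))) ∈
          Nul A k := by
        refine Submodule.sum_mem _ fun T hT => Submodule.smul_mem _ _ ?_
        have := (Nul A k).sub_mem ((hN T hT).2 1) ((hD T hT).2 (s T))
        rwa [hs T hT, mul_one, sub_sub_sub_cancel_right] at this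
      have h4 := (Nul A k).add_mem (Nul_act hNm h1) h3
      simp only [map_sub, map_sum, map_smul, smul_sub, sum_sub_distrib, sub_add_sub_cancel] at h4
      simp only [map_sub, map_sum, map_smul, heq]
      exact h4
  have h3 := h2 b hb
  rw [Pi.sub_apply, Finset.sum_apply, sub_eq_zero] at h3
  rw [h3]
  refine sum_congr rfl fun T _ => ?_
  rw [Pi.smul_apply, smul_eq_mul, extS, if_pos hbk]

/-- The main weight functional. -/
def wf (n : ℕ) : Lat →+ ℤ where
  toFun b := ∑ j ∈ range n, (j + 1 : ℤ) * b j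
  map_zero' := by simp
  map_add' a b := by simp only [Pi.add_apply, mul_add, sum_add_distrib]

theorem wf_ev {n j : ℕ} (hj : j < n) : wf n (ev j) = j + 1 := by
  show ∑ l ∈ range n, (l + 1 : ℤ) * ev j l = _
  simp only [ev_apply, mul_ite, mul_one, mul_zero]
  rw [sum_ite_eq' (range n) j, if_pos (mem_range.mpr hj)]

/-- All exponents of binomials in the first `n` variables. -/
def Cn (n : ℕ) : Set Lat := {m | ∃ k < n, m ∈ Ck k}

theorem Cn_wf {n N : ℕ} (h : n ≤ N) : ∀ m ∈ Cn n, 0 < wf N m := by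
  rintro m ⟨k, hk, rfl | ⟨i, hi, rfl⟩⟩
  · rw [wf_ev (by omega)]
    omega
  · rw [map_sub, wf_ev (by omega), wf_ev (by omega)]
    omega

theorem Cn_crd {n k : ℕ} (h : n ≤ k) : ∀ m ∈ Cn n, m k = 0 := by
  rintro m ⟨l, hl, rfl | ⟨i, hi, rfl⟩⟩
  · rw [ev_apply, if_neg (by omega)]
  · rw [Pi.sub_apply, ev_apply, ev_apply, if_neg (by omega), if_neg (by omega), sub_zero]

theorem Cn_crd_last {k : ℕ} : ∀ m ∈ Cn (k + 1), 0 ≤ crd k m := by
  rintro m ⟨l, hl, hm⟩
  rcases (show l < k ∨ l = k by omega) with h | h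
  · exact (Cn_crd le_rfl m ⟨l, h, hm⟩).ge
  · subst h
    rw [crd_apply, Ck_crd hm]
    omega

theorem prod_mem_Cn {n : ℕ} {D : ℕ → AddMonoidAlgebra A Lat} (hD : ∀ k, D k ∈ BP A (Ck k)) :
    ∏ k ∈ range n, D k ∈ BP A (Cn n) :=
  prod_mem fun k hk => BP_mono (C' := Cn n) (fun _ hm => ⟨k, mem_range.mp hk, hm⟩) (hD k)

/-- The expansion of a tower of quotients. -/
noncomputable def ker (D N : ℕ → AddMonoidAlgebra A Lat) (n : ℕ) : Lat → A :=
  Classical.epsilon (Sol (wf n) (∏ k ∈ range n, D k) (∏ k ∈ range n, N k))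

section tower

variable {D N : ℕ → AddMonoidAlgebra A Lat} (hD : ∀ k, D k ∈ BP A (Ck k))
  (hN : ∀ k, N k ∈ BP A (Ck k))

include hD

theorem ker_sol (n : ℕ) :
    Sol (wf n) (∏ k ∈ range n, D k) (∏ k ∈ range n, N k) (ker D N n) :=
  Classical.epsilon_spec (exists_sol (Cn_wf le_rfl) (prod_mem_Cn hD) _)

theorem ker_unique {n : ℕ} {f : Lat → A}
    (hf : Sol (wf n) (∏ k ∈ range n, D k) (∏ k ∈ range n, N k) f) : f = ker D N n :=
  Sol.unique (Cn_wf le_rfl) (prod_mem_Cn hD) hf (ker_sol hD n)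

theorem ker_zero : ker D N 0 = ⇑(1 : AddMonoidAlgebra A Lat).coeff := by
  have := (ker_sol (N := N) hD 0).2
  rwa [prod_range_zero, prod_range_zero, act_one] at this

include hN

theorem ker_bdd {n : ℕ} {ψ : Lat →+ ℤ} (hψ : ∀ m ∈ Cn n, 0 ≤ ψ m) : Bdd ψ 0 (ker D N n) :=
  (ker_sol hD n).bdd (Cn_wf le_rfl) (prod_mem_Cn hD) hψ (BP_bdd hψ (prod_mem_Cn hN))

theorem ker_eq_zero {n k : ℕ} (hk : n ≤ k) {b : Lat} (hb : b k ≠ 0) : ker D N n b = 0 := by
  rcases lt_or_gt_of_ne hb with h | h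
  · exact ker_bdd hD hN (ψ := crd k) (fun m hm => (Cn_crd hk m hm).ge) b h
  · refine ker_bdd hD hN (ψ := -crd k) (fun m hm => ?_) b ?_
    · rw [AddMonoidHom.neg_apply, crd_apply, Cn_crd hk m hm, neg_zero]
    · rw [AddMonoidHom.neg_apply, crd_apply]
      omega

theorem ker_succ (n : ℕ) : act (D n) (ker D N (n + 1)) = act (N n) (ker D N n) := by
  have hψ : ∀ m ∈ Ck n, 0 ≤ wf (n + 1) m := fun m hm =>
    (Cn_wf le_rfl m ⟨n, Nat.lt_succ_self n, hm⟩).le
  refine BP_inj' (Cn_wf (Nat.le_succ n)) (prod_mem_Cn hD)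
    (BP_act_bdd hψ (hD n) (ker_bdd hD hN fun m hm => (Cn_wf le_rfl m hm).le))
    (BP_act_bdd hψ (hN n) (ker_bdd hD hN fun m hm => (Cn_wf (Nat.le_succ n) m hm).le)) ?_
  rw [← act_mul, ← prod_range_succ, (ker_sol hD (n + 1)).2, act_comm, (ker_sol hD n).2, act_coeff,
    prod_range_succ, mul_comm]

theorem ker_step {k : ℕ} {ι : Type*} (t : Finset ι) (w : ι → A) (z : ι → ℕ → A)
    (PD PN s : ι → PowerSeries A) (hD' : ∀ T ∈ t, RelT k (z T) (D k) (PD T))
    (hN' : ∀ T ∈ t, RelT k (z T) (N k) (PN T)) (hs : ∀ T ∈ t, PD T * s T = PN T)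
    (hf : ∀ b ∈ Om k, b k = 0 → ker D N k b = ∑ T ∈ t, w T * zpw k (z T) b) {b : Lat}
    (hb : b ∈ Om k) (hbk : 0 ≤ b k) : ker D N (k + 1) b =
      ∑ T ∈ t, w T * (zpw k (z T) b * PowerSeries.coeff (b k).toNat (s T)) :=
  step_formula t w z PD PN s (hD k) (hN k) hD' hN' hs (ker_succ hD hN k)
    (ker_bdd hD hN Cn_crd_last) (fun _ _ h => ker_eq_zero hD hN le_rfl h) hf hb hbk

end tower

theorem one_coeff_Om {b : Lat} (hb : b ∈ Om 0) (h0 : b 0 = 0) :
    (1 : AddMonoidAlgebra A Lat).coeff b = 1 := by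
  have : b = 0 := by
    funext j
    rcases Nat.eq_zero_or_pos j with h | h
    · rw [h, h0]
      rfl
    · exact hb.2 j h
  rw [this, coeff_one_zero]

end Pool.Agent.Lib.MP_0bb0c3_co
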