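import Pool.Agent.Lib.MP_0bb0c3_co.Kern

/-! The main kernel as a sum over standard tableaux. -/

open AddMonoidAlgebra Finset

namespace Pool.Agent.Lib.MP_0bb0c3_co

/-- The plane lattice. -/
abbrev G : Type := ℤ × ℤ

/-- Exponents of the denominator. -/
def Dm (k : ℕ) (z : ℕ → G) : Multiset G :=
  0 ::ₘ ((range k).val.map (fun i => z i + (1, 0)) + (range k).val.map fun i => z i + (0, 1))

/-- Exponents of the numerator. -/
def Nm (k : ℕ) (z : ℕ → G) : Multiset G :=
  (range k).val.map z + (range (k - 1)).val.map fun i => z i + (1, 1)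

/-- The poles. -/
def pol (k : ℕ) (z : ℕ → G) : Finset G := (Dm k z - Nm k z).toFinset

theorem Dm_congr {k : ℕ} {z z' : ℕ → G} (h : ∀ i < k, z i = z' i) : Dm k z = Dm k z' := by
  rw [Dm, Dm, Multiset.map_congr rfl fun i hi => by rw [h i (mem_range.mp hi)],
    Multiset.map_congr (f := fun i => z i + (0, 1)) rfl fun i hi => by rw [h i (mem_range.mp hi)]]

theorem Nm_congr {k : ℕ} {z z' : ℕ → G} (h : ∀ i < k, z i = z' i) : Nm k z = Nm k z' := by
  rw [Nm, Nm, Multiset.map_congr rfl fun i hi => h i (mem_range.mp hi),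
    Multiset.map_congr (f := fun i => z i + (1, 1)) rfl fun i hi => by
      rw [h i (by have := mem_range.mp hi; omega)]]

/-- `c` is among the first `k` cells. -/
def In (k : ℕ) (z : ℕ → G) (c : G) : Prop := ∃ i < k, z i = c

/-- Standard tableaux as sequences of cells. -/
structure Tab (k : ℕ) (z : ℕ → G) : Prop where
  pos : ∀ i < k, 0 ≤ (z i).1 ∧ 0 ≤ (z i).2
  inj : ∀ i < k, ∀ j < k, z i = z j → i = j
  left : ∀ i < k, (z i).1 = 0 ∨ In i z (z i - (1, 0))
  down : ∀ i < k, (z i).2 = 0 ∨ In i z (z i - (0, 1))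

theorem Tab.mono {k l : ℕ} {z : ℕ → G} (h : Tab k z) (hl : l ≤ k) : Tab l z :=
  ⟨fun i hi => h.pos i (by omega), fun i hi j hj => h.inj i (by omega) j (by omega),
    fun i hi => h.left i (by omega), fun i hi => h.down i (by omega)⟩

open Classical in
theorem count_map_range {k : ℕ} {z : ℕ → G} (h : ∀ i < k, ∀ j < k, z i = z j → i = j) (v c : G) :
    ((range k).val.map fun i => z i + v).count c = if In k z (c - v) then 1 else 0 := by
  rw [Multiset.count_eq_of_nodup ((range k).nodup.map_on fun i hi j hj h1 =>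
    h i (mem_range.mp hi) j (mem_range.mp hj) (add_right_cancel h1))]
  refine if_congr ?_ rfl rfl
  simp only [Multiset.mem_map, In, eq_sub_iff_add_eq, mem_val, mem_range]

theorem pole_spec {k : ℕ} {z : ℕ → G} (h : Tab k z) (c : G) :
    (Dm k z - Nm k z).count c ≤ 1 ∧ (0 < (Dm k z - Nm k z).count c →
      (0 ≤ c.1 ∧ 0 ≤ c.2) ∧ ¬In k z c ∧ (c.1 = 0 ∨ In k z (c - (1, 0))) ∧
        (c.2 = 0 ∨ In k z (c - (0, 1)))) := by
  classical
  have h0 := count_map_range h.inj 0 c
  simp only [add_zero, sub_zero] at h0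
  have p1 : ∀ v, In k z v → 0 ≤ v.1 ∧ 0 ≤ v.2 := by
    rintro _ ⟨i, hi, rfl⟩
    exact h.pos i hi
  have p2 : In k z (c - (1, 0)) → c.2 = 0 ∨ In (k - 1) z (c - (1, 1)) := by
    rintro ⟨i, hi, h1⟩
    rcases h.down i hi with h2 | ⟨j, hj, h2⟩
    · left
      simpa [h1] using h2
    · exact Or.inr ⟨j, by omega, by rw [h2, h1, sub_sub]; rfl⟩
  have p3 : In k z (c - (0, 1)) → c.1 = 0 ∨ In (k - 1) z (c - (1, 1)) := by
    rintro ⟨i, hi, h1⟩
    rcases h.left i hi with h2 | ⟨j, hj, h2⟩
    · left
      simpa [h1] using h2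
    · exact Or.inr ⟨j, by omega, by rw [h2, h1, sub_sub]; rfl⟩
  have p4 := p1 (c - (1, 0))
  have p5 := p1 (c - (0, 1))
  have p6 : c = 0 ↔ c.1 = 0 ∧ c.2 = 0 := Prod.ext_iff
  simp only [Prod.fst_sub, Prod.snd_sub] at p4 p5
  rw [Multiset.count_sub, Dm, Nm, Multiset.count_cons, Multiset.count_add, Multiset.count_add,
    count_map_range h.inj, count_map_range h.inj, h0,
    count_map_range (h.mono (Nat.sub_le k 1)).inj]
  simp only [p6]
  generalize In k z (c - (1, 0)) = A1 at *
  generalize In k z (c - (0, 1)) = A2 at *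
  generalize In k z c = A3 at *
  generalize In (k - 1) z (c - (1, 1)) = A4 at *
  generalize c.1 = x at *
  generalize c.2 = y at *
  clear p1 p6 h0 h
  by_cases a1 : A1 <;> by_cases a2 : A2 <;> by_cases a3 : A3 <;> by_cases a4 : A4 <;>
    simp only [a1, a2, a3, a4, if_true, if_false, forall_true_left, or_true, or_false, not_true,
      not_false_iff, and_true, true_and, false_and, and_false, imp_false,
      IsEmpty.forall_iff] at p2 p3 p4 p5 ⊢ <;> split_ifs <;> omega

theorem Tab.nodup {k : ℕ} {z : ℕ → G} (h : Tab k z) : (Dm k z - Nm k z).Nodup :=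
  Multiset.nodup_iff_count_le_one.mpr fun c => (pole_spec h c).1

/-- Every cell is a pole of the previous step. -/
def Val (k : ℕ) (z : ℕ → G) : Prop := ∀ i < k, z i ∈ pol i z

theorem Val.tab {k : ℕ} {z : ℕ → G} (h : Val k z) : Tab k z := by
  induction k with
  | zero => exact ⟨by omega, by omega, by omega, by omega⟩
  | succ k ih =>
    have h1 := ih fun i hi => h i (by omega)
    obtain ⟨h2, h3, h4, h5⟩ := (pole_spec h1 (z k)).2
      (Multiset.count_pos.mpr (Multiset.mem_toFinset.mp (h k (by omega))))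
    refine ⟨fun i hi => ?_, fun i hi j hj h6 => ?_, fun i hi => ?_, fun i hi => ?_⟩
    · rcases (show i < k ∨ i = k by omega) with h6 | rfl
      exacts [h1.pos i h6, h2]
    · rcases (show i < k ∨ i = k by omega) with h7 | rfl <;>
        rcases (show j < _ ∨ j = _ from Nat.lt_succ_iff_lt_or_eq.mp hj) with h8 | rfl
      exacts [h1.inj i h7 j h8 h6, absurd ⟨i, h7, h6⟩ h3, absurd ⟨j, h8, h6.symm⟩ h3, rfl]
    · rcases (show i < k ∨ i = k by omega) with h6 | rfl
      exacts [h1.left i h6, h4]
    · rcases (show i < k ∨ i = k by omega) with h6 | rfl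
      exacts [h1.down i h6, h5]

theorem card_rest_lt (k : ℕ) (z : ℕ → G) : (Nm k z - Dm k z).card < (Dm k z - Nm k z).card := by
  have h1 := congrArg Multiset.card (Multiset.sub_add_inter (Dm k z) (Nm k z))
  have h2 := congrArg Multiset.card (Multiset.sub_add_inter (Nm k z) (Dm k z))
  rw [Multiset.inter_comm] at h2
  have h3 : (Dm k z).card = k + k + 1 := by simp [Dm]
  have h4 : (Nm k z).card = k + (k - 1) := by simp [Nm]
  rw [Multiset.card_add] at h1 h2
  omega

variable {K : Type} [Field K]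

theorem natDegree_lin_prod {ι : Type*} (u : ι → K) (s : Multiset ι) :
    (s.map fun m => 1 - Polynomial.C (u m) * Polynomial.X).prod.natDegree ≤ s.card := by
  induction s using Multiset.induction_on with
  | empty => simp
  | cons a s ih =>
    rw [Multiset.map_cons, Multiset.prod_cons, Multiset.card_cons]
    refine Polynomial.natDegree_mul_le.trans ?_
    have : (1 - Polynomial.C (u a) * Polynomial.X).natDegree ≤ 1 := by compute_degree
    omega

theorem partial_fractions {ι : Type*} [DecidableEq ι] (P : Finset ι) (S : Multiset ι) (u : ι → K)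
    (hu : Function.Injective u) (h0 : ∀ m, u m ≠ 0) (hc : S.card < P.card) :
    (∏ m ∈ P, lf (u m)) * ∑ c ∈ P, PowerSeries.C ((S.map fun m => 1 - u m / u c).prod /
      ∏ m ∈ P.erase c, (1 - u m / u c)) * PowerSeries.mk (fun j => u c ^ j) =
        (S.map fun m => lf (u m)).prod := by
  have h1 : ∑ c ∈ P, Polynomial.C ((S.map fun m => 1 - u m / u c).prod /
      ∏ m ∈ P.erase c, (1 - u m / u c)) * ∏ m ∈ P.erase c, (1 - Polynomial.C (u m) * Polynomial.X) =
        (S.map fun m => 1 - Polynomial.C (u m) * Polynomial.X).prod := by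
    refine Polynomial.eq_of_degrees_lt_of_eval_index_eq P (v := fun c => (u c)⁻¹)
      (fun a _ b _ h => hu (inv_injective h)) ?_ ?_ fun c hc' => ?_
    · refine Polynomial.mem_degreeLT.mp (Submodule.sum_mem _ fun c hc' => ?_)
      rw [← Polynomial.smul_eq_C_mul]
      refine Submodule.smul_mem _ _ (Polynomial.mem_degreeLT.mpr
        (Polynomial.degree_le_natDegree.trans_lt (Nat.cast_lt.mpr ?_)))
      have := natDegree_lin_prod u (P.erase c).val
      rw [card_val, card_erase_of_mem hc'] at this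
      have h2 := card_pos.mpr ⟨c, hc'⟩
      exact this.trans_lt (by omega)
    · exact Polynomial.degree_le_natDegree.trans_lt
        (Nat.cast_lt.mpr ((natDegree_lin_prod u S).trans_lt hc))
    · rw [Polynomial.eval_finsetSum, sum_eq_single_of_mem c hc' fun e _ he => by
        rw [Polynomial.eval_mul, Polynomial.eval_prod]
        exact mul_eq_zero_of_right _
          (prod_eq_zero (mem_erase.mpr ⟨he.symm, hc'⟩) (by simp [h0 c]))]
      have h2 : ∏ m ∈ P.erase c, (1 - u m / u c) ≠ 0 := prod_ne_zero_iff.mpr fun m hm h =>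
        ne_of_mem_erase hm (hu ((div_eq_one_iff_eq (h0 c)).mp (sub_eq_zero.mp h).symm))
      simp only [Polynomial.eval_mul, Polynomial.eval_C, Polynomial.eval_prod, Polynomial.eval_sub,
        Polynomial.eval_one, Polynomial.eval_X, Polynomial.eval_multiset_prod, Multiset.map_map,
        Function.comp_def, ← div_eq_mul_inv]
      exact div_mul_cancel₀ _ h2
  have h2 := congrArg Polynomial.coeToPowerSeries.ringHom h1
  simp only [map_sum, map_mul, map_prod, map_multiset_prod, Multiset.map_map, Function.comp_def,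
    map_sub, map_one] at h2
  simp only [Polynomial.coeToPowerSeries.ringHom_apply, Polynomial.coe_C, Polynomial.coe_X] at h2
  refine Eq.trans ?_ h2
  rw [mul_sum]
  refine sum_congr rfl fun c hc' => ?_
  rw [← mul_prod_erase _ _ hc']
  simp only [← lf.eq_1]
  linear_combination (PowerSeries.C ((S.map fun m => 1 - u m / u c).prod /
      ∏ m ∈ P.erase c, (1 - u m / u c)) * ∏ m ∈ P.erase c, lf (u m)) * lf_mul_geo (u c)

/-- A faithful character of the plane lattice. -/
structure Chr (χ : G → K) : Prop where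
  zero : χ 0 = 1
  add : ∀ a b, χ (a + b) = χ a * χ b
  inj : Function.Injective χ

theorem Chr.ne_zero {χ : G → K} (h : Chr χ) (a : G) : χ a ≠ 0 := by
  refine left_ne_zero_of_mul_eq_one (b := χ (-a)) ?_
  rw [← h.add, add_neg_cancel, h.zero]

theorem Chr.sub {χ : G → K} (h : Chr χ) (a b : G) : χ (a - b) = χ a / χ b := by
  rw [eq_div_iff (h.ne_zero b), ← h.add, sub_add_cancel]

/-- The residue at the pole `c`. -/
noncomputable def rc (χ : G → K) (k : ℕ) (z : ℕ → G) (c : G) : K :=
  ((Nm k z - Dm k z).map fun m => 1 - χ (m - c)).prod / ∏ m ∈ (pol k z).erase c, (1 - χ (m - c))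

/-- The weight of a tableau. -/
noncomputable def wt (χ : G → K) (k : ℕ) (z : ℕ → G) : K := ∏ i ∈ range k, rc χ i z (z i)

theorem step_series {χ : G → K} (hχ : Chr χ) {k : ℕ} {z : ℕ → G} (h : Tab k z) :
    ((Dm k z).map fun m => lf (χ m)).prod *
      ∑ c ∈ pol k z, PowerSeries.C (rc χ k z c) * PowerSeries.mk (fun j => χ c ^ j) =
        ((Nm k z).map fun m => lf (χ m)).prod := by
  have h1 := partial_fractions (pol k z) (Nm k z - Dm k z) χ hχ.inj hχ.ne_zero (by
    rw [pol, Multiset.toFinset_card_of_nodup h.nodup]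
    exact card_rest_lt k z)
  have h2 : ∏ m ∈ pol k z, lf (χ m) = ((Dm k z - Nm k z).map fun m => lf (χ m)).prod := by
    rw [prod_eq_multiset_prod, pol, Multiset.toFinset_val, h.nodup.dedup]
  have h3 := congrArg (fun s => (Multiset.map (fun m => lf (χ m)) s).prod)
    (Multiset.sub_add_inter (Dm k z) (Nm k z))
  have h4 := congrArg (fun s => (Multiset.map (fun m => lf (χ m)) s).prod)
    (Multiset.sub_add_inter (Nm k z) (Dm k z))
  simp only [Multiset.map_add, Multiset.prod_add] at h3 h4
  simp only [rc, hχ.sub]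
  rw [← h3, ← h4, ← h1, h2, Multiset.inter_comm]
  ring

theorem relT_DS {χ : G → K} (hχ : Chr χ) (k : ℕ) (z : ℕ → G) :
    RelT k (fun i => χ (z i)) (DS (χ (1, 0)) (χ (0, 1)) k) ((Dm k z).map fun m => lf (χ m)).prod := by
  have := (relT_binom0 k (fun i => χ (z i)) 1).mul (RelT.prod (range k) fun i hi =>
    (relT_binom (mem_range.mp hi) (fun i => χ (z i)) (χ (1, 0))).mul
      (relT_binom (mem_range.mp hi) (fun i => χ (z i)) (χ (0, 1))))
  rw [Dm, Multiset.map_cons, Multiset.prod_cons, Multiset.map_add, Multiset.prod_add,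
    Multiset.map_map, Multiset.map_map, ← prod_eq_multiset_prod, ← prod_eq_multiset_prod,
    ← prod_mul_distrib, hχ.zero]
  simpa only [DS, Function.comp_apply, hχ.add, mul_comm (χ (z _))] using this

theorem relT_NS {χ : G → K} (hχ : Chr χ) (k : ℕ) (z : ℕ → G) :
    RelT k (fun i => χ (z i)) (NS (χ (1, 0)) (χ (0, 1)) k) ((Nm k z).map fun m => lf (χ m)).prod := by
  have := (RelT.prod (range k) fun i hi =>
    relT_binom (mem_range.mp hi) (fun i => χ (z i)) 1).mul (RelT.prod (range (k - 1)) fun i hi =>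
      relT_binom (show i < k by have := mem_range.mp hi; omega) (fun i => χ (z i))
        (χ (1, 0) * χ (0, 1)))
  have h1 : χ (1, 1) = χ (1, 0) * χ (0, 1) := hχ.add (1, 0) (0, 1)
  rw [Nm, Multiset.map_add, Multiset.prod_add, Multiset.map_map, Multiset.map_map,
    ← prod_eq_multiset_prod, ← prod_eq_multiset_prod]
  simpa only [NS, Function.comp_apply, hχ.add, mul_comm (χ (z _)), one_mul, h1] using this

theorem syt {χ : G → K} (hχ : Chr χ) (n : ℕ) : ∃ (ι : Type) (t : Finset ι) (z : ι → ℕ → G),
    (∀ T ∈ t, Val n (z T)) ∧ ∀ b ∈ Om n, b n = 0 → SK (χ (1, 0)) (χ (0, 1)) n b =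
      ∑ T ∈ t, wt χ n (z T) * zpw n (fun i => χ (z T i)) b := by
  induction n with
  | zero =>
    refine ⟨Unit, {()}, fun _ _ => 0, fun _ _ i hi => by omega, fun b hb h0 => ?_⟩
    rw [SK, ker_zero (DS_mem _ _), one_coeff_Om hb h0]
    simp [wt, zpw]
  | succ k ih =>
    obtain ⟨ι, t, z, hv, hs⟩ := ih
    have hu : ∀ (y : ℕ → G) (c : G) l, l ≤ k → ∀ i < l, Function.update y k c i = y i :=
      fun y c l hl i hi => Function.update_of_ne (by omega) _ _
    have hp : ∀ (y : ℕ → G) (c : G) l, l ≤ k → pol l (Function.update y k c) = pol l y :=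
      fun y c l hl => by rw [pol, pol, Dm_congr (hu y c l hl), Nm_congr (hu y c l hl)]
    refine ⟨(_ : ι) × G, t.sigma fun T => pol k (z T), fun T => Function.update (z T.1) k T.2,
      fun T hT i hi => ?_, fun b hb h0 => ?_⟩
    · rw [mem_sigma] at hT
      beta_reduce
      rw [hp _ _ i (by omega)]
      rcases (show i < k ∨ i = k by omega) with h | rfl
      · rw [hu _ _ k le_rfl i h]
        exact hv _ hT.1 i h
      · rw [Function.update_self]
        exact hT.2
    · obtain ⟨h1, h2⟩ := Om_succ hb h0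
      rw [SK, ker_step (DS_mem _ _) (NS_mem _ _) t (fun T => wt χ k (z T))
        (fun T i => χ (z T i)) _ _ _ (fun T _ => relT_DS hχ k (z T)) (fun T _ => relT_NS hχ k (z T))
        (fun T hT => step_series hχ (hv T hT).tab) hs h1 h2, sum_sigma]
      refine sum_congr rfl fun T _ => ?_
      rw [map_sum, mul_sum, mul_sum]
      refine sum_congr rfl fun c _ => ?_
      have e1 : ∀ i ≤ k, ∀ e, rc χ i (Function.update (z T) k c) e = rc χ i (z T) e :=
        fun i hi e => by rw [rc, rc, hp _ _ i hi, Dm_congr (hu _ c i hi), Nm_congr (hu _ c i hi)]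
      have e2 : wt χ (k + 1) (Function.update (z T) k c) = wt χ k (z T) * rc χ k (z T) c := by
        rw [wt, wt, prod_range_succ, Function.update_self, e1 k le_rfl]
        congr 1
        exact prod_congr rfl fun i hi => by
          rw [e1 i (mem_range.mp hi).le, hu _ _ k le_rfl i (mem_range.mp hi)]
      have e3 : zpw (k + 1) (fun i => χ (Function.update (z T) k c i)) b =
          zpw k (fun i => χ (z T i)) b * χ c ^ (b k).toNat := by
        rw [zpw, zpw, prod_range_succ, Function.update_self]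
        congr 1
        exact prod_congr rfl fun i hi => by rw [hu _ _ k le_rfl i (mem_range.mp hi)]
      rw [e2, e3, PowerSeries.coeff_C_mul, PowerSeries.coeff_mk]
      ring

end Pool.Agent.Lib.MP_0bb0c3_co
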