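import Pool.Agent.Lib.MP_0bb0c3_co.Ineq

/-! Expansions of rational functions in two variables and crossing of walls. -/

open AddMonoidAlgebra Finset

namespace Pool.Agent.Lib.MP_0bb0c3_co

/-- Laurent polynomials in two variables. -/
abbrev BB : Type := AddMonoidAlgebra ℤ G

variable {K : Type} [Field K]

section mult

variable {ι : Type} (S : Subring K) (n : ℕ) (t : Finset ι) (w : ι → K) (x : ℕ → ι → K)

/-- Functions all of whose moments lie in `S`. -/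
def Mom (f : ι → K) : Prop := ∀ b : ℕ → ℕ, ∑ T ∈ t, w T * f T * ∏ i ∈ range n, x i T ^ b i ∈ S

/-- Multipliers preserving `Mom`. -/
def MM : Subring (ι → K) where
  carrier := {f | ∀ g, Mom S n t w x g → Mom S n t w x (f * g)}
  mul_mem' {f g} hf hg h hh := by
    rw [mul_assoc]
    exact hf _ (hg h hh)
  one_mem' g hg := by rwa [one_mul]
  add_mem' {f g} hf hg h hh b := by
    have := S.add_mem (hf h hh b) (hg h hh b)
    rw [← sum_add_distrib] at this
    simpa only [add_mul, mul_add, Pi.add_apply, Pi.mul_apply] using this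
  zero_mem' g _ b := by simp
  neg_mem' {f} hf h hh b := by
    have := S.neg_mem (hf h hh b)
    rw [← sum_neg_distrib] at this
    simpa only [neg_mul, mul_neg, Pi.neg_apply, Pi.mul_apply] using this

variable {S n t w x}

theorem const_mem_MM {r : K} (hr : r ∈ S) : (fun _ => r) ∈ MM S n t w x := by
  intro g hg b
  have := S.mul_mem hr (hg b)
  rw [mul_sum] at this
  simpa only [Pi.mul_apply, mul_assoc, mul_left_comm r] using this

theorem x_mem_MM {i : ℕ} (hi : i < n) : x i ∈ MM S n t w x := by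
  intro g hg b
  refine (congrArg (· ∈ S) (sum_congr rfl fun T _ => ?_)).mp (hg (b + Pi.single i 1))
  simp only [Pi.add_apply, pow_add, prod_mul_distrib, Pi.mul_apply]
  rw [prod_eq_single_of_mem (f := fun j => x j T ^ (Pi.single i 1 : ℕ → ℕ) j) i (mem_range.mpr hi)
    fun j _ hj => by rw [Pi.single_eq_of_ne hj, pow_zero], Pi.single_eq_same]
  ring

theorem congr_MM {f g : ι → K} (hf : f ∈ MM S n t w x) (h : ∀ T ∈ t, f T = g T) :
    g ∈ MM S n t w x := fun e he b =>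
  (congrArg (· ∈ S) (sum_congr rfl fun T hT => by simp only [Pi.mul_apply, h T hT])).mp (hf e he b)

theorem local_MM (Rl : ι → ι → Prop) (hx : ∀ i < n, ∀ T ∈ t, x i T ∈ S)
    (hs : ∀ T ∈ t, ∀ T' ∈ t, ¬Rl T T' → ∃ i < n, x i T ≠ x i T' ∧ (x i T - x i T')⁻¹ ∈ S)
    {F : ι → K} (hF : ∀ T ∈ t, ∃ e ∈ MM S n t w x, ∀ T' ∈ t, Rl T T' → e T' = F T') :
    F ∈ MM S n t w x := by
  classical
  have h1 : ∀ T ∈ t, ∃ e ∈ MM S n t w x, e T = 1 ∧ F * e ∈ MM S n t w x := by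
    intro T hT
    choose! i hi h1 h2 using hs T hT
    obtain ⟨e, he, h3⟩ := hF T hT
    have h4 : ∏ T' ∈ t.filter (¬Rl T ·), ((x (i T') - fun _ => x (i T') T') *
        fun _ => (x (i T') T - x (i T') T')⁻¹) ∈ MM S n t w x := prod_mem fun T' hT' => by
      obtain ⟨h5, h6⟩ := mem_filter.mp hT'
      exact mul_mem (sub_mem (x_mem_MM (hi T' h5 h6)) (const_mem_MM (hx _ (hi T' h5 h6) T' h5)))
        (const_mem_MM (h2 T' h5 h6))
    refine ⟨_, h4, ?_, congr_MM (mul_mem he h4) fun T' hT' => ?_⟩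
    · rw [Finset.prod_apply]
      refine prod_eq_one fun T' hT' => ?_
      obtain ⟨h5, h6⟩ := mem_filter.mp hT'
      exact mul_inv_cancel₀ (sub_ne_zero.mpr (h1 T' h5 h6))
    · rw [Pi.mul_apply, Pi.mul_apply]
      by_cases h5 : Rl T T'
      · rw [h3 T' hT' h5]
      · rw [Finset.prod_apply, prod_eq_zero (mem_filter.mpr ⟨hT', h5⟩) (by simp), mul_zero,
          mul_zero]
  choose! e he h2 h3 using h1
  have h4 : ∀ s ⊆ t, F * (1 - ∏ T ∈ s, (1 - e T)) ∈ MM S n t w x := by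
    intro s hs
    induction s using Finset.induction_on with
    | empty => simp
    | insert T s hT ih =>
      have h5 := hs (mem_insert_self T s)
      have h6 := (subset_insert T s).trans hs
      have := add_mem (ih h6) (mul_mem (h3 T h5)
        (prod_mem fun T' hT' => sub_mem (one_mem _) (he T' (h6 hT'))))
      rw [prod_insert hT]
      exact (congrArg (· ∈ MM S n t w x) (by ring)).mp this
  refine congr_MM (h4 t Subset.rfl) fun T hT => ?_
  rw [Pi.mul_apply, Pi.sub_apply, Finset.prod_apply, prod_eq_zero hT (by simp [h2 T hT])]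
  simp

theorem sum_mem_of_MM (h1 : Mom S n t w x 1) {f : ι → K} (hf : f ∈ MM S n t w x) :
    ∑ T ∈ t, w T * f T ∈ S := by simpa using hf 1 h1 0

end mult

variable {ι : BB →+* K}

/-- Quotients with denominators in `BP ℤ C`. -/
def Reg (ι : BB →+* K) (C : Set G) : Subring K where
  carrier := {r | ∃ D ∈ BP ℤ C, ∃ N, r * ι D = ι N}
  mul_mem' := by
    rintro r r' ⟨D, hD, N, h⟩ ⟨D', hD', N', h'⟩
    exact ⟨D * D', mul_mem hD hD', N * N', by rw [map_mul, map_mul, ← h, ← h']; ring⟩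
  one_mem' := ⟨1, one_mem _, 1, one_mul _⟩
  add_mem' := by
    rintro r r' ⟨D, hD, N, h⟩ ⟨D', hD', N', h'⟩
    exact ⟨D * D', mul_mem hD hD', N * D' + N' * D, by
      rw [map_add, map_mul, map_mul, map_mul, ← h, ← h']; ring⟩
  zero_mem' := ⟨1, one_mem _, 0, by rw [zero_mul, map_zero]⟩
  neg_mem' := by
    rintro r ⟨D, hD, N, h⟩
    exact ⟨D, hD, -N, by rw [map_neg, ← h, neg_mul]⟩

theorem poly_mem_Reg (C : Set G) (N : BB) : ι N ∈ Reg ι C :=
  ⟨1, one_mem _, N, by rw [map_one, mul_one]⟩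

/-- The expansion of `r` in the direction `φ` has zero coefficient at `p`. -/
def Van (ι : BB →+* K) (φ : G →+ ℤ) (p : G) (r : K) : Prop :=
  ∃ D ∈ BP ℤ {m | 0 < φ m}, ∃ N f, r * ι D = ι N ∧ Sol φ D N f ∧ f p = 0

theorem exp_unique (hι : Function.Injective ι) {φ : G →+ ℤ} {r : K} {D D' N N' : BB}
    {f f' : G → ℤ} (hD : D ∈ BP ℤ {m | 0 < φ m}) (hD' : D' ∈ BP ℤ {m | 0 < φ m})
    (h : r * ι D = ι N) (h' : r * ι D' = ι N') (s : Sol φ D N f) (s' : Sol φ D' N' f') :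
    f = f' := by
  obtain ⟨⟨c, hc⟩, e⟩ := s
  obtain ⟨⟨c', hc'⟩, e'⟩ := s'
  have h1 : D' * N = D * N' := hι (by rw [map_mul, map_mul, ← h, ← h']; ring)
  refine BP_inj' (fun _ hm => hm) (mul_mem hD hD') hc hc' ?_
  rw [act_mul, act_mul, act_comm, e, e', act_coeff, act_coeff, h1]

theorem Van.zero (φ : G →+ ℤ) (p : G) : Van ι φ p 0 :=
  ⟨1, one_mem _, 0, 0, by rw [zero_mul, map_zero], ⟨⟨0, fun _ _ => rfl⟩, act_one _⟩, rfl⟩

theorem Van.add {φ : G →+ ℤ} {p : G} {r r' : K} (h : Van ι φ p r) (h' : Van ι φ p r') :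
    Van ι φ p (r + r') := by
  obtain ⟨D, hD, N, f, h, ⟨⟨c, hc⟩, e⟩, h0⟩ := h
  obtain ⟨D', hD', N', f', h', ⟨⟨c', hc'⟩, e'⟩, h0'⟩ := h'
  refine ⟨D * D', mul_mem hD hD', D' * N + D * N', f + f', ?_,
    ⟨⟨_, (hc.mono (min_le_left c c')).add (hc'.mono (min_le_right c c'))⟩, ?_⟩, ?_⟩
  · rw [map_add, map_mul, map_mul, map_mul, ← h, ← h']
    ring
  · rw [map_add, act_mul, act_mul, act_comm, e, e', act_coeff, act_coeff, coeff_add,
      Finsupp.coe_add]
  · rw [Pi.add_apply, h0, h0', add_zero]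

theorem Van.sum {φ : G →+ ℤ} {p : G} {κ : Type} {s : Finset κ} {r : κ → K}
    (h : ∀ T ∈ s, Van ι φ p (r T)) : Van ι φ p (∑ T ∈ s, r T) :=
  sum_induction r (Van ι φ p) (fun _ _ => Van.add) (Van.zero φ p) h

theorem Van.poly (hι : Function.Injective ι) {φ : G →+ ℤ} {p : G} {N : BB}
    (h : Van ι φ p (ι N)) : N.coeff p = 0 := by
  obtain ⟨D, hD, N', f, h, s, h0⟩ := h
  rw [← h0, exp_unique hι hD (one_mem _) h (by rw [map_one, mul_one]) s
    ⟨exists_bdd φ N, act_one _⟩]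

theorem Van.cross (hι : Function.Injective ι) {φ φ' : G →+ ℤ} {p : G} {r : K}
    (hr : r ∈ Reg ι {m | 0 < φ m ∧ 0 < φ' m}) (h : Van ι φ p r) : Van ι φ' p r := by
  obtain ⟨D, hD, N, f, h, s, h0⟩ := h
  obtain ⟨D', hD', N', h'⟩ := hr
  obtain ⟨f', s'⟩ := exists_sol (φ := φ) (fun _ hm => hm.1) hD' N'
  obtain ⟨c, hc⟩ := exists_bdd φ' N'
  refine ⟨D', BP_mono (fun _ hm => hm.2) hD', N', f', h',
    ⟨⟨c, s'.bdd (fun _ hm => hm.1) hD' (fun _ hm => hm.2.le) hc⟩, s'.2⟩, ?_⟩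
  rw [← exp_unique hι hD (BP_mono (fun _ hm => hm.1) hD') h h' s s', h0]

/-- The expansion of `r` in the direction `φ` is supported where `ψ ≥ c`. -/
def Nice (ι : BB →+* K) (φ ψ : G →+ ℤ) (r : K) (c : ℤ) : Prop :=
  ∃ D ∈ BP ℤ {m | 0 < φ m ∧ 0 ≤ ψ m}, ∃ N, r * ι D = ι N ∧ Bdd ψ c N.coeff

theorem Nice.van {φ ψ : G →+ ℤ} {r : K} {c : ℤ} (h : Nice ι φ ψ r c) {p : G} (hp : ψ p < c) :
    Van ι φ p r := by
  obtain ⟨D, hD, N, h, hN⟩ := h
  obtain ⟨f, s⟩ := exists_sol (φ := φ) (fun _ hm => hm.1) hD N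
  exact ⟨D, BP_mono (fun _ hm => hm.1) hD, N, f, h, s,
    s.bdd (fun _ hm => hm.1) hD (fun _ hm => hm.2) hN p hp⟩

theorem Nice.poly (φ : G →+ ℤ) {ψ : G →+ ℤ} {N : BB} {c : ℤ} (h : Bdd ψ c N.coeff) :
    Nice ι φ ψ (ι N) c := ⟨1, one_mem _, N, by rw [map_one, mul_one], h⟩

theorem Nice.one (φ ψ : G →+ ℤ) : Nice ι φ ψ 1 0 := by
  simpa only [map_one] using Nice.poly (ι := ι) φ (bdd_one ψ)

theorem Nice.mul {φ ψ : G →+ ℤ} {r r' : K} {c c' : ℤ} (h : Nice ι φ ψ r c)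
    (h' : Nice ι φ ψ r' c') : Nice ι φ ψ (r * r') (c + c') := by
  obtain ⟨D, hD, N, h, hN⟩ := h
  obtain ⟨D', hD', N', h', hN'⟩ := h'
  exact ⟨D * D', mul_mem hD hD', N * N', by rw [map_mul, map_mul, ← h, ← h']; ring, hN.mul hN'⟩

theorem Nice.mprod {φ ψ : G →+ ℤ} {κ : Type} (s : Multiset κ) {r : κ → K} {c : κ → ℤ}
    (h : ∀ i ∈ s, Nice ι φ ψ (r i) (c i)) : Nice ι φ ψ (s.map r).prod (s.map c).sum := by
  induction s using Multiset.induction_on with
  | empty => exact Nice.one φ ψ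
  | cons a s ih =>
    rw [Multiset.map_cons, Multiset.map_cons, Multiset.prod_cons, Multiset.sum_cons]
    exact (h a (Multiset.mem_cons_self _ _)).mul (ih fun i hi => h i (Multiset.mem_cons_of_mem hi))

theorem Nice.prod {φ ψ : G →+ ℤ} {κ : Type} (s : Finset κ) {r : κ → K} {c : κ → ℤ}
    (h : ∀ i ∈ s, Nice ι φ ψ (r i) (c i)) : Nice ι φ ψ (∏ i ∈ s, r i) (∑ i ∈ s, c i) :=
  Nice.mprod s.val h

/-- The monomial characters. -/
noncomputable def chi (ι : BB →+* K) (m : G) : K := ι (single m 1)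

theorem chr_chi (hι : Function.Injective ι) : Chr (chi ι) :=
  ⟨map_one ι, fun a b => by rw [chi, chi, chi, ← map_mul, single_mul_single, mul_one],
    fun _ _ h => single_left_injective one_ne_zero (hι h)⟩

theorem iota_binom (m : G) : ι (binom 1 m) = 1 - chi ι m := by rw [binom, map_sub, map_one, chi]

theorem inv_binom (hι : Function.Injective ι) {m : G} (hm : m ≠ 0) :
    (1 - chi ι m)⁻¹ * ι (binom 1 m) = ι 1 ∧
      (1 - chi ι m)⁻¹ * ι (binom 1 (-m)) = ι (-single (-m) 1) := by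
  have hχ := chr_chi hι
  have h1 : 1 - chi ι m ≠ 0 := fun h => hm (hχ.inj ((sub_eq_zero.mp h).symm.trans hχ.zero.symm))
  have h2 : chi ι m * chi ι (-m) = 1 := by rw [← hχ.add, add_neg_cancel, hχ.zero]
  rw [iota_binom, iota_binom, inv_mul_cancel₀ h1, map_one, map_neg, inv_mul_eq_iff_eq_mul₀ h1]
  refine ⟨rfl, ?_⟩
  show _ = _ * -chi ι (-m)
  linear_combination -h2

/-- Small vectors. -/
def Sm (n : ℕ) (m : G) : Prop := (-n ≤ m.1 ∧ m.1 ≤ n) ∧ (-n ≤ m.2 ∧ m.2 ≤ n)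

/-- `φ` is a generic direction adjacent to `ψ`. -/
def Adj (n : ℕ) (φ ψ : G →+ ℤ) : Prop :=
  ∀ m, Sm n m → m ≠ 0 → (0 < φ m ∧ 0 ≤ ψ m) ∨ (φ m < 0 ∧ ψ m ≤ 0)

theorem nice_inv (hι : Function.Injective ι) {n : ℕ} {φ ℓ : G →+ ℤ} (h : Adj n φ (-ℓ)) {m : G}
    (hs : Sm n m) (hm : m ≠ 0) : Nice ι φ (-ℓ) (1 - chi ι m)⁻¹ (max (ℓ m) 0) := by
  rcases h m hs hm with h1 | h1
  · refine ⟨_, binom_mem 1 h1, _, (inv_binom hι hm).1, (bdd_one _).mono ?_⟩
    have := h1.2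
    rw [AddMonoidHom.neg_apply] at this
    omega
  · refine ⟨_, binom_mem 1 ?_, _, (inv_binom hι hm).2, fun p hp => ?_⟩
    · simp only [Set.mem_ofPred_eq, map_neg]
      omega
    · have := h1.2
      rw [coeff_neg, Finsupp.neg_apply, bdd_single (-ℓ) (-m) 1 p, neg_zero]
      simp only [AddMonoidHom.neg_apply, map_neg] at this hp ⊢
      omega

theorem pol_box {k : ℕ} {z : ℕ → G} (h : Tab k z) {c : G} (hc : c ∈ pol k z) :
    0 ≤ c.1 ∧ 0 ≤ c.2 ∧ c.1 + c.2 ≤ k := by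
  obtain ⟨h1, -, h2, h3⟩ := (pole_spec h c).2 (Multiset.count_pos.mpr (Multiset.mem_toFinset.mp hc))
  refine ⟨h1.1, h1.2, ?_⟩
  rcases h2 with h2 | ⟨j, hj, e⟩
  · rcases h3 with h3 | ⟨j, hj, e⟩
    · omega
    · have := h.sum_le hj
      simp only [e, Prod.fst_sub, Prod.snd_sub] at this
      omega
  · have := h.sum_le hj
    simp only [e, Prod.fst_sub, Prod.snd_sub] at this
    omega

theorem nice_wt (hι : Function.Injective ι) {n : ℕ} {φ ℓ : G →+ ℤ} (h : Adj n φ (-ℓ)) {z : ℕ → G}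
    (hz : Val n z) :
    Nice ι φ (-ℓ) (wt (chi ι) n z * ∏ i ∈ range n, chi ι (z i)) (-Dg ℓ n z) := by
  rw [wt, Dg, ← prod_mul_distrib, ← sum_neg_distrib]
  refine Nice.prod _ fun k hk => ?_
  have hk' := mem_range.mp hk
  have ht := hz.tab.mono hk'.le
  have h1 := Nice.mprod (ι := ι) (φ := φ) (ψ := -ℓ) (Nm k z - Dm k z)
    (r := fun m => 1 - chi ι (m - z k)) (c := fun m => -max (ℓ (m - z k)) 0) fun m _ => by
      rw [← iota_binom]
      refine Nice.poly φ ((bdd_binom _ _ _).mono ?_)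
      rw [AddMonoidHom.neg_apply]
      omega
  have h2 := Nice.prod ((pol k z).erase (z k)) fun m hm => nice_inv hι h (m := m - z k) (by
    have e1 := pol_box ht (mem_of_mem_erase hm)
    have e2 := pol_box ht (hz k hk')
    simp only [Sm, Prod.fst_sub, Prod.snd_sub]
    omega) (sub_ne_zero.mpr (ne_of_mem_erase hm))
  have h3 := Nice.poly (ι := ι) φ (bdd_single (-ℓ) (z k) 1)
  have h4 := (h1.mul h2).mul h3
  have h5 : ∑ m ∈ (pol k z).erase (z k), max (ℓ (m - z k)) 0 =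
      ((Dm k z - Nm k z).map fun m => max (ℓ (m - z k)) 0).sum := by
    rw [sum_erase _ (by simp), sum_eq_multiset_sum, pol, Multiset.toFinset_val, ht.nodup.dedup]
  have h6 := congrArg (fun s => (Multiset.map (fun m => max (ℓ (m - z k)) 0) s).sum)
    (Multiset.sub_add_inter (Dm k z) (Nm k z))
  have h7 := congrArg (fun s => (Multiset.map (fun m => max (ℓ (m - z k)) 0) s).sum)
    (Multiset.sub_add_inter (Nm k z) (Dm k z))
  simp only [Multiset.map_add, Multiset.sum_add] at h6 h7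
  rw [Multiset.inter_comm] at h7
  rw [prod_inv_distrib, ← div_eq_mul_inv, Multiset.sum_map_neg, h5, AddMonoidHom.neg_apply] at h4
  exact (congrArg (Nice ι φ (-ℓ) _) (by omega)).mp h4

theorem wall (hι : Function.Injective ι) {n : ℕ} {κ : Type} {t : Finset κ} {z : κ → ℕ → G}
    {w : κ → K} (ht : ∀ T ∈ t, Tab n (z T))
    (hS : ∀ b : ℕ → ℕ, ∃ N, ∑ T ∈ t, w T * ∏ i ∈ range n, chi ι (z T i) ^ b i = ι N)
    {φ φ' ω : G →+ ℤ} (h : Adj n φ ω) (h' : Adj n φ' ω) {F : κ → K}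
    (hF : ∀ T ∈ t, ∃ i < n, ∃ j < n, ∃ a b c : BB, ∀ T' ∈ t, (∀ i < n, ω (z T i) = ω (z T' i)) →
      ι a * chi ι (z T' i) + ι b * chi ι (z T' j) + ι c = F T') {p : G}
    (hv : Van ι φ p (∑ T ∈ t, w T * F T)) : Van ι φ' p (∑ T ∈ t, w T * F T) := by
  have hχ := chr_chi hι
  refine hv.cross hι (sum_mem_of_MM (n := n) (x := fun i T => chi ι (z T i)) (fun b => ?_)
    (local_MM (fun T T' => ∀ i < n, ω (z T i) = ω (z T' i)) (fun _ _ _ _ => poly_mem_Reg _ _)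
      (fun T hT T' hT' h1 => ?_) fun T hT => ?_))
  · obtain ⟨N, hN⟩ := hS b
    simp only [Pi.one_apply, mul_one, hN]
    exact poly_mem_Reg _ _
  · push Not at h1
    obtain ⟨i, hi, h1⟩ := h1
    have h2 : z T' i - z T i ≠ 0 := fun e => h1 (by rw [sub_eq_zero.mp e])
    have h3 : Sm n (z T' i - z T i) := by
      have e1 := (ht T hT).pos i hi
      have e2 := (ht T hT).sum_le hi
      have e3 := (ht T' hT').pos i hi
      have e4 := (ht T' hT').sum_le hi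
      simp only [Sm, Prod.fst_sub, Prod.snd_sub]
      omega
    refine ⟨i, hi, fun e => h1 (by rw [hχ.inj e]), ?_⟩
    have h4 : (chi ι (z T i) - chi ι (z T' i))⁻¹ =
        chi ι (0 - z T i) * (1 - chi ι (z T' i - z T i))⁻¹ := by
      rw [hχ.sub, hχ.sub, hχ.zero, one_div, ← mul_inv, mul_sub, mul_one,
        mul_div_cancel₀ _ (hχ.ne_zero _)]
    show (chi ι (z T i) - chi ι (z T' i))⁻¹ ∈ _
    rw [h4]
    refine mul_mem (poly_mem_Reg _ _) ?_
    have e1 := h _ h3 h2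
    have e2 := h' _ h3 h2
    have e3 : ω (z T' i - z T i) ≠ 0 := by
      rw [map_sub]
      omega
    rcases lt_or_gt_of_ne e3 with e4 | e4
    · refine ⟨_, binom_mem 1 ?_, _, (inv_binom hι h2).2⟩
      simp only [Set.mem_ofPred_eq, map_neg]
      omega
    · refine ⟨_, binom_mem 1 ?_, _, (inv_binom hι h2).1⟩
      simp only [Set.mem_ofPred_eq]
      omega
  · obtain ⟨i, hi, j, hj, a, b, c, e⟩ := hF T hT
    exact ⟨_, add_mem (add_mem (mul_mem (const_mem_MM (poly_mem_Reg _ a)) (x_mem_MM hi))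
      (mul_mem (const_mem_MM (poly_mem_Reg _ b)) (x_mem_MM hj))) (const_mem_MM (poly_mem_Reg _ c)),
      e⟩

end Pool.Agent.Lib.MP_0bb0c3_co
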